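import Mathlib
import Pool.Agent.Helper105_Full.Stage2

set_option autoImplicit false

namespace Pool.Agent.Helper105

open MeasureTheory Set
open scoped Classical

section
variable {Z : Type*} {k : ℕ}

/-- the table in which all cells of colour `m` carry the value `i`. -/
noncomputable def upT (κ : Z → ℕ) (m : ℕ) (i : Fin k) (T : Z → Fin k) : Z → Fin k :=
  fun c => if κ c = m then i else T c

theorem cp_step0 {D : Finset Z} {Bad : (Z → Fin k) → Prop}
    (hloc : ∀ T T' : Z → Fin k, (∀ y ∈ D, T y = T' y) → (Bad T ↔ Bad T')) {U U' : Set Z}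
    {T T' : Z → Fin k} (h : ∀ c ∈ D, c ∈ U' ↔ c ∈ U) (hT : ∀ c ∈ D, c ∉ U → T' c = T c) :
    cp D Bad U' T' = cp D Bad U T := by
  have e : cp D Bad U' T' = cp D Bad U T' := by
    unfold cp
    have : D.filter (· ∈ U') = D.filter (· ∈ U) := Finset.filter_congr h
    rw [this]
  rw [e]
  exact cp_loc hloc U fun y hy hyU => hT y hy hyU

theorem cp_step1 (hk : 0 < k) {D : Finset Z} {Bad : (Z → Fin k) → Prop}
    (hloc : ∀ T T' : Z → Fin k, (∀ y ∈ D, T y = T' y) → (Bad T ↔ Bad T')) {U U' : Set Z}
    {κ : Z → ℕ} {m : ℕ} {T : Z → Fin k} {c : Z} (hcU : c ∈ U) (hcU' : c ∉ U')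
    (hcm : κ c = m) (h : ∀ y ∈ D, y ≠ c → (y ∈ U' ↔ y ∈ U))
    (hT : ∀ y ∈ D, y ≠ c → y ∉ U → κ y ≠ m) :
    ∑ i : Fin k, cp D Bad U' (upT κ m i T) = k * cp D Bad U T := by
  have h1 := cp_tower hk hloc (U := U) (U' := U') (K := {c}) (by
    intro y hy
    rw [Finset.mem_singleton]
    constructor
    · intro hyU
      by_cases hyc : y = c
      · exact Or.inl hyc
      · exact Or.inr ((h y hy hyc).2 hyU)
    · rintro (rfl | hyU')
      · exact hcU
      · by_cases hyc : y = c
        · rw [hyc]; exact hcU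
        · exact (h y hy hyc).1 hyU') (by
    intro y hy
    rw [Finset.mem_singleton] at hy
    rw [hy]; exact hcU') T
  rw [Finset.card_singleton, pow_one, mul_comm] at h1
  rw [← h1]
  refine Finset.sum_bij (fun i _ => Function.update T c i) ?_ ?_ ?_ ?_
  · intro i _
    rw [mem_Tab]
    intro y hy
    rw [Finset.mem_singleton] at hy
    exact Function.update_of_ne hy _ _
  · intro i _ j _ hij
    have := congrFun hij c
    simpa using this
  · intro S hS
    rw [mem_Tab] at hS
    refine ⟨S c, Finset.mem_univ _, ?_⟩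
    funext y
    by_cases hy : y = c
    · rw [hy]; simp
    · rw [Function.update_of_ne hy]
      exact (hS y (by rwa [Finset.mem_singleton])).symm
  · intro i _
    refine cp_loc hloc U' fun y hy hyU' => ?_
    by_cases hyc : y = c
    · rw [hyc]
      simp [upT, hcm]
    · rw [Function.update_of_ne hyc]
      have h2 : y ∉ U := fun h' => hyU' ((h y hy hyc).2 h')
      simp [upT, hT y hy hyc h2]

/-- revealing one more cell multiplies a conditional probability by at most `k`. -/
theorem exp_step {ι : Type*} (J : Finset ι) {n : ℕ} (hn : 0 < n) (hJ : J.card = n) {R I x u : ℝ}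
    {z : ι → ℝ} (hz : ∀ i ∈ J, 0 ≤ z i) (hzs : ∑ i ∈ J, z i = n * I) (hI : 0 ≤ I)
    (hx : 0 < x) (hu : 0 < u) (hu1 : u ≤ 1) (hk : n * x * I ≤ 1 - u) :
    ∑ i ∈ J, Real.exp (x * (R - I + u * z i)) ≤ n * Real.exp (x * R) := by
  have hn' : (0 : ℝ) < n := by exact_mod_cast hn
  have hzi : ∀ i ∈ J, z i ≤ n * I := by
    intro i hi
    rw [← hzs]
    exact Finset.single_le_sum hz hi
  have h1 : ∀ i ∈ J, Real.exp (x * (u * z i)) ≤ 1 + x * u * z i * (2 - u) := by
    intro i hi
    have h2 : 0 ≤ x * (u * z i) := by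
      have := hz i hi
      positivity
    have h3 : x * (u * z i) ≤ 1 - u := by
      have h4 : u * z i ≤ 1 * (n * I) :=
        mul_le_mul hu1 (hzi i hi) (hz i hi) zero_le_one
      calc x * (u * z i) ≤ x * (1 * (n * I)) := mul_le_mul_of_nonneg_left h4 hx.le
        _ = n * x * I := by ring
        _ ≤ 1 - u := hk
    have h5 : Real.exp (x * (u * z i)) ≤ 1 + x * (u * z i) + (x * (u * z i)) ^ 2 := by
      have h6 := Real.abs_exp_sub_one_sub_id_le (x := x * (u * z i)) (by
        rw [abs_of_nonneg h2]; linarith)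
      have := (abs_le.1 h6).2
      linarith
    nlinarith
  have h2 : ∑ i ∈ J, Real.exp (x * (u * z i)) ≤ n * Real.exp (x * I) := by
    calc ∑ i ∈ J, Real.exp (x * (u * z i)) ≤ ∑ i ∈ J, (1 + x * u * (2 - u) * z i) :=
          Finset.sum_le_sum fun i hi => (h1 i hi).trans (le_of_eq (by ring))
      _ = n * (1 + x * I * (u * (2 - u))) := by
          rw [Finset.sum_add_distrib, ← Finset.mul_sum, hzs, Finset.sum_const, hJ, nsmul_eq_mul]
          ring
      _ ≤ n * (1 + x * I) := by
          refine mul_le_mul_of_nonneg_left ?_ hn'.le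
          have h3 : u * (2 - u) ≤ 1 := by nlinarith [sq_nonneg (1 - u)]
          have h4 : x * I * (u * (2 - u)) ≤ x * I * 1 :=
            mul_le_mul_of_nonneg_left h3 (by positivity)
          linarith
      _ ≤ n * Real.exp (x * I) := by
          refine mul_le_mul_of_nonneg_left ?_ hn'.le
          have := Real.add_one_le_exp (x * I)
          linarith
  calc ∑ i ∈ J, Real.exp (x * (R - I + u * z i))
      = Real.exp (x * (R - I)) * ∑ i ∈ J, Real.exp (x * (u * z i)) := by
        rw [Finset.mul_sum]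
        refine Finset.sum_congr rfl fun i _ => ?_
        rw [← Real.exp_add]
        ring_nf
    _ ≤ Real.exp (x * (R - I)) * (n * Real.exp (x * I)) :=
        mul_le_mul_of_nonneg_left h2 (Real.exp_pos _).le
    _ = n * Real.exp (x * R) := by
        rw [mul_left_comm, ← Real.exp_add]
        ring_nf

end

end Pool.Agent.Helper105
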