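import Mathlib
import Pool.Agent.Helper105_All.Step1

set_option autoImplicit false

namespace Pool.Agent.Helper105

open MeasureTheory Set
open scoped Classical

section
variable {Z Q V : Type*} {k : ℕ} (D : Q → Finset Z) (Bad : Q → (Z → Fin k) → Prop)
  (A : V → Finset Q) (c0 : Q → ℝ) (b : Z → ℝ)

/-- the weight of a structure. -/
noncomputable def wgt (U : Set Z) (S : Q) : ℝ :=
  c0 S * ∏ c ∈ D S, if c ∈ U then Real.exp (b c) else 1

/-- the test at `v`. -/
noncomputable def tst (U : Set Z) (T : Z → Fin k) (v : V) : ℝ :=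
  ∑ S ∈ A v, wgt D c0 b U S * cp (D S) (Bad S) U T

/-- the cell may be revealed. -/
def okc (Nt Nv : Z → Finset V) (iot : Z → ℝ) (ζ : ℝ) (U : Set Z) (T : Z → Fin k) (c : Z) : Prop :=
  (∀ u ∈ Nt c, tst D Bad A c0 b U T u ≤ iot c) ∧ ∀ v ∈ Nv c, tst D Bad A c0 b U T v ≤ ζ

/-- the unrevealed cells after the treatment of colour `m`. -/
def nxU (Nt Nv : Z → Finset V) (iot : Z → ℝ) (ζ : ℝ) (κ : Z → ℕ) (m : ℕ) (U : Set Z)
    (T : Z → Fin k) : Set Z :=
  {c | c ∈ U ∧ ¬ (κ c = m ∧ okc D Bad A c0 b Nt Nv iot ζ U T c)}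

variable {D Bad A c0 b}

theorem wgt_nonneg (hc0 : ∀ S, 0 ≤ c0 S) (U : Set Z) (S : Q) : 0 ≤ wgt D c0 b U S := by
  unfold wgt
  refine mul_nonneg (hc0 S) (Finset.prod_nonneg fun c _ => ?_)
  split_ifs
  · exact (Real.exp_pos _).le
  · exact zero_le_one

theorem tst_nonneg (hc0 : ∀ S, 0 ≤ c0 S) (U : Set Z) (T : Z → Fin k) (v : V) :
    0 ≤ tst D Bad A c0 b U T v :=
  Finset.sum_nonneg fun S _ => mul_nonneg (wgt_nonneg hc0 U S) (cp_nonneg _ _ _ _)

variable {Nt Nv : Z → Finset V} {iot : Z → ℝ} {ζ : ℝ} {κ : Z → ℕ} {m : ℕ} {U : Set Z}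
  {T : Z → Fin k}

theorem nxU_sub {c : Z} (h : c ∈ nxU D Bad A c0 b Nt Nv iot ζ κ m U T) : c ∈ U := h.1

theorem nxU_ne {c : Z} (hc : c ∈ U) (hm : κ c ≠ m) :
    c ∈ nxU D Bad A c0 b Nt Nv iot ζ κ m U T := ⟨hc, fun h => hm h.1⟩

/-- a structure with at most one cell of colour `m`. -/
theorem cp_step (hk : 0 < k) (hloc : ∀ S T T', (∀ y ∈ D S, T y = T' y) → (Bad S T ↔ Bad S T'))
    (hUm : ∀ c, m ≤ κ c → c ∈ U) {S : Q}
    (h1 : ∀ c ∈ D S, ∀ c' ∈ D S, κ c = κ c' → c = c') :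
    ∑ i : Fin k, cp (D S) (Bad S) (nxU D Bad A c0 b Nt Nv iot ζ κ m U T) (upT κ m i T) =
      k * cp (D S) (Bad S) U T := by
  by_cases hc : ∃ c ∈ D S, κ c = m ∧ okc D Bad A c0 b Nt Nv iot ζ U T c
  · obtain ⟨c, hcD, hcm, hok⟩ := hc
    refine cp_step1 hk (hloc S) (hUm c hcm.ge) (fun h => h.2 ⟨hcm, hok⟩) hcm ?_ ?_
    · intro y hy hyc
      have hym : κ y ≠ m := fun h => hyc (h1 y hy c hcD (h.trans hcm.symm))
      exact ⟨fun h => h.1, fun h => nxU_ne h hym⟩
    · intro y _ _ hyU hym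
      exact hyU (hUm y hym.ge)
  · push Not at hc
    have h2 : ∀ i : Fin k, cp (D S) (Bad S) (nxU D Bad A c0 b Nt Nv iot ζ κ m U T)
        (upT κ m i T) = cp (D S) (Bad S) U T := by
      intro i
      refine cp_step0 (hloc S) ?_ ?_
      · intro c hcD
        exact ⟨fun h => h.1, fun h => ⟨h, fun h' => hc c hcD h'.1 h'.2⟩⟩
      · intro c _ hcU
        have : κ c ≠ m := fun h => hcU (hUm c h.ge)
        simp [upT, this]
    rw [Finset.sum_congr rfl fun i _ => h2 i]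
    simp

/-- the change of a test in one step. -/
theorem tst_step (hk : 0 < k)
    (hloc : ∀ S T T', (∀ y ∈ D S, T y = T' y) → (Bad S T ↔ Bad S T'))
    (hc0 : ∀ S, 0 ≤ c0 S) {lam : ℝ} (hlam : 0 < lam)
    (hNtm : ∀ v, ∀ S ∈ A v, ∀ c ∈ D S, ∃ u ∈ Nt c, S ∈ A u)
    (hNvm : ∀ v, ∀ S ∈ A v, ∀ c ∈ D S, v ∈ Nv c)
    (hiot : ∀ c, k * lam * ((Nt c).card * iot c) ≤ 1 - Real.exp (-b c))
    (hUm : ∀ c, m ≤ κ c → c ∈ U) {v : V}
    (h1 : ∀ S ∈ A v, ∀ S' ∈ A v, ∀ c ∈ D S, ∀ c' ∈ D S', κ c = κ c' → c = c') :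
    (∀ i : Fin k, tst D Bad A c0 b (nxU D Bad A c0 b Nt Nv iot ζ κ m U T) (upT κ m i T) v =
      tst D Bad A c0 b U T v) ∨
    ∃ (c : Z) (I : ℝ) (z : Fin k → ℝ), 0 ≤ I ∧ (∀ i, 0 ≤ z i) ∧ ∑ i, z i = k * I ∧
      k * lam * I ≤ 1 - Real.exp (-b c) ∧ tst D Bad A c0 b U T v ≤ ζ ∧
      ∀ i, tst D Bad A c0 b (nxU D Bad A c0 b Nt Nv iot ζ κ m U T) (upT κ m i T) v =
        tst D Bad A c0 b U T v - I + Real.exp (-b c) * z i := by
  obtain ⟨U', hU'⟩ : ∃ U', U' = nxU D Bad A c0 b Nt Nv iot ζ κ m U T := ⟨_, rfl⟩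
  rw [← hU']
  have hU'c : ∀ c, c ∈ U' ↔ c ∈ U ∧ ¬ (κ c = m ∧ okc D Bad A c0 b Nt Nv iot ζ U T c) := by
    intro c; rw [hU']; rfl
  have hT' : ∀ c, c ∉ U → ∀ i : Fin k, upT κ m i T c = T c := by
    intro c hc i
    have : κ c ≠ m := fun h => hc (hUm c h.ge)
    simp [upT, this]
  by_cases hc : ∃ S₀ ∈ A v, ∃ c ∈ D S₀, κ c = m ∧ okc D Bad A c0 b Nt Nv iot ζ U T c
  · right
    obtain ⟨S₀, hS₀, c, hcD, hcm, hok⟩ := hc
    have hcU : c ∈ U := hUm c hcm.ge
    have hcU' : c ∉ U' := fun h => ((hU'c c).1 h).2 ⟨hcm, hok⟩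
    have hother : ∀ S ∈ A v, ∀ y ∈ D S, y ≠ c → (y ∈ U' ↔ y ∈ U) := by
      intro S hS y hy hyc
      rw [hU'c]
      have hym : κ y ≠ m := fun h => hyc (h1 S hS S₀ hS₀ y hy c hcD (h.trans hcm.symm))
      exact ⟨fun h => h.1, fun h => ⟨h, fun h' => hym h'.1⟩⟩
    -- weights
    have hw : ∀ S ∈ A v, wgt D c0 b U' S =
        if c ∈ D S then Real.exp (-b c) * wgt D c0 b U S else wgt D c0 b U S := by
      intro S hS
      unfold wgt
      split_ifs with hcS
      · have e1 : ∏ y ∈ D S, (if y ∈ U' then Real.exp (b y) else 1) =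
            ∏ y ∈ (D S).erase c, (if y ∈ U then Real.exp (b y) else 1) := by
          rw [← Finset.mul_prod_erase _ _ hcS, if_neg hcU', one_mul]
          refine Finset.prod_congr rfl fun y hy => ?_
          rw [Finset.mem_erase] at hy
          exact if_congr (hother S hS y hy.2 hy.1) rfl rfl
        have e2 : ∏ y ∈ D S, (if y ∈ U then Real.exp (b y) else 1) =
            Real.exp (b c) * ∏ y ∈ (D S).erase c, (if y ∈ U then Real.exp (b y) else 1) := by
          rw [← Finset.mul_prod_erase _ _ hcS, if_pos hcU]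
        rw [e1, e2]
        have e3 : Real.exp (-b c) * Real.exp (b c) = 1 := by
          rw [← Real.exp_add]; simp
        calc _ = (Real.exp (-b c) * Real.exp (b c)) * (c0 S *
              ∏ y ∈ (D S).erase c, (if y ∈ U then Real.exp (b y) else 1)) := by
              rw [e3, one_mul]
          _ = _ := by ring
      · congr 1
        refine Finset.prod_congr rfl fun y hy => ?_
        have : y ≠ c := fun h => hcS (h ▸ hy)
        exact if_congr (hother S hS y hy this) rfl rfl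
    obtain ⟨A1, hA1⟩ : ∃ A1, A1 = (A v).filter (fun S => c ∈ D S) := ⟨_, rfl⟩
    obtain ⟨A2, hA2⟩ : ∃ A2, A2 = (A v).filter (fun S => ¬ c ∈ D S) := ⟨_, rfl⟩
    have hsplit : ∀ f : Q → ℝ, ∑ S ∈ A v, f S = ∑ S ∈ A1, f S + ∑ S ∈ A2, f S := by
      intro f
      rw [hA1, hA2, Finset.sum_filter_add_sum_filter_not]
    refine ⟨c, ∑ S ∈ A1, wgt D c0 b U S * cp (D S) (Bad S) U T,
      fun i => ∑ S ∈ A1, wgt D c0 b U S * cp (D S) (Bad S) U' (upT κ m i T), ?_, ?_, ?_, ?_,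
      hok.2 v (hNvm v S₀ hS₀ c hcD), ?_⟩
    · exact Finset.sum_nonneg fun S _ => mul_nonneg (wgt_nonneg hc0 U S) (cp_nonneg _ _ _ _)
    · intro i
      exact Finset.sum_nonneg fun S _ => mul_nonneg (wgt_nonneg hc0 U S) (cp_nonneg _ _ _ _)
    · rw [Finset.sum_comm, Finset.mul_sum]
      refine Finset.sum_congr rfl fun S hS => ?_
      rw [hA1, Finset.mem_filter] at hS
      rw [← Finset.mul_sum, cp_step1 hk (hloc S) hcU hcU' hcm (hother S hS.1)
        (fun y _ _ hyU hym => hyU (hUm y hym.ge))]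
      ring
    · have h2 : ∑ S ∈ A1, wgt D c0 b U S * cp (D S) (Bad S) U T ≤ (Nt c).card * iot c := by
        calc ∑ S ∈ A1, wgt D c0 b U S * cp (D S) (Bad S) U T
            ≤ ∑ S ∈ (Nt c).biUnion A, wgt D c0 b U S * cp (D S) (Bad S) U T := by
              refine Finset.sum_le_sum_of_subset_of_nonneg ?_ fun S _ _ =>
                mul_nonneg (wgt_nonneg hc0 U S) (cp_nonneg _ _ _ _)
              intro S hS
              rw [hA1, Finset.mem_filter] at hS
              obtain ⟨u, hu, hSu⟩ := hNtm v S hS.1 c hS.2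
              exact Finset.mem_biUnion.2 ⟨u, hu, hSu⟩
          _ ≤ ∑ u ∈ Nt c, ∑ S ∈ A u, wgt D c0 b U S * cp (D S) (Bad S) U T :=
              sum_biUnion_le2 _ _ fun S => mul_nonneg (wgt_nonneg hc0 U S) (cp_nonneg _ _ _ _)
          _ ≤ ∑ _u ∈ Nt c, iot c := Finset.sum_le_sum fun u hu => hok.1 u hu
          _ = (Nt c).card * iot c := by rw [Finset.sum_const, nsmul_eq_mul]
      exact (mul_le_mul_of_nonneg_left h2 (by positivity)).trans (hiot c)
    · intro i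
      have e1 : tst D Bad A c0 b U' (upT κ m i T) v =
          ∑ S ∈ A1, Real.exp (-b c) * (wgt D c0 b U S * cp (D S) (Bad S) U' (upT κ m i T)) +
          ∑ S ∈ A2, wgt D c0 b U S * cp (D S) (Bad S) U T := by
        unfold tst
        rw [hsplit]
        congr 1
        · refine Finset.sum_congr rfl fun S hS => ?_
          rw [hA1, Finset.mem_filter] at hS
          rw [hw S hS.1, if_pos hS.2]
          ring
        · refine Finset.sum_congr rfl fun S hS => ?_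
          rw [hA2, Finset.mem_filter] at hS
          rw [hw S hS.1, if_neg hS.2]
          congr 1
          refine cp_step0 (hloc S) ?_ ?_
          · intro y hy
            have : y ≠ c := fun h => hS.2 (h ▸ hy)
            exact hother S hS.1 y hy this
          · intro y _ hyU
            exact hT' y hyU i
      rw [e1]
      have e2 : tst D Bad A c0 b U T v = ∑ S ∈ A1, wgt D c0 b U S * cp (D S) (Bad S) U T +
          ∑ S ∈ A2, wgt D c0 b U S * cp (D S) (Bad S) U T := hsplit _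
      rw [e2, Finset.mul_sum]
      ring
  · left
    push Not at hc
    have hsame : ∀ S ∈ A v, ∀ y ∈ D S, (y ∈ U' ↔ y ∈ U) := by
      intro S hS y hy
      rw [hU'c]
      exact ⟨fun h => h.1, fun h => ⟨h, fun h' => hc S hS y hy h'.1 h'.2⟩⟩
    intro i
    unfold tst
    refine Finset.sum_congr rfl fun S hS => ?_
    have e1 : wgt D c0 b U' S = wgt D c0 b U S := by
      unfold wgt
      congr 1
      exact Finset.prod_congr rfl fun y hy => if_congr (hsame S hS y hy) rfl rfl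
    rw [e1, cp_step0 (hloc S) (hsame S hS) fun y _ hyU => hT' y hyU i]

/-- the consequences used below. -/
theorem tst_step' (hk : 0 < k)
    (hloc : ∀ S T T', (∀ y ∈ D S, T y = T' y) → (Bad S T ↔ Bad S T'))
    (hc0 : ∀ S, 0 ≤ c0 S) (hb : ∀ c, 0 ≤ b c) {lam : ℝ} (hlam : 0 < lam)
    (hNtm : ∀ v, ∀ S ∈ A v, ∀ c ∈ D S, ∃ u ∈ Nt c, S ∈ A u)
    (hNvm : ∀ v, ∀ S ∈ A v, ∀ c ∈ D S, v ∈ Nv c)
    (hiot : ∀ c, k * lam * ((Nt c).card * iot c) ≤ 1 - Real.exp (-b c))
    (hUm : ∀ c, m ≤ κ c → c ∈ U) {v : V}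
    (h1 : ∀ S ∈ A v, ∀ S' ∈ A v, ∀ c ∈ D S, ∀ c' ∈ D S', κ c = κ c' → c = c') :
    (∑ i : Fin k, tst D Bad A c0 b (nxU D Bad A c0 b Nt Nv iot ζ κ m U T) (upT κ m i T) v ≤
      k * tst D Bad A c0 b U T v) ∧
    (∑ i : Fin k, Real.exp (lam * (tst D Bad A c0 b (nxU D Bad A c0 b Nt Nv iot ζ κ m U T)
      (upT κ m i T) v - ζ)) ≤ k * Real.exp (lam * (tst D Bad A c0 b U T v - ζ))) ∧
    (tst D Bad A c0 b U T v ≤ ζ + 1 / lam → ∀ i,
      tst D Bad A c0 b (nxU D Bad A c0 b Nt Nv iot ζ κ m U T) (upT κ m i T) v ≤ ζ + 1 / lam) := by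
  rcases tst_step (T := T) (ζ := ζ) hk hloc hc0 hlam hNtm hNvm hiot hUm h1 with h |
    ⟨c, I, z, hI, hz, hzs, hkI, hζ, h⟩
  · refine ⟨le_of_eq ?_, le_of_eq ?_, fun h2 i => by rw [h i]; exact h2⟩
    · rw [Finset.sum_congr rfl fun i _ => h i]
      simp
    · rw [Finset.sum_congr rfl fun i _ => by rw [h i]]
      simp
  · have hu0 : 0 < Real.exp (-b c) := Real.exp_pos _
    have hu1 : Real.exp (-b c) ≤ 1 := by
      rw [Real.exp_le_one_iff]
      linarith [hb c]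
    have hk' : (0 : ℝ) < k := by exact_mod_cast hk
    refine ⟨?_, ?_, fun _ i => ?_⟩
    · rw [Finset.sum_congr rfl fun i _ => h i, Finset.sum_add_distrib, ← Finset.mul_sum, hzs,
        Finset.sum_const, Finset.card_univ, Fintype.card_fin, nsmul_eq_mul]
      have h3 : Real.exp (-b c) * (k * I) ≤ 1 * (k * I) :=
        mul_le_mul_of_nonneg_right hu1 (by positivity)
      linarith
    · have h3 := exp_step (Finset.univ : Finset (Fin k)) hk (by simp) (R :=
        tst D Bad A c0 b U T v - ζ) (I := I) (x := lam) (u := Real.exp (-b c)) (z := z)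
        (fun i _ => hz i) hzs hI hlam hu0 hu1 hkI
      refine le_trans (le_of_eq ?_) h3
      refine Finset.sum_congr rfl fun i _ => ?_
      rw [h i]
      congr 2
      ring
    · rw [h i]
      have hzi : z i ≤ k * I := by
        rw [← hzs]
        exact Finset.single_le_sum (fun i _ => hz i) (Finset.mem_univ i)
      have h3 : Real.exp (-b c) * z i ≤ 1 * (k * I) :=
        mul_le_mul hu1 hzi (hz i) zero_le_one
      have h4 : k * I ≤ 1 / lam := by
        rw [le_div_iff₀ hlam]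
        have : k * lam * I ≤ 1 := by linarith
        linarith
      linarith

end

end Pool.Agent.Helper105
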