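import Mathlib
import Pool.Agent.Helper105_All.Step2
import Pool.Agent.Helper105_Full.Atoms

set_option autoImplicit false

namespace Pool.Agent.Helper105

open MeasureTheory Set Filter
open scoped Classical ENNReal

section
variable {Z Q V X : Type*} {k : ℕ} (D : Q → Finset Z) (Bad : Q → (Z → Fin k) → Prop)
  (A : V → Finset Q) (c0 : Q → ℝ) (b : Z → ℝ) (Nt Nv : Z → Finset V) (iot : Z → ℝ) (lam ζ : ℝ)
  (κ : Z → ℕ)

/-- the estimator for the event that the cell `c` is never revealed. -/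
noncomputable def th (m : ℕ) (U : Set Z) (T : Z → Fin k) (c : Z) : ℝ :=
  if m ≤ κ c then ∑ u ∈ Nt c, tst D Bad A c0 b U T u / iot c +
    ∑ v ∈ Nv c, Real.exp (lam * (tst D Bad A c0 b U T v - ζ))
  else if c ∈ U then 1 else 0

/-- the potential. -/
noncomputable def phi (W : ℝ) (Reg : X → Finset Z) (B1 B2 : X → Finset Q) (m : ℕ) (U : Set Z)
    (T : Z → Fin k) (x : X) : ℝ :=
  W * (∑ c ∈ Reg x, th D Bad A c0 b Nt Nv iot lam ζ κ m U T c +
    ∑ S ∈ B1 x, cp (D S) (Bad S) U T) + ∑ S ∈ B2 x, cp (D S) (Bad S) U T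

variable {D Bad A c0 b Nt Nv iot lam ζ κ}

theorem th_nonneg (hc0 : ∀ S, 0 ≤ c0 S) (hio : ∀ c, 0 < iot c) (m : ℕ) (U : Set Z)
    (T : Z → Fin k) (c : Z) : 0 ≤ th D Bad A c0 b Nt Nv iot lam ζ κ m U T c := by
  unfold th
  split_ifs
  · refine add_nonneg (Finset.sum_nonneg fun u _ => div_nonneg (tst_nonneg hc0 U T u) (hio c).le)
      (Finset.sum_nonneg fun v _ => (Real.exp_pos _).le)
  · exact zero_le_one
  · exact le_rfl

theorem th_step (hk : 0 < k)
    (hloc : ∀ S T T', (∀ y ∈ D S, T y = T' y) → (Bad S T ↔ Bad S T'))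
    (hc0 : ∀ S, 0 ≤ c0 S) (hb : ∀ c, 0 ≤ b c) (hio : ∀ c, 0 < iot c) (hlam : 0 < lam)
    (hNtm : ∀ v, ∀ S ∈ A v, ∀ c ∈ D S, ∃ u ∈ Nt c, S ∈ A u)
    (hNvm : ∀ v, ∀ S ∈ A v, ∀ c ∈ D S, v ∈ Nv c)
    (hiot : ∀ c, k * lam * ((Nt c).card * iot c) ≤ 1 - Real.exp (-b c)) {m : ℕ} {U : Set Z}
    {T : Z → Fin k} (hUm : ∀ c, m ≤ κ c → c ∈ U)
    (h1 : ∀ v, ∀ S ∈ A v, ∀ S' ∈ A v, ∀ c ∈ D S, ∀ c' ∈ D S', κ c = κ c' → c = c') (c : Z) :
    ∑ i : Fin k, th D Bad A c0 b Nt Nv iot lam ζ κ (m + 1)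
      (nxU D Bad A c0 b Nt Nv iot ζ κ m U T) (upT κ m i T) c ≤
      k * th D Bad A c0 b Nt Nv iot lam ζ κ m U T c := by
  have hk' : (0 : ℝ) < k := by exact_mod_cast hk
  rcases lt_trichotomy m (κ c) with h | h | h
  · have e1 : m + 1 ≤ κ c := h
    have e2 : m ≤ κ c := h.le
    simp only [th, e1, e2, if_true]
    rw [Finset.sum_add_distrib, mul_add]
    refine add_le_add ?_ ?_
    · rw [Finset.sum_comm, Finset.mul_sum]
      refine Finset.sum_le_sum fun u _ => ?_
      rw [← Finset.sum_div, ← mul_div_assoc]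
      refine div_le_div_of_nonneg_right ?_ (hio c).le
      exact (tst_step' hk hloc hc0 hb hlam hNtm hNvm hiot hUm (h1 u)).1
    · rw [Finset.sum_comm, Finset.mul_sum]
      refine Finset.sum_le_sum fun v _ => ?_
      exact (tst_step' hk hloc hc0 hb hlam hNtm hNvm hiot hUm (h1 v)).2.1
  · have e1 : ¬ (m + 1 ≤ κ c) := by omega
    have e2 : m ≤ κ c := h.le
    simp only [th, e1, e2, if_true, if_false]
    rw [Finset.sum_const, Finset.card_univ, Fintype.card_fin, nsmul_eq_mul]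
    refine mul_le_mul_of_nonneg_left ?_ hk'.le
    have hsum1 : ∀ u ∈ Nt c, 0 ≤ tst D Bad A c0 b U T u / iot c :=
      fun u _ => div_nonneg (tst_nonneg hc0 U T u) (hio c).le
    have hsum2 : ∀ v ∈ Nv c, 0 ≤ Real.exp (lam * (tst D Bad A c0 b U T v - ζ)) :=
      fun v _ => (Real.exp_pos _).le
    have hs1 := Finset.sum_nonneg hsum1
    have hs2 := Finset.sum_nonneg hsum2
    split_ifs with hc
    · have h2 : ¬ okc D Bad A c0 b Nt Nv iot ζ U T c := fun h' => hc.2 ⟨h.symm, h'⟩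
      rw [okc, not_and_or] at h2
      rcases h2 with h2 | h2
      · push Not at h2
        obtain ⟨u, hu, h3⟩ := h2
        have h4 := Finset.single_le_sum hsum1 hu
        have h5 : 1 ≤ tst D Bad A c0 b U T u / iot c := by
          rw [le_div_iff₀ (hio c)]
          linarith
        linarith
      · push Not at h2
        obtain ⟨v, hv, h3⟩ := h2
        have h4 := Finset.single_le_sum hsum2 hv
        have h5 : 1 ≤ Real.exp (lam * (tst D Bad A c0 b U T v - ζ)) := by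
          rw [Real.one_le_exp_iff]
          exact mul_nonneg hlam.le (by linarith)
        linarith
    · exact add_nonneg hs1 hs2
  · have e1 : ¬ (m + 1 ≤ κ c) := by omega
    have e2 : ¬ (m ≤ κ c) := by omega
    simp only [th, e1, e2, if_false]
    rw [Finset.sum_const, Finset.card_univ, Fintype.card_fin, nsmul_eq_mul]
    refine mul_le_mul_of_nonneg_left ?_ hk'.le
    split_ifs with h3 h4
    · exact le_rfl
    · exact absurd (nxU_sub h3) h4
    · exact zero_le_one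
    · exact le_rfl

theorem phi_step (hk : 0 < k)
    (hloc : ∀ S T T', (∀ y ∈ D S, T y = T' y) → (Bad S T ↔ Bad S T'))
    (hc0 : ∀ S, 0 ≤ c0 S) (hb : ∀ c, 0 ≤ b c) (hio : ∀ c, 0 < iot c) (hlam : 0 < lam)
    (hNtm : ∀ v, ∀ S ∈ A v, ∀ c ∈ D S, ∃ u ∈ Nt c, S ∈ A u)
    (hNvm : ∀ v, ∀ S ∈ A v, ∀ c ∈ D S, v ∈ Nv c)
    (hiot : ∀ c, k * lam * ((Nt c).card * iot c) ≤ 1 - Real.exp (-b c)) {m : ℕ} {U : Set Z}
    {T : Z → Fin k} (hUm : ∀ c, m ≤ κ c → c ∈ U)
    (h1 : ∀ v, ∀ S ∈ A v, ∀ S' ∈ A v, ∀ c ∈ D S, ∀ c' ∈ D S', κ c = κ c' → c = c')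
    {W : ℝ} (hW : 0 ≤ W) (Reg : X → Finset Z) (B1 B2 : X → Finset Q)
    (h2 : ∀ x, ∀ S, S ∈ B1 x ∨ S ∈ B2 x → ∀ c ∈ D S, ∀ c' ∈ D S, κ c = κ c' → c = c') (x : X) :
    ∑ i : Fin k, phi D Bad A c0 b Nt Nv iot lam ζ κ W Reg B1 B2 (m + 1)
      (nxU D Bad A c0 b Nt Nv iot ζ κ m U T) (upT κ m i T) x ≤
      k * phi D Bad A c0 b Nt Nv iot lam ζ κ W Reg B1 B2 m U T x := by
  unfold phi
  rw [Finset.sum_add_distrib, mul_add]
  refine add_le_add ?_ ?_
  · rw [← Finset.mul_sum, Finset.sum_add_distrib]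
    have e : (k : ℝ) * (W * (∑ c ∈ Reg x, th D Bad A c0 b Nt Nv iot lam ζ κ m U T c +
        ∑ S ∈ B1 x, cp (D S) (Bad S) U T)) =
        W * (k * ∑ c ∈ Reg x, th D Bad A c0 b Nt Nv iot lam ζ κ m U T c +
        k * ∑ S ∈ B1 x, cp (D S) (Bad S) U T) := by ring
    rw [e]
    refine mul_le_mul_of_nonneg_left (add_le_add ?_ ?_) hW
    · rw [Finset.sum_comm, Finset.mul_sum]
      exact Finset.sum_le_sum fun c _ =>
        th_step hk hloc hc0 hb hio hlam hNtm hNvm hiot hUm h1 c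
    · rw [Finset.sum_comm, Finset.mul_sum]
      exact Finset.sum_le_sum fun S hS => (cp_step hk hloc hUm (h2 x S (Or.inl hS))).le
  · rw [Finset.sum_comm, Finset.mul_sum]
    exact Finset.sum_le_sum fun S hS => (cp_step hk hloc hUm (h2 x S (Or.inr hS))).le

theorem phi_nonneg (hc0 : ∀ S, 0 ≤ c0 S) (hio : ∀ c, 0 < iot c) {W : ℝ} (hW : 0 ≤ W)
    (Reg : X → Finset Z) (B1 B2 : X → Finset Q) (m : ℕ) (U : Set Z) (T : Z → Fin k) (x : X) :
    0 ≤ phi D Bad A c0 b Nt Nv iot lam ζ κ W Reg B1 B2 m U T x := by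
  unfold phi
  refine add_nonneg (mul_nonneg hW (add_nonneg ?_ ?_)) ?_
  · exact Finset.sum_nonneg fun c _ => th_nonneg hc0 hio m U T c
  · exact Finset.sum_nonneg fun S _ => cp_nonneg _ _ _ _
  · exact Finset.sum_nonneg fun S _ => cp_nonneg _ _ _ _

end

section meas
variable {Z Q V X : Type*} [MeasurableSpace Z] [StandardBorelSpace Z] [MeasurableSpace Q]
  [StandardBorelSpace Q] [MeasurableSpace V] [StandardBorelSpace V] [MeasurableSpace X]
  [StandardBorelSpace X] {k : ℕ} {D : Q → Finset Z} {Bad : Q → (Z → Fin k) → Prop}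
  {A : V → Finset Q} {c0 : Q → ℝ} {b : Z → ℝ} {Nt Nv : Z → Finset V} {iot : Z → ℝ} {lam ζ : ℝ}
  {κ : Z → ℕ}

theorem tst_meas (hk : 0 < k) (hD : MeasurableSet {p : Q × Z | p.2 ∈ D p.1})
    (hloc : ∀ S T T', (∀ y ∈ D S, T y = T' y) → (Bad S T ↔ Bad S T'))
    (hBm : ∀ T, Measurable T → MeasurableSet {S | Bad S T})
    (hA : MeasurableSet {p : V × Q | p.2 ∈ A p.1}) (hc0m : Measurable c0) (hbm : Measurable b)
    {U : Set Z} (hU : MeasurableSet U) {T : Z → Fin k} (hT : Measurable T) :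
    Measurable fun v => tst D Bad A c0 b U T v := by
  have hw : Measurable fun S => wgt D c0 b U S := by
    refine hc0m.mul (measurable_fprod D hD (fun _ c => if c ∈ U then Real.exp (b c) else 1) ?_)
    exact Measurable.ite (measurable_snd hU)
      (Real.measurable_exp.comp (hbm.comp measurable_snd)) measurable_const
  exact measurable_fsum A hA (fun _ S => wgt D c0 b U S * cp (D S) (Bad S) U T)
    ((hw.mul (cp_meas hk hD hloc hBm hU hT)).comp measurable_snd)

theorem nxU_meas (hk : 0 < k) (hD : MeasurableSet {p : Q × Z | p.2 ∈ D p.1})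
    (hloc : ∀ S T T', (∀ y ∈ D S, T y = T' y) → (Bad S T ↔ Bad S T'))
    (hBm : ∀ T, Measurable T → MeasurableSet {S | Bad S T})
    (hA : MeasurableSet {p : V × Q | p.2 ∈ A p.1}) (hc0m : Measurable c0) (hbm : Measurable b)
    (hNt : MeasurableSet {p : Z × V | p.2 ∈ Nt p.1})
    (hNv : MeasurableSet {p : Z × V | p.2 ∈ Nv p.1}) (hio : Measurable iot)
    (hκ : Measurable κ) (m : ℕ)
    {U : Set Z} (hU : MeasurableSet U) {T : Z → Fin k} (hT : Measurable T) :
    MeasurableSet (nxU D Bad A c0 b Nt Nv iot ζ κ m U T) := by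
  have ht := tst_meas hk hD hloc hBm hA hc0m hbm hU hT
  have hok : MeasurableSet {c | okc D Bad A c0 b Nt Nv iot ζ U T c} := by
    refine MeasurableSet.inter ?_ ?_
    · exact forall_mem_meas hNt (P := fun c u => tst D Bad A c0 b U T u ≤ iot c)
        (measurableSet_le (ht.comp measurable_snd) (hio.comp measurable_fst))
    · exact forall_mem_meas hNv (P := fun _ v => tst D Bad A c0 b U T v ≤ ζ)
        (measurableSet_le (ht.comp measurable_snd) measurable_const)
  exact hU.inter (MeasurableSet.compl ((measurableSet_eq_fun hκ measurable_const).inter hok))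

theorem phi_meas (hk : 0 < k) (hD : MeasurableSet {p : Q × Z | p.2 ∈ D p.1})
    (hloc : ∀ S T T', (∀ y ∈ D S, T y = T' y) → (Bad S T ↔ Bad S T'))
    (hBm : ∀ T, Measurable T → MeasurableSet {S | Bad S T})
    (hA : MeasurableSet {p : V × Q | p.2 ∈ A p.1}) (hc0m : Measurable c0) (hbm : Measurable b)
    (hNt : MeasurableSet {p : Z × V | p.2 ∈ Nt p.1})
    (hNv : MeasurableSet {p : Z × V | p.2 ∈ Nv p.1}) (hio : Measurable iot)
    (hκ : Measurable κ) (W : ℝ) {Reg : X → Finset Z}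
    (hReg : MeasurableSet {p : X × Z | p.2 ∈ Reg p.1}) {B1 B2 : X → Finset Q}
    (hB1 : MeasurableSet {p : X × Q | p.2 ∈ B1 p.1})
    (hB2 : MeasurableSet {p : X × Q | p.2 ∈ B2 p.1}) (m : ℕ)
    {U : Set Z} (hU : MeasurableSet U) {T : Z → Fin k} (hT : Measurable T) :
    Measurable fun x => phi D Bad A c0 b Nt Nv iot lam ζ κ W Reg B1 B2 m U T x := by
  have ht := tst_meas hk hD hloc hBm hA hc0m hbm hU hT
  have hcp := cp_meas hk hD hloc hBm hU hT
  have hth : Measurable fun c => th D Bad A c0 b Nt Nv iot lam ζ κ m U T c := by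
    unfold th
    refine Measurable.ite (measurableSet_le measurable_const hκ) (Measurable.add ?_ ?_)
      (Measurable.ite hU measurable_const measurable_const)
    · exact measurable_fsum Nt hNt (fun c u => tst D Bad A c0 b U T u / iot c)
        ((ht.comp measurable_snd).div (hio.comp measurable_fst))
    · exact measurable_fsum Nv hNv (fun _ v => Real.exp (lam * (tst D Bad A c0 b U T v - ζ)))
        (Real.measurable_exp.comp (((ht.comp measurable_snd).sub_const _).const_mul _))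
  unfold phi
  refine Measurable.add (Measurable.const_mul (Measurable.add ?_ ?_) _) ?_
  · exact measurable_fsum Reg hReg (fun _ c => th D Bad A c0 b Nt Nv iot lam ζ κ m U T c)
      (hth.comp measurable_snd)
  · exact measurable_fsum B1 hB1 (fun _ S => cp (D S) (Bad S) U T) (hcp.comp measurable_snd)
  · exact measurable_fsum B2 hB2 (fun _ S => cp (D S) (Bad S) U T) (hcp.comp measurable_snd)

end meas

end Pool.Agent.Helper105
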