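import Mathlib
import Pool.Agent.Helper105_All.Freeze

set_option autoImplicit false

namespace Pool.Agent.Helper105

open MeasureTheory Set Filter
open scoped Classical ENNReal Topology

section meas
variable {Z Q V X : Type*} [MeasurableSpace Z] [StandardBorelSpace Z] [MeasurableSpace Q]
  [StandardBorelSpace Q] [MeasurableSpace V] [StandardBorelSpace V] [MeasurableSpace X]
  [StandardBorelSpace X] {k : ℕ} {D : Q → Finset Z} {Bad : Q → (Z → Fin k) → Prop}
  {A : V → Finset Q} {c0 : Q → ℝ} {b : Z → ℝ} {Nt Nv : Z → Finset V} {iot : Z → ℝ} {lam ζ : ℝ}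
  {κ : Z → ℕ}

theorem lint_choice (hk : 0 < k) (μ : Measure X) {f : Fin k → X → ℝ} {g : X → ℝ}
    (hf : ∀ i, Measurable (f i)) (hf0 : ∀ i x, 0 ≤ f i x)
    (h : ∀ x, ∑ i, f i x ≤ k * g x) :
    ∃ i, ∫⁻ x, ENNReal.ofReal (f i x) ∂μ ≤ ∫⁻ x, ENNReal.ofReal (g x) ∂μ := by
  have h1 : ∑ i : Fin k, ∫⁻ x, ENNReal.ofReal (f i x) ∂μ ≤
      ∑ _i : Fin k, ∫⁻ x, ENNReal.ofReal (g x) ∂μ := by
    rw [← lintegral_finset_sum _ fun i _ => (hf i).ennreal_ofReal, Finset.sum_const,
      Finset.card_univ, Fintype.card_fin, nsmul_eq_mul,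
      ← lintegral_const_mul' _ _ (ENNReal.natCast_ne_top k)]
    refine lintegral_mono fun x => ?_
    beta_reduce
    rw [← ENNReal.ofReal_sum_of_nonneg fun i _ => hf0 i x, ← ENNReal.ofReal_natCast,
      ← ENNReal.ofReal_mul (Nat.cast_nonneg k)]
    exact ENNReal.ofReal_le_ofReal (h x)
  haveI : Nonempty (Fin k) := ⟨⟨0, hk⟩⟩
  obtain ⟨i, -, hi⟩ := ENNReal.exists_le_of_sum_le Finset.univ_nonempty h1
  exact ⟨i, hi⟩

/-- The freezing process. -/
theorem freeze (hk : 0 < k) (hD : MeasurableSet {p : Q × Z | p.2 ∈ D p.1})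
    (hloc : ∀ S T T', (∀ y ∈ D S, T y = T' y) → (Bad S T ↔ Bad S T'))
    (hBm : ∀ T, Measurable T → MeasurableSet {S | Bad S T})
    (hA : MeasurableSet {p : V × Q | p.2 ∈ A p.1}) (hc0 : ∀ S, 0 ≤ c0 S) (hc0m : Measurable c0)
    (hb : ∀ c, 0 ≤ b c) (hbm : Measurable b)
    (hNt : MeasurableSet {p : Z × V | p.2 ∈ Nt p.1})
    (hNv : MeasurableSet {p : Z × V | p.2 ∈ Nv p.1}) (hio0 : ∀ c, 0 < iot c)
    (hio : Measurable iot) (hlam : 0 < lam)
    (hNtm : ∀ v, ∀ S ∈ A v, ∀ c ∈ D S, ∃ u ∈ Nt c, S ∈ A u)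
    (hNvm : ∀ v, ∀ S ∈ A v, ∀ c ∈ D S, v ∈ Nv c)
    (hiot : ∀ c, k * lam * ((Nt c).card * iot c) ≤ 1 - Real.exp (-b c))
    (hκ : Measurable κ)
    (h1 : ∀ v, ∀ S ∈ A v, ∀ S' ∈ A v, ∀ c ∈ D S, ∀ c' ∈ D S', κ c = κ c' → c = c')
    (μ : Measure X) {W : ℝ} (hW : 0 ≤ W) {Reg : X → Finset Z}
    (hReg : MeasurableSet {p : X × Z | p.2 ∈ Reg p.1}) {B1 B2 : X → Finset Q}
    (hB1 : MeasurableSet {p : X × Q | p.2 ∈ B1 p.1})
    (hB2 : MeasurableSet {p : X × Q | p.2 ∈ B2 p.1})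
    (h2 : ∀ x, ∀ S, S ∈ B1 x ∨ S ∈ B2 x → ∀ c ∈ D S, ∀ c' ∈ D S, κ c = κ c' → c = c')
    (hM0 : ∀ v, tst D Bad A c0 b univ (fun _ => ⟨0, hk⟩) v ≤ ζ + 1 / lam) :
    ∃ (T : Z → Fin k) (F : Set Z), Measurable T ∧ MeasurableSet F ∧
      (∀ v, ∑ S ∈ A v, c0 S * cp (D S) (Bad S) F T ≤ ζ + 1 / lam) ∧
      ∫⁻ x, ENNReal.ofReal (W * (∑ c ∈ Reg x, (if c ∈ F then 1 else 0) +
        ∑ S ∈ B1 x, cp (D S) (Bad S) F T) + ∑ S ∈ B2 x, cp (D S) (Bad S) F T) ∂μ ≤
      ∫⁻ x, ENNReal.ofReal (phi D Bad A c0 b Nt Nv iot lam ζ κ W Reg B1 B2 0 univ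
        (fun _ => ⟨0, hk⟩) x) ∂μ := by
  obtain ⟨P, hP⟩ : ∃ P : ℕ → Set Z → (Z → Fin k) → Prop, ∀ m U T, P m U T ↔
      (MeasurableSet U ∧ Measurable T ∧ (∀ c, m ≤ κ c → c ∈ U) ∧
        ∀ v, tst D Bad A c0 b U T v ≤ ζ + 1 / lam) := ⟨_, fun _ _ _ => Iff.rfl⟩
  have hstep : ∀ m U T, P m U T → ∀ i : Fin k,
      P (m + 1) (nxU D Bad A c0 b Nt Nv iot ζ κ m U T) (upT κ m i T) := by
    intro m U T h i
    rw [hP] at h ⊢
    obtain ⟨hU, hT, hUm, hM⟩ := h
    refine ⟨nxU_meas hk hD hloc hBm hA hc0m hbm hNt hNv hio hκ m hU hT, ?_, ?_, ?_⟩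
    · exact Measurable.ite (measurableSet_eq_fun hκ measurable_const) measurable_const hT
    · intro c hc
      exact nxU_ne (hUm c (by omega)) (by omega)
    · intro v
      exact (tst_step' hk hloc hc0 hb hlam hNtm hNvm hiot hUm (h1 v)).2.2 (hM v) i
  have hchoice : ∀ m U T, ∃ i : Fin k, P m U T →
      ∫⁻ x, ENNReal.ofReal (phi D Bad A c0 b Nt Nv iot lam ζ κ W Reg B1 B2 (m + 1)
        (nxU D Bad A c0 b Nt Nv iot ζ κ m U T) (upT κ m i T) x) ∂μ ≤
      ∫⁻ x, ENNReal.ofReal (phi D Bad A c0 b Nt Nv iot lam ζ κ W Reg B1 B2 m U T x) ∂μ := by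
    intro m U T
    by_cases h : P m U T
    · obtain ⟨i, hi⟩ := lint_choice hk μ (f := fun i x =>
        phi D Bad A c0 b Nt Nv iot lam ζ κ W Reg B1 B2 (m + 1)
          (nxU D Bad A c0 b Nt Nv iot ζ κ m U T) (upT κ m i T) x)
        (g := phi D Bad A c0 b Nt Nv iot lam ζ κ W Reg B1 B2 m U T)
        (fun i => by
          have h' := (hP _ _ _).1 (hstep m U T h i)
          exact phi_meas hk hD hloc hBm hA hc0m hbm hNt hNv hio hκ W hReg hB1 hB2 _ h'.1 h'.2.1)
        (fun i x => phi_nonneg hc0 hio0 hW _ _ _ _ _ _ _)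
        (fun x => phi_step hk hloc hc0 hb hio0 hlam hNtm hNvm hiot ((hP _ _ _).1 h).2.2.1 h1 hW
          Reg B1 B2 h2 x)
      exact ⟨i, fun _ => hi⟩
    · exact ⟨⟨0, hk⟩, fun h' => absurd h' h⟩
  choose g hg using hchoice
  obtain ⟨st, hst0, hst⟩ : ∃ st : ℕ → Set Z × (Z → Fin k), st 0 = (univ, fun _ => ⟨0, hk⟩) ∧
      ∀ m, st (m + 1) = (nxU D Bad A c0 b Nt Nv iot ζ κ m (st m).1 (st m).2,
        upT κ m (g m (st m).1 (st m).2) (st m).2) :=
    ⟨fun n => Nat.rec (univ, fun _ => ⟨0, hk⟩) (fun m s =>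
      (nxU D Bad A c0 b Nt Nv iot ζ κ m s.1 s.2, upT κ m (g m s.1 s.2) s.2)) n, rfl, fun _ => rfl⟩
  have hPm : ∀ m, P m (st m).1 (st m).2 := by
    intro m
    induction m with
    | zero =>
      rw [hst0, hP]
      exact ⟨MeasurableSet.univ, measurable_const, fun _ _ => mem_univ _, hM0⟩
    | succ m ih =>
      rw [hst]
      exact hstep m _ _ ih _
  have hint : ∀ m, ∫⁻ x, ENNReal.ofReal (phi D Bad A c0 b Nt Nv iot lam ζ κ W Reg B1 B2 m
      (st m).1 (st m).2 x) ∂μ ≤ ∫⁻ x, ENNReal.ofReal (phi D Bad A c0 b Nt Nv iot lam ζ κ W Reg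
        B1 B2 0 univ (fun _ => ⟨0, hk⟩) x) ∂μ := by
    intro m
    induction m with
    | zero => rw [hst0]
    | succ m ih =>
      refine le_trans ?_ ih
      rw [hst]
      exact hg m _ _ (hPm m)
  -- the limits
  obtain ⟨F, hF⟩ : ∃ F : Set Z, ∀ c, c ∈ F ↔ ∀ m, c ∈ (st m).1 :=
    ⟨⋂ m, (st m).1, fun c => mem_iInter⟩
  obtain ⟨T, hT⟩ : ∃ T : Z → Fin k, ∀ c, T c = (st (κ c + 1)).2 c := ⟨_, fun _ => rfl⟩
  have hFm : MeasurableSet F := by
    have : F = ⋂ m, (st m).1 := by ext c; rw [hF, mem_iInter]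
    rw [this]
    exact MeasurableSet.iInter fun m => ((hP _ _ _).1 (hPm m)).1
  have hTm : Measurable T := by
    refine measurable_glue (fun n : ℕ => {c | κ c = n})
      (fun n => measurableSet_eq_fun hκ measurable_const) (fun c => ⟨κ c, rfl⟩)
      (fun n => (st (n + 1)).2) (fun n => ((hP _ _ _).1 (hPm (n + 1))).2.1) _ ?_
    rintro n c hc
    simp only [mem_ofPred_eq] at hc
    rw [hT, hc]
  have hUst : ∀ m c, κ c < m → (c ∈ (st (m + 1)).1 ↔ c ∈ (st m).1) := by
    intro m c hc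
    rw [hst]
    exact ⟨fun h => nxU_sub h, fun h => nxU_ne h (by omega)⟩
  have hUmono : ∀ m n c, m ≤ n → c ∈ (st n).1 → c ∈ (st m).1 := by
    intro m n c hmn
    induction hmn with
    | refl => exact id
    | @step n _ ih =>
      intro h
      refine ih ?_
      rw [hst] at h
      exact nxU_sub h
  have hUF : ∀ m c, κ c < m → (c ∈ F ↔ c ∈ (st m).1) := by
    intro m c hc
    rw [hF]
    constructor
    · exact fun h => h m
    · intro h n
      by_cases hnm : n ≤ m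
      · exact hUmono n m c hnm h
      · have : ∀ j, c ∈ (st (m + j)).1 := by
          intro j
          induction j with
          | zero => exact h
          | succ j ih => exact (hUst (m + j) c (by omega)).2 ih
        have h3 := this (n - m)
        rwa [show m + (n - m) = n by omega] at h3
  have hTst : ∀ m c, κ c < m → T c = (st m).2 c := by
    intro m c hc
    rw [hT]
    have : ∀ j, (st (κ c + 1 + j)).2 c = (st (κ c + 1)).2 c := by
      intro j
      induction j with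
      | zero => rfl
      | succ j ih =>
        rw [← ih, ← Nat.add_assoc, hst]
        simp only [upT]
        rw [if_neg (by omega)]
    have h3 := this (m - (κ c + 1))
    rw [show κ c + 1 + (m - (κ c + 1)) = m by omega] at h3
    exact h3.symm
  have hcp : ∀ m S, (∀ c ∈ D S, κ c < m) →
      cp (D S) (Bad S) F T = cp (D S) (Bad S) (st m).1 (st m).2 := by
    intro m S hm
    exact cp_step0 (hloc S) (fun c hc => hUF m c (hm c hc)) fun c hc _ => hTst m c (hm c hc)
  refine ⟨T, F, hTm, hFm, ?_, ?_⟩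
  · intro v
    obtain ⟨m, hm⟩ : ∃ m, ∀ S ∈ A v, ∀ c ∈ D S, κ c < m :=
      ⟨(A v).sup fun S => (D S).sup fun c => κ c + 1, fun S hS c hc =>
        lt_of_lt_of_le (Nat.lt_succ_self _) (le_trans (Finset.le_sup (f := fun c => κ c + 1) hc)
          (Finset.le_sup (f := fun S => (D S).sup fun c => κ c + 1) hS))⟩
    refine le_trans (Finset.sum_le_sum fun S hS => ?_) (((hP _ _ _).1 (hPm m)).2.2.2 v)
    rw [hcp m S (hm S hS)]
    refine mul_le_mul_of_nonneg_right ?_ (cp_nonneg _ _ _ _)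
    unfold wgt
    refine le_mul_of_one_le_right (hc0 S) ?_
    have : ∀ J : Finset Z, 1 ≤ ∏ c ∈ J, (if c ∈ (st m).1 then Real.exp (b c) else 1) := by
      intro J
      induction J using Finset.induction_on with
      | empty => simp
      | @insert a J ha ih =>
        rw [Finset.prod_insert ha]
        refine one_le_mul_of_one_le_of_one_le ?_ ih
        split_ifs
        · exact Real.one_le_exp (hb a)
        · exact le_rfl
    exact this _
  · have hev : ∀ x, ∀ᶠ m in atTop, ENNReal.ofReal (phi D Bad A c0 b Nt Nv iot lam ζ κ W Reg B1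
        B2 m (st m).1 (st m).2 x) = ENNReal.ofReal (W * (∑ c ∈ Reg x, (if c ∈ F then 1 else 0) +
        ∑ S ∈ B1 x, cp (D S) (Bad S) F T) + ∑ S ∈ B2 x, cp (D S) (Bad S) F T) := by
      intro x
      obtain ⟨m₀, hm₀⟩ : ∃ m, (∀ c ∈ Reg x, κ c < m) ∧ (∀ S ∈ B1 x, ∀ c ∈ D S, κ c < m) ∧
          ∀ S ∈ B2 x, ∀ c ∈ D S, κ c < m := by
        refine ⟨max ((Reg x).sup fun c => κ c + 1)
          (max ((B1 x).sup fun S => (D S).sup fun c => κ c + 1)
            ((B2 x).sup fun S => (D S).sup fun c => κ c + 1)), ?_, ?_, ?_⟩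
        · intro c hc
          exact lt_of_lt_of_le (Nat.lt_succ_self _)
            ((Finset.le_sup (f := fun c => κ c + 1) hc).trans (le_max_left _ _))
        · intro S hS c hc
          exact lt_of_lt_of_le (Nat.lt_succ_self _)
            (((Finset.le_sup (f := fun c => κ c + 1) hc).trans
              (Finset.le_sup (f := fun S => (D S).sup fun c => κ c + 1) hS)).trans
              ((le_max_left _ _).trans (le_max_right _ _)))
        · intro S hS c hc
          exact lt_of_lt_of_le (Nat.lt_succ_self _)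
            (((Finset.le_sup (f := fun c => κ c + 1) hc).trans
              (Finset.le_sup (f := fun S => (D S).sup fun c => κ c + 1) hS)).trans
              ((le_max_right _ _).trans (le_max_right _ _)))
      refine eventually_atTop.2 ⟨m₀, fun m hm => ?_⟩
      congr 1
      unfold phi
      congr 1
      · congr 2
        · refine Finset.sum_congr rfl fun c hc => ?_
          have h3 : κ c < m := lt_of_lt_of_le (hm₀.1 c hc) hm
          unfold th
          rw [if_neg (by omega)]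
          exact if_congr (hUF m c h3).symm rfl rfl
        · refine Finset.sum_congr rfl fun S hS => ?_
          exact (hcp m S fun c hc => lt_of_lt_of_le (hm₀.2.1 S hS c hc) hm).symm
      · refine Finset.sum_congr rfl fun S hS => ?_
        exact (hcp m S fun c hc => lt_of_lt_of_le (hm₀.2.2 S hS c hc) hm).symm
    have hlim : ∀ x, liminf (fun m => ENNReal.ofReal (phi D Bad A c0 b Nt Nv iot lam ζ κ W Reg B1
        B2 m (st m).1 (st m).2 x)) atTop = ENNReal.ofReal (W * (∑ c ∈ Reg x,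
        (if c ∈ F then 1 else 0) + ∑ S ∈ B1 x, cp (D S) (Bad S) F T) +
        ∑ S ∈ B2 x, cp (D S) (Bad S) F T) := by
      intro x
      exact (tendsto_const_nhds.congr' ((hev x).mono fun m hm => hm.symm)).liminf_eq
    calc _ = ∫⁻ x, liminf (fun m => ENNReal.ofReal (phi D Bad A c0 b Nt Nv iot lam ζ κ W Reg B1
        B2 m (st m).1 (st m).2 x)) atTop ∂μ := by
          refine lintegral_congr fun x => ?_
          rw [hlim x]
      _ ≤ liminf (fun m => ∫⁻ x, ENNReal.ofReal (phi D Bad A c0 b Nt Nv iot lam ζ κ W Reg B1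
        B2 m (st m).1 (st m).2 x) ∂μ) atTop := by
          refine lintegral_liminf_le fun m => ?_
          have h' := (hP _ _ _).1 (hPm m)
          exact (phi_meas hk hD hloc hBm hA hc0m hbm hNt hNv hio hκ W hReg hB1 hB2 _
            h'.1 h'.2.1).ennreal_ofReal
      _ ≤ _ := by
          refine liminf_le_of_le ?_ ?_
          · isBoundedDefault
          · intro a ha
            obtain ⟨m, hm⟩ := ha.exists
            exact hm.trans (hint m)

end meas

end Pool.Agent.Helper105
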