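import Mathlib
import Pool.Agent.Helper105_Sub.Run
import Pool.Agent.Helper105_Sub.Ball
import Pool.Agent.Helper105_Sub.Lay

set_option autoImplicit false

namespace Pool.Agent.Helper105

open MeasureTheory Set
open scoped Classical

section comb
variable {X V : Type*} {k : ℕ} (dm : V → Finset X) (viol : V → (X → Fin k) → Prop) (𝓑 : Set V)
  (c : V → ℕ) (χ : ℕ)

/-- rows of the run with `χ` colours. -/
noncomputable def rw (T : X × ℕ → Fin k) : ℕ → X → ℕ
  | 0 => fun _ => 0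
  | t + 1 => fun x => rw T t x +
      if ∃ v, (v ∈ 𝓑 ∧ x ∈ dm v) ∧ c v = t % χ ∧
        viol v (fun y => T (y, rw T t y)) then 1 else 0

/-- the assignment at time `t`. -/
noncomputable def stt (T : X × ℕ → Fin k) (t : ℕ) : X → Fin k :=
  fun y => T (y, rw dm viol 𝓑 c χ T t y)

/-- the events resampled at time `t` that touch `A`. -/
noncomputable def evs (T : X × ℕ → Fin k) (t : ℕ) (A : Finset X) : Finset V :=
  if h : {u | (u ∈ 𝓑 ∧ c u = t % χ ∧ viol u (stt dm viol 𝓑 c χ T t)) ∧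
    ∃ x ∈ A, x ∈ dm u}.Finite then h.toFinset else ∅

/-- the log of the run before time `t`, seen from `A`. -/
noncomputable def logf (T : X × ℕ → Fin k) : ℕ → Finset X → List V
  | 0 => fun _ => []
  | t + 1 => fun A => logf T t (A ∪ (evs dm viol 𝓑 c χ T t A).biUnion dm) ++
      (evs dm viol 𝓑 c χ T t A).toList

/-- every member satisfies `K` or meets a later one. -/
def Cls (K : V → Prop) : List V → Prop
  | [] => True
  | w :: l => (K w ∨ ∃ u ∈ l, meets dm w u) ∧ Cls K l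

variable {dm viol 𝓑 c χ}

theorem rw_succ (T : X × ℕ → Fin k) (t : ℕ) (x : X) : rw dm viol 𝓑 c χ T (t + 1) x =
    rw dm viol 𝓑 c χ T t x + if ∃ v, (v ∈ 𝓑 ∧ x ∈ dm v) ∧ c v = t % χ ∧
        viol v (stt dm viol 𝓑 c χ T t) then 1 else 0 := rfl

theorem logf_succ (T : X × ℕ → Fin k) (t : ℕ) (A : Finset X) :
    logf dm viol 𝓑 c χ T (t + 1) A =
      logf dm viol 𝓑 c χ T t (A ∪ (evs dm viol 𝓑 c χ T t A).biUnion dm) ++
      (evs dm viol 𝓑 c χ T t A).toList := rfl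

theorem rw_le (T : X × ℕ → Fin k) (t : ℕ) (x : X) : rw dm viol 𝓑 c χ T t x ≤ t := by
  induction t with
  | zero => exact le_rfl
  | succ t ih =>
    rw [rw_succ]
    split_ifs <;> omega

theorem rw_mono (T : X × ℕ → Fin k) {t t' : ℕ} (h : t ≤ t') (x : X) :
    rw dm viol 𝓑 c χ T t x ≤ rw dm viol 𝓑 c χ T t' x := by
  induction h with
  | refl => exact le_rfl
  | step _ ih =>
    rw [rw_succ]
    omega

theorem rw_change (T : X × ℕ → Fin k) {t t' : ℕ} (h : t ≤ t') (x : X)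
    (hne : rw dm viol 𝓑 c χ T t' x ≠ rw dm viol 𝓑 c χ T t x) :
    ∃ τ, t ≤ τ ∧ τ < t' ∧ ∃ u ∈ 𝓑, x ∈ dm u ∧ c u = τ % χ ∧ viol u (stt dm viol 𝓑 c χ T τ) := by
  induction h with
  | refl => exact absurd rfl hne
  | @step n hn ih =>
    by_cases h1 : rw dm viol 𝓑 c χ T n x = rw dm viol 𝓑 c χ T t x
    · rw [rw_succ] at hne
      by_cases h2 : ∃ v, (v ∈ 𝓑 ∧ x ∈ dm v) ∧ c v = n % χ ∧ viol v (stt dm viol 𝓑 c χ T n)
      · obtain ⟨v, ⟨h3, h4⟩, h5, h6⟩ := h2
        exact ⟨n, hn, Nat.lt_succ_self _, v, h3, h4, h5, h6⟩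
      · rw [if_neg h2] at hne
        exact absurd h1 (by simpa using hne)
    · obtain ⟨τ, h2, h3, h4⟩ := ih h1
      exact ⟨τ, h2, h3.trans (Nat.lt_succ_self _), h4⟩

theorem mem_evs (hfin : ∀ x, {v | v ∈ 𝓑 ∧ x ∈ dm v}.Finite) {T : X × ℕ → Fin k} {t : ℕ}
    {A : Finset X} {u : V} : u ∈ evs dm viol 𝓑 c χ T t A ↔
      (u ∈ 𝓑 ∧ c u = t % χ ∧ viol u (stt dm viol 𝓑 c χ T t)) ∧ ∃ x ∈ A, x ∈ dm u := by
  have h : {u | (u ∈ 𝓑 ∧ c u = t % χ ∧ viol u (stt dm viol 𝓑 c χ T t)) ∧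
      ∃ x ∈ A, x ∈ dm u}.Finite := by
    refine (A.finite_toSet.biUnion (t := fun x => {v | v ∈ 𝓑 ∧ x ∈ dm v})
      fun x _ => hfin x).subset ?_
    rintro u ⟨h1, x, h2, h3⟩
    simp only [mem_iUnion]
    exact ⟨x, h2, h1.1, h3⟩
  unfold evs
  rw [dif_pos h, Finite.mem_toFinset]
  rfl

theorem cls_append {K K' : V → Prop} {l₁ l₂ : List V} (h₁ : Cls dm K' l₁)
    (h : ∀ w, K' w → K w ∨ ∃ u ∈ l₂, meets dm w u) (h₂ : Cls dm K l₂) : Cls dm K (l₁ ++ l₂) := by
  induction l₁ with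
  | nil => exact h₂
  | cons w l ih =>
    refine ⟨?_, ih h₁.2⟩
    rcases h₁.1 with hw | ⟨u, hu, hm⟩
    · rcases h w hw with h3 | ⟨u, hu, hm⟩
      · exact Or.inl h3
      · exact Or.inr ⟨u, List.mem_append_right _ hu, hm⟩
    · exact Or.inr ⟨u, List.mem_append_left _ hu, hm⟩

theorem cls_all {K : V → Prop} {l : List V} (h : ∀ w ∈ l, K w) : Cls dm K l := by
  induction l with
  | nil => trivial
  | cons w l ih => exact ⟨Or.inl (h w (by simp)), ih fun u hu => h u (List.mem_cons_of_mem _ hu)⟩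

theorem cls_pyr {v : V} {l : List V} (h : Cls dm (fun w => meets dm w v) l) :
    Pyr dm v (l ++ [v]) := by
  induction l with
  | nil => exact Or.inl ⟨rfl, rfl⟩
  | cons w l ih =>
    refine Or.inr ⟨ih h.2, ?_⟩
    rcases h.1 with h1 | ⟨u, hu, hm⟩
    · exact ⟨v, by simp, h1⟩
    · exact ⟨u, List.mem_append_left _ hu, hm⟩

section
variable (hloc : ∀ v f g, (∀ x ∈ dm v, f x = g x) → (viol v f ↔ viol v g))
  (hfin : ∀ x, {v | v ∈ 𝓑 ∧ x ∈ dm v}.Finite)
include hfin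

theorem logf_mem (T : X × ℕ → Fin k) (t : ℕ) (A : Finset X) :
    ∀ u ∈ logf dm viol 𝓑 c χ T t A, u ∈ 𝓑 := by
  induction t generalizing A with
  | zero => intro u hu; simp [logf] at hu
  | succ t ih =>
    intro u hu
    rw [logf, List.mem_append] at hu
    rcases hu with hu | hu
    · exact ih _ u hu
    · rw [Finset.mem_toList, mem_evs hfin] at hu
      exact hu.1.1

theorem evs_pw (hc : ∀ u ∈ 𝓑, ∀ v ∈ 𝓑, u ≠ v → meets dm u v → c u ≠ c v)
    (T : X × ℕ → Fin k) (t : ℕ) (A : Finset X) :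
    (evs dm viol 𝓑 c χ T t A).toList.Pairwise fun u w => ¬ meets dm u w := by
  refine List.Pairwise.imp_of_mem ?_ (Finset.nodup_toList _)
  intro u w hu hw hne hm
  rw [Finset.mem_toList, mem_evs hfin] at hu hw
  exact hc u hu.1.1 w hw.1.1 hne hm (hu.1.2.1.trans hw.1.2.1.symm)

theorem logf_cl (T : X × ℕ → Fin k) (t : ℕ) (A : Finset X) :
    Cls dm (fun w => ∃ x ∈ A, x ∈ dm w) (logf dm viol 𝓑 c χ T t A) := by
  induction t generalizing A with
  | zero => trivial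
  | succ t ih =>
    rw [logf]
    refine cls_append (ih _) ?_ (cls_all fun w hw => ?_)
    · rintro w ⟨x, hx, hxw⟩
      rw [Finset.mem_union, Finset.mem_biUnion] at hx
      rcases hx with hx | ⟨u, hu, hxu⟩
      · exact Or.inl ⟨x, hx, hxw⟩
      · exact Or.inr ⟨u, Finset.mem_toList.2 hu, x, hxw, hxu⟩
    · rw [Finset.mem_toList, mem_evs hfin] at hw
      exact hw.2

theorem logf_bl (hne : ∀ v ∈ 𝓑, (dm v).Nonempty) (T : X × ℕ → Fin k) (t : ℕ) (A : Finset X) :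
    ∀ u ∈ logf dm viol 𝓑 c χ T t A, ∃ w ∈ 𝓑, (∃ x ∈ A, x ∈ dm w) ∧ Bl dm 𝓑 t w u := by
  induction t generalizing A with
  | zero => intro u hu; simp [logf] at hu
  | succ t ih =>
    intro u hu
    rw [logf, List.mem_append] at hu
    rcases hu with hu | hu
    · obtain ⟨w, hw, ⟨x, hx, hxw⟩, hb⟩ := ih _ u hu
      rw [Finset.mem_union, Finset.mem_biUnion] at hx
      rcases hx with hx | ⟨e, he, hxe⟩
      · exact ⟨w, hw, ⟨x, hx, hxw⟩, bl_mono hne (Nat.le_succ _) hw hb⟩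
      · rw [mem_evs hfin] at he
        have := bl_trans (bl_one hw ⟨x, hxw, hxe⟩ : Bl dm 𝓑 1 e w) hb
        rw [Nat.add_comm] at this
        exact ⟨e, he.1.1, he.2, this⟩
    · rw [Finset.mem_toList, mem_evs hfin] at hu
      exact ⟨u, hu.1.1, hu.2, bl_mono hne (Nat.zero_le _) hu.1.1 rfl⟩

theorem logf_cnt_le (hc : ∀ u ∈ 𝓑, ∀ v ∈ 𝓑, u ≠ v → meets dm u v → c u ≠ c v)
    (T : X × ℕ → Fin k) (t : ℕ) (A : Finset X) (z : X) :
    cnt' dm (logf dm viol 𝓑 c χ T t A) z ≤ t := by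
  induction t generalizing A with
  | zero => simp [logf, cnt']
  | succ t ih =>
    rw [logf, cnt_append, cnt_disjoint (evs_pw hfin hc T t A)]
    have := ih (A ∪ (evs dm viol 𝓑 c χ T t A).biUnion dm)
    split_ifs <;> omega

theorem logf_rows (hc : ∀ u ∈ 𝓑, ∀ v ∈ 𝓑, u ≠ v → meets dm u v → c u ≠ c v)
    (T : X × ℕ → Fin k) (t : ℕ) (A : Finset X) :
    ∀ x ∈ A, cnt' dm (logf dm viol 𝓑 c χ T t A) x = rw dm viol 𝓑 c χ T t x := by
  induction t generalizing A with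
  | zero => intro x _; simp [logf, cnt', rw]
  | succ t ih =>
    intro x hx
    rw [logf, cnt_append, ih _ x (Finset.mem_union_left _ hx),
      cnt_disjoint (evs_pw hfin hc T t A), rw_succ]
    congr 1
    refine if_congr ?_ rfl rfl
    constructor
    · rintro ⟨u, hu, hxu⟩
      rw [Finset.mem_toList, mem_evs hfin] at hu
      exact ⟨u, ⟨hu.1.1, hxu⟩, hu.1.2⟩
    · rintro ⟨v, ⟨hv1, hv2⟩, hv3⟩
      refine ⟨v, ?_, hv2⟩
      rw [Finset.mem_toList, mem_evs hfin]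
      exact ⟨⟨hv1, hv3⟩, x, hx, hv2⟩

include hloc in
theorem logf_cons (hc : ∀ u ∈ 𝓑, ∀ v ∈ 𝓑, u ≠ v → meets dm u v → c u ≠ c v)
    (T : X × ℕ → Fin k) (t : ℕ) (A : Finset X) :
    Cons dm viol (logf dm viol 𝓑 c χ T t A) T := by
  induction t generalizing A with
  | zero => simp [logf, Cons]
  | succ t ih =>
    rw [logf, cons_append]
    refine ⟨ih _, cons_disjoint hloc (evs_pw hfin hc T t A) fun u hu => ?_⟩
    rw [Finset.mem_toList] at hu
    refine (hloc u (stt dm viol 𝓑 c χ T t) _ fun x hx => ?_).1 ((mem_evs hfin).1 hu).1.2.2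
    simp only [shl, zero_add, stt]
    rw [logf_rows hfin hc T t _ x (Finset.mem_union_right _ (Finset.mem_biUnion.2 ⟨u, hu, hx⟩))]

theorem logf_mono (T : X × ℕ → Fin k) (t : ℕ) {A A' : Finset X} (h : A ⊆ A') :
    (logf dm viol 𝓑 c χ T t A).length ≤ (logf dm viol 𝓑 c χ T t A').length := by
  induction t generalizing A A' with
  | zero => simp [logf]
  | succ t ih =>
    have he : evs dm viol 𝓑 c χ T t A ⊆ evs dm viol 𝓑 c χ T t A' := by
      intro u hu
      rw [mem_evs hfin] at hu ⊢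
      obtain ⟨h1, x, h2, h3⟩ := hu
      exact ⟨h1, x, h h2, h3⟩
    rw [logf_succ, logf_succ, List.length_append, List.length_append, Finset.length_toList,
      Finset.length_toList]
    exact Nat.add_le_add (ih (Finset.union_subset_union h (Finset.biUnion_subset_biUnion_of_subset_left _ he)))
      (Finset.card_le_card he)

theorem logf_succ_le (T : X × ℕ → Fin k) (t : ℕ) (A : Finset X) :
    (logf dm viol 𝓑 c χ T t A).length ≤ (logf dm viol 𝓑 c χ T (t + 1) A).length := by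
  rw [logf_succ, List.length_append]
  exact (logf_mono hfin T t Finset.subset_union_left).trans (Nat.le_add_right _ _)

theorem logf_time (T : X × ℕ → Fin k) {t t' : ℕ} (h : t ≤ t') (A : Finset X) :
    (logf dm viol 𝓑 c χ T t A).length ≤ (logf dm viol 𝓑 c χ T t' A).length := by
  induction h with
  | refl => exact le_rfl
  | step _ ih => exact ih.trans (logf_succ_le hfin T _ A)

theorem logf_ev (T : X × ℕ → Fin k) {t : ℕ} {A : Finset X} {u : V} (hu : u ∈ 𝓑)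
    (hcu : c u = t % χ) (hv : viol u (stt dm viol 𝓑 c χ T t)) (hA : ∃ x ∈ A, x ∈ dm u) :
    (logf dm viol 𝓑 c χ T t (dm u)).length + 1 ≤
      (logf dm viol 𝓑 c χ T (t + 1) A).length := by
  have he : u ∈ evs dm viol 𝓑 c χ T t A := (mem_evs hfin).2 ⟨⟨hu, hcu, hv⟩, hA⟩
  rw [logf_succ, List.length_append, Finset.length_toList]
  refine Nat.add_le_add (logf_mono hfin T t fun x hx => ?_) (Finset.card_pos.2 ⟨u, he⟩)
  exact Finset.mem_union_right _ (Finset.mem_biUnion.2 ⟨u, he, hx⟩)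

include hloc in
/-- an event violated late has a long log. -/
theorem logf_size (hχ : 0 < χ) (hcχ : ∀ v ∈ 𝓑, c v < χ) (hne : ∀ v ∈ 𝓑, (dm v).Nonempty)
    (T : X × ℕ → Fin k) (ρ : ℕ) :
    ∀ t, χ * ρ ≤ t → ∀ v ∈ 𝓑, viol v (stt dm viol 𝓑 c χ T t) →
      ρ ≤ (logf dm viol 𝓑 c χ T t (dm v)).length := by
  induction ρ with
  | zero => intro t _ v _ _; exact Nat.zero_le _
  | succ ρ ih =>
    intro t ht v hv hviol
    have ht' : χ * ρ + χ ≤ t := by rw [← Nat.mul_succ]; exact ht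
    -- the last treatment of the colour of `v`
    obtain ⟨t₁, h1, h2, h3⟩ : ∃ t₁, χ * ρ ≤ t₁ ∧ t₁ < t ∧ t₁ % χ = c v := by
      have hq := Nat.div_add_mod (t - χ) χ
      have hr := Nat.mod_lt (t - χ) hχ
      have hcv := hcχ v hv
      obtain ⟨r, hr'⟩ : ∃ r, r = (t - χ) % χ := ⟨_, rfl⟩
      obtain ⟨q, hq'⟩ : ∃ q, q = (t - χ) / χ := ⟨_, rfl⟩
      rw [← hr', ← hq'] at hq
      rw [← hr'] at hr
      by_cases hle : r ≤ c v
      · refine ⟨χ * q + c v, ?_, ?_, ?_⟩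
        · omega
        · omega
        · rw [Nat.mul_add_mod, Nat.mod_eq_of_lt hcv]
      · refine ⟨χ * (q + 1) + c v, ?_, ?_, ?_⟩
        · rw [Nat.mul_succ]; omega
        · rw [Nat.mul_succ]; omega
        · rw [Nat.mul_add_mod, Nat.mod_eq_of_lt hcv]
    by_cases hv1 : viol v (stt dm viol 𝓑 c χ T t₁)
    · have h4 := ih t₁ h1 v hv hv1
      obtain ⟨x, hx⟩ := hne v hv
      have h5 := logf_ev (A := dm v) hfin T hv h3.symm hv1 ⟨x, hx, hx⟩
      have h6 := logf_time (c := c) (χ := χ) (viol := viol) hfin T (show t₁ + 1 ≤ t from h2) (dm v)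
      omega
    · have h4 : ∃ x ∈ dm v, rw dm viol 𝓑 c χ T t x ≠ rw dm viol 𝓑 c χ T t₁ x := by
        by_contra hcon
        push Not at hcon
        refine hv1 ((hloc v _ _ fun x hx => ?_).1 hviol)
        simp only [stt, hcon x hx]
      obtain ⟨x, hx, hxne⟩ := h4
      obtain ⟨τ, h5, h6, u, hu, hxu, hcu, hvu⟩ := rw_change T h2.le x hxne
      have h7 := ih τ (h1.trans h5) u hu hvu
      have h8 := logf_ev (A := dm v) hfin T hu hcu hvu ⟨x, hx, hxu⟩
      have h9 := logf_time (c := c) (χ := χ) (viol := viol) hfin T (show τ + 1 ≤ t from h6) (dm v)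
      omega

end

end comb

end Pool.Agent.Helper105
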