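import Mathlib
import Pool.Agent.Helper105_All.Run

set_option autoImplicit false

namespace Pool.Agent.Helper105

open MeasureTheory Set
open scoped Classical

section comb
variable {X V : Type*} {k : ℕ} {dm : V → Finset X} {viol : V → (X → Fin k) → Prop} {𝓑 : Set V}
  {c : V → ℕ} {χ : ℕ}

theorem lay_append {l₁ l₂ : List V} {h : ℕ} (hh : ∀ q ∈ Lay dm l₂, q.1 < h) :
    ∀ q ∈ Lay dm (l₁ ++ l₂), q ∈ Lay dm l₂ ∨ ∃ j, (j, q.2) ∈ Lay dm l₁ ∧ q.1 ≤ j + h := by
  induction l₁ with
  | nil => intro q hq; exact Or.inl hq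
  | cons w l ih =>
    intro q hq
    rw [List.cons_append, Lay, Finset.mem_insert] at hq
    rcases hq with hq | hq
    · right
      refine ⟨((Lay dm l).filter (fun q => meets dm w q.2)).sup (fun q => q.1 + 1), ?_, ?_⟩
      · rw [hq, Lay]
        exact Finset.mem_insert_self _ _
      · rw [hq]
        simp only
        refine Finset.sup_le fun q' hq' => ?_
        rw [Finset.mem_filter] at hq'
        rcases ih q' hq'.1 with h1 | ⟨j, h1, h2⟩
        · have := hh q' h1
          omega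
        · have := lay_lt h1 (show meets dm w ((j, q'.2) : ℕ × V).2 from hq'.2)
          simp only at this
          omega
    · rcases ih q hq with h1 | ⟨j, h1, h2⟩
      · exact Or.inl h1
      · right
        refine ⟨j, ?_, h2⟩
        rw [Lay]
        exact Finset.mem_insert_of_mem h1

theorem lay_pw {l : List V} (hl : l.Pairwise fun u w => ¬ meets dm u w) :
    ∀ q ∈ Lay dm l, q.1 < 1 := by
  induction l with
  | nil => intro q hq; simp [Lay] at hq
  | cons w l ih =>
    rw [List.pairwise_cons] at hl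
    intro q hq
    rw [Lay, Finset.mem_insert] at hq
    rcases hq with hq | hq
    · rw [hq]
      have : (Lay dm l).filter (fun q => meets dm w q.2) = ∅ := by
        rw [Finset.filter_eq_empty_iff]
        intro q' hq' hm
        exact hl.1 _ (lay_mem hq') hm
      rw [this]
      simp
    · exact ih hl.2 q hq

theorem logf_lay (hfin : ∀ x, {v | v ∈ 𝓑 ∧ x ∈ dm v}.Finite)
    (hc : ∀ u ∈ 𝓑, ∀ v ∈ 𝓑, u ≠ v → meets dm u v → c u ≠ c v)
    (T : X × ℕ → Fin k) (t : ℕ) (A : Finset X) :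
    ∀ q ∈ Lay dm (logf dm viol 𝓑 c χ T t A), q.1 < t := by
  induction t generalizing A with
  | zero => intro q hq; simp [logf, Lay] at hq
  | succ t ih =>
    intro q hq
    rw [logf_succ] at hq
    have h0 := lay_pw (dm := dm) (evs_pw (viol := viol) (χ := χ) hfin hc T t A)
    rcases lay_append h0 q hq with h1 | ⟨j, h1, h2⟩
    · have := h0 q h1
      omega
    · have := ih _ _ h1
      simp only at this
      omega

theorem lay_last {l : List V} {a : V} : ∀ q ∈ Lay dm (l ++ [a]), q = (0, a) ∨ q.2 ∈ l := by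
  induction l with
  | nil =>
    intro q hq
    simp only [List.nil_append, Lay, Finset.filter_empty, Finset.sup_empty,
      Finset.mem_insert, Finset.notMem_empty, or_false] at hq
    exact Or.inl hq
  | cons w l ih =>
    intro q hq
    rw [List.cons_append, Lay, Finset.mem_insert] at hq
    rcases hq with hq | hq
    · right; rw [hq]; simp
    · rcases ih q hq with h | h
      · exact Or.inl h
      · exact Or.inr (List.mem_cons_of_mem _ h)

/-- the pyramid of an event that holds at time `t`. -/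
theorem run_pyr (hloc : ∀ v f g, (∀ x ∈ dm v, f x = g x) → (viol v f ↔ viol v g))
    (hfin : ∀ x, {v | v ∈ 𝓑 ∧ x ∈ dm v}.Finite) (hne : ∀ v ∈ 𝓑, (dm v).Nonempty)
    (hc : ∀ u ∈ 𝓑, ∀ v ∈ 𝓑, u ≠ v → meets dm u v → c u ≠ c v) (T : X × ℕ → Fin k) (t : ℕ)
    {a : V} (ha : viol a (stt dm viol 𝓑 c χ T t)) :
    ∃ l : List V, (∀ u ∈ l, u ∈ 𝓑) ∧ Pyr dm a (l ++ [a]) ∧ Cons dm viol (l ++ [a]) T ∧
      (∀ u ∈ l, ∃ w ∈ 𝓑, meets dm w a ∧ Bl dm 𝓑 t w u) ∧
      (∀ z, cnt' dm (l ++ [a]) z ≤ t + 1) ∧ (∀ q ∈ Lay dm (l ++ [a]), q.1 ≤ t) ∧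
      l.length = (logf dm viol 𝓑 c χ T t (dm a)).length := by
  refine ⟨logf dm viol 𝓑 c χ T t (dm a), logf_mem hfin T t _, cls_pyr ?_, ?_, ?_, ?_, ?_, rfl⟩
  · have h := logf_cl (viol := viol) (c := c) (χ := χ) hfin T t (dm a)
    have e : (fun w => ∃ x ∈ dm a, x ∈ dm w) = fun w => meets dm w a := by
      funext w
      exact propext ⟨fun ⟨x, h1, h2⟩ => ⟨x, h2, h1⟩, fun ⟨x, h1, h2⟩ => ⟨x, h2, h1⟩⟩
    rw [e] at h
    exact h
  · rw [cons_append]
    refine ⟨logf_cons hloc hfin hc T t _, ?_, trivial⟩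
    refine (hloc a _ _ fun x hx => ?_).1 ha
    simp only [shl, zero_add, stt, logf_rows hfin hc T t _ x hx]
  · intro u hu
    obtain ⟨w, hw, ⟨x, hx, hxw⟩, hb⟩ := logf_bl hfin hne T t (dm a) u hu
    exact ⟨w, hw, ⟨x, hxw, hx⟩, hb⟩
  · intro z
    rw [cnt_append]
    have h1 := logf_cnt_le (viol := viol) (χ := χ) hfin hc T t (dm a) z
    have h2 := cnt_le (dm := dm) [a] z
    simp only [List.length_singleton] at h2
    omega
  · intro q hq
    have h0 : ∀ q ∈ Lay dm ([a] : List V), q.1 < 1 := lay_pw (List.pairwise_singleton _ _)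
    rcases lay_append h0 q hq with h1 | ⟨j, h1, h2⟩
    · have := h0 q h1
      omega
    · have := logf_lay (viol := viol) (χ := χ) hfin hc T t (dm a) _ h1
      simp only at this
      omega

theorem cnt_sublist {l l' : List V} (h : l'.Sublist l) (z : X) :
    cnt' dm l' z ≤ cnt' dm l z := by
  induction h with
  | slnil => exact le_rfl
  | cons w _ ih => simp only [cnt']; omega
  | cons_cons w _ ih => simp only [cnt']; omega

/-- a large legal pyramid contains one whose size lies in the window. -/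
theorem window_sub (hloc : ∀ v f g, (∀ x ∈ dm v, f x = g x) → (viol v f ↔ viol v g))
    (hne : ∀ v ∈ 𝓑, (dm v).Nonempty) {d N : ℕ} (hN16 : 16 ≤ N)
    (hdeg : ∀ v ∈ 𝓑, ∃ U : Finset V, U.card ≤ d + 1 ∧ ∀ w ∈ 𝓑, meets dm w v → w ∈ U)
    {T : X × ℕ → Fin k} :
    ∀ (n : ℕ) (v : V) (l : List V), l.length = n → Pyr dm v l → (∀ u ∈ l, u ∈ 𝓑) →
      Cons dm viol l T → N ≤ 5 * (d + 1) * l.length →
      ∃ v' l', List.Sublist l' l ∧ Pyr dm v' l' ∧ Cons dm viol l' T ∧
        N ≤ 5 * (d + 1) * l'.length ∧ 4 * l'.length ≤ N := by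
  intro n
  induction n using Nat.strong_induction_on with
  | _ n ih =>
    intro v l hln hP hB hC hNl
    by_cases h4 : 4 * l.length ≤ N
    · exact ⟨v, l, List.Sublist.refl _, hP, hC, hNl, h4⟩
    · obtain ⟨l', rfl, hl'⟩ := pyr_split hP
      have hvB : v ∈ 𝓑 := hB v (by simp)
      obtain ⟨U, hU1, hU2⟩ := hdeg v hvB
      have hB' : ∀ u ∈ l', u ∈ 𝓑 := fun u hu => hB u (by simp [hu])
      have hC' := ((cons_append _ _ _).1 hC).1
      have hlen : (l' ++ [v]).length = l'.length + 1 := by simp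
      rw [hlen] at hNl h4 hln
      obtain ⟨U', hU'⟩ : ∃ U' : Finset V, U' = U.filter (· ∈ 𝓑) := ⟨_, rfl⟩
      by_cases hex : ∃ i ∈ U', N ≤ 5 * (d + 1) * (past dm (· = i) l').length
      · obtain ⟨i, hi, hNi⟩ := hex
        rw [hU', Finset.mem_filter] at hi
        have he : past dm (· = i) l' ≠ [] := by
          intro he
          rw [he] at hNi
          simp only [List.length_nil, Nat.mul_zero] at hNi
          omega
        have h2 : (past dm (· = i) l').length ≤ l'.length := (past_sub _ _).length_le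
        obtain ⟨v'', l'', h5, h6, h7, h8⟩ := ih (past dm (· = i) l').length (by omega) i _ rfl
          (past_pyr (hne i hi.2) he) (fun u hu => hB' u ((past_sub _ _).subset hu))
          (cons_past hloc hC') hNi
        exact ⟨v'', l'', h5.trans ((past_sub _ _).trans (List.sublist_append_left _ _)), h6, h7, h8⟩
      · exfalso
        push Not at hex
        have hu := (past_union (dm := dm) U' (fun w => meets dm w v) l'
          (fun w hw h => by
            rw [hU', Finset.mem_filter]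
            exact ⟨hU2 w (hB' w hw) h, hB' w hw⟩)).1
        rw [hl'] at hu
        have hU'c : U'.card ≤ d + 1 := by
          rw [hU']
          exact (Finset.card_filter_le _ _).trans hU1
        have hsum : 5 * (d + 1) * l'.length ≤ (d + 1) * N := by
          calc 5 * (d + 1) * l'.length
              ≤ 5 * (d + 1) * ∑ i ∈ U', (past dm (· = i) l').length := Nat.mul_le_mul_left _ hu
            _ = ∑ i ∈ U', 5 * (d + 1) * (past dm (· = i) l').length := by rw [Finset.mul_sum]
            _ ≤ ∑ i ∈ U', N := Finset.sum_le_sum fun i hi => (hex i hi).le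
            _ = U'.card * N := by rw [Finset.sum_const, smul_eq_mul]
            _ ≤ (d + 1) * N := Nat.mul_le_mul_right _ hU'c
        have h16 : 5 * l'.length ≤ N := by
          have : (d + 1) * (5 * l'.length) ≤ (d + 1) * N := by
            calc (d + 1) * (5 * l'.length) = 5 * (d + 1) * l'.length := by ring
              _ ≤ _ := hsum
          exact Nat.le_of_mul_le_mul_left this (by omega)
        omega

/-- locality of the run. -/
theorem rw_local {B : ℕ → Set X} {n : ℕ}
    (hB : ∀ i, ∀ v ∈ 𝓑, (∃ x ∈ dm v, x ∈ B (i + 1)) → ∀ y ∈ dm v, y ∈ B i)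
    (hB' : ∀ i x, x ∈ B (i + 1) → x ∈ B i)
    (hloc : ∀ v f g, (∀ x ∈ dm v, f x = g x) → (viol v f ↔ viol v g))
    {T T' : X × ℕ → Fin k} (hT : ∀ x ∈ B 0, ∀ r ≤ n, T (x, r) = T' (x, r)) :
    ∀ i ≤ n, ∀ x ∈ B i, rw dm viol 𝓑 c χ T i x = rw dm viol 𝓑 c χ T' i x := by
  have hB0 : ∀ i x, x ∈ B i → x ∈ B 0 := by
    intro i
    induction i with
    | zero => exact fun x h => h
    | succ i ih => exact fun x h => ih x (hB' i x h)
  intro i
  induction i with
  | zero => intro _ x _; rfl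
  | succ i ih =>
    intro hi x hx
    rw [rw_succ, rw_succ, ih (by omega) x (hB' i x hx)]
    congr 1
    have key : ∀ v, v ∈ 𝓑 → x ∈ dm v → (viol v (stt dm viol 𝓑 c χ T i) ↔
        viol v (stt dm viol 𝓑 c χ T' i)) := by
      intro v hv hxv
      refine hloc v _ _ fun y hy => ?_
      have hy' := hB i v hv ⟨x, hxv, hx⟩ y hy
      simp only [stt]
      rw [ih (by omega) y hy']
      exact hT y (hB0 i y hy') _ ((rw_le T' i y).trans (by omega))
    refine if_congr ?_ rfl rfl
    constructor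
    · rintro ⟨v, ⟨h1, h2⟩, h3, h4⟩
      exact ⟨v, ⟨h1, h2⟩, h3, (key v h1 h2).1 h4⟩
    · rintro ⟨v, ⟨h1, h2⟩, h3, h4⟩
      exact ⟨v, ⟨h1, h2⟩, h3, (key v h1 h2).2 h4⟩

end comb

section meas
variable {X V : Type*} [MeasurableSpace X] [StandardBorelSpace X] [MeasurableSpace V]
  [StandardBorelSpace V] {k : ℕ} {dm : V → Finset X} {viol : V → (X → Fin k) → Prop}

theorem rw_meas {𝓑 : Set V}
    (hdm : MeasurableSet {p : V × X | p.2 ∈ dm p.1})
    (hfin : ∀ x, {v | v ∈ 𝓑 ∧ x ∈ dm v}.Finite)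
    (hvm : ∀ f : X → Fin k, Measurable f → MeasurableSet {v | v ∈ 𝓑 ∧ viol v f})
    {c : V → ℕ} (hc : Measurable c) (χ : ℕ) {T : X × ℕ → Fin k} (hT : Measurable T) (t : ℕ) :
    Measurable (rw dm viol 𝓑 c χ T t) := by
  induction t with
  | zero => exact measurable_const
  | succ t ih =>
    have hftm : Measurable (stt dm viol 𝓑 c χ T t) := hT.comp (measurable_id.prodMk ih)
    have e : rw dm viol 𝓑 c χ T (t + 1) = fun x => rw dm viol 𝓑 c χ T t x +
      if ∃ v, (v ∈ 𝓑 ∧ x ∈ dm v) ∧ c v = t % χ ∧ viol v (stt dm viol 𝓑 c χ T t)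
        then 1 else 0 := rfl
    rw [e]
    refine ih.add (Measurable.ite ?_ measurable_const measurable_const)
    have e2 : {x | ∃ v, (v ∈ 𝓑 ∧ x ∈ dm v) ∧ c v = t % χ ∧
        viol v (stt dm viol 𝓑 c χ T t)} =
        {x | ∃ v, (x, v) ∈ {p : X × V | (p.2 ∈ 𝓑 ∧ viol p.2 (stt dm viol 𝓑 c χ T t)) ∧
          p.1 ∈ dm p.2 ∧ c p.2 = t % χ}} := by
      ext x
      simp only [mem_ofPred_eq]
      constructor
      · rintro ⟨v, ⟨h1, h2⟩, h3, h4⟩
        exact ⟨v, ⟨h1, h4⟩, h2, h3⟩
      · rintro ⟨v, ⟨h1, h4⟩, h2, h3⟩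
        exact ⟨v, ⟨h1, h2⟩, h3, h4⟩
    rw [e2]
    refine proj (MeasurableSet.inter ?_ (MeasurableSet.inter ?_ ?_)) fun x => ?_
    · exact measurable_snd (hvm _ hftm)
    · exact measurable_swap hdm
    · exact measurableSet_eq_fun (hc.comp measurable_snd) measurable_const
    · exact ((hfin x).subset fun v hv => ⟨hv.1.1, hv.2.1⟩).countable

theorem stt_meas {𝓑 : Set V}
    (hdm : MeasurableSet {p : V × X | p.2 ∈ dm p.1})
    (hfin : ∀ x, {v | v ∈ 𝓑 ∧ x ∈ dm v}.Finite)
    (hvm : ∀ f : X → Fin k, Measurable f → MeasurableSet {v | v ∈ 𝓑 ∧ viol v f})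
    {c : V → ℕ} (hc : Measurable c) (χ : ℕ) {T : X × ℕ → Fin k} (hT : Measurable T) (t : ℕ) :
    Measurable (stt dm viol 𝓑 c χ T t) :=
  hT.comp (measurable_id.prodMk (rw_meas hdm hfin hvm hc χ hT t))

/-- a Borel proper colouring of the events with finitely many colours. -/
theorem exists_fincolor {𝓑 : Set V} (h𝓑 : MeasurableSet 𝓑)
    (hdm : MeasurableSet {p : V × X | p.2 ∈ dm p.1})
    (hfin : ∀ x, {v | v ∈ 𝓑 ∧ x ∈ dm v}.Finite) {d : ℕ}
    (hdeg : ∀ v ∈ 𝓑, ∃ U : Finset V, U.card ≤ d + 1 ∧ ∀ w ∈ 𝓑, meets dm w v → w ∈ U)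
    (hne : ∀ v ∈ 𝓑, (dm v).Nonempty) :
    ∃ c : V → ℕ, Measurable c ∧ (∀ v ∈ 𝓑, c v < d + 1) ∧
      ∀ u ∈ 𝓑, ∀ v ∈ 𝓑, u ≠ v → meets dm u v → c u ≠ c v := by
  obtain ⟨κ, hκm, hκ⟩ := exists_evcolor h𝓑 hdm hfin
  obtain ⟨Us, hUs⟩ : ∃ Us : (V → ℕ) → ℕ → V → ℕ → Prop, ∀ g m v j, Us g m v j ↔
      ∃ u, (u ∈ 𝓑 ∧ meets dm u v) ∧ (κ u < m ∧ g u = j) := ⟨_, fun _ _ _ _ => Iff.rfl⟩
  -- the least colour not used by the neighbours that have been treated
  have hex : ∀ (g : V → ℕ) m v, ∃ j, ¬ Us g m v j ∨ v ∉ 𝓑 := by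
    intro g m v
    by_cases hv : v ∈ 𝓑
    · obtain ⟨U, -, hU⟩ := hdeg v hv
      refine ⟨(U.image g).sup id + 1, Or.inl ?_⟩
      rw [hUs]
      rintro ⟨u, ⟨h1, h2⟩, -, h4⟩
      have h5 : g u ≤ (U.image g).sup id :=
        Finset.le_sup (f := id) (Finset.mem_image_of_mem g (hU u h1 h2))
      omega
    · exact ⟨0, Or.inr hv⟩
  obtain ⟨G, hG0, hG⟩ : ∃ G : ℕ → V → ℕ, (∀ v, G 0 v = 0) ∧
      ∀ m v, G (m + 1) v = if κ v = m then Nat.find (hex (G m) m v) else G m v :=
    ⟨fun n => Nat.rec (fun _ => 0) (fun m g v => if κ v = m then Nat.find (hex g m v) else g v) n,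
      fun _ => rfl, fun _ _ => rfl⟩
  have hnbf : ∀ v, {u | u ∈ 𝓑 ∧ meets dm u v}.Finite := by
    intro v
    refine ((dm v).finite_toSet.biUnion (t := fun x => {w | w ∈ 𝓑 ∧ x ∈ dm w})
        fun x _ => hfin x).subset ?_
    rintro w ⟨h1, x, h2, h3⟩
    simp only [mem_iUnion]
    exact ⟨x, h3, h1, h2⟩
  have hGm : ∀ m, Measurable (G m) := by
    intro m
    induction m with
    | zero =>
      have : G 0 = fun _ => 0 := funext hG0
      rw [this]; exact measurable_const
    | succ m ih =>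
      have : G (m + 1) = fun v => if κ v = m then Nat.find (hex (G m) m v) else G m v :=
        funext (hG m)
      rw [this]
      refine Measurable.ite (measurableSet_eq_fun hκm measurable_const) ?_ ih
      refine measurable_find (hex (G m) m) fun j => MeasurableSet.union ?_ h𝓑.compl
      have e : {v | ¬ Us (G m) m v j} = {v | ∃ u, (v, u) ∈ {p : V × V |
          (p.2 ∈ 𝓑 ∧ meets dm p.2 p.1) ∧ (κ p.2 < m ∧ G m p.2 = j)}}ᶜ := by
        ext v
        simp only [mem_ofPred_eq, hUs, mem_compl_iff]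
      show MeasurableSet {v | ¬ Us (G m) m v j}
      rw [e]
      refine MeasurableSet.compl (proj (MeasurableSet.inter (MeasurableSet.inter ?_ ?_)
        (MeasurableSet.inter ?_ ?_)) fun v => ?_)
      · exact measurable_snd h𝓑
      · exact measurable_swap (meets_meas hdm)
      · exact measurableSet_lt (hκm.comp measurable_snd) measurable_const
      · exact measurableSet_eq_fun (ih.comp measurable_snd) measurable_const
      · exact ((hnbf v).subset fun u hu => hu.1).countable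
  have hst : ∀ m v, κ v < m → G m v = G (κ v + 1) v := by
    intro m v hv
    have : ∀ j, G (κ v + 1 + j) v = G (κ v + 1) v := by
      intro j
      induction j with
      | zero => rfl
      | succ j ih =>
        rw [← Nat.add_assoc, hG, if_neg (by omega), ih]
    have h := this (m - (κ v + 1))
    rwa [show κ v + 1 + (m - (κ v + 1)) = m by omega] at h
  have hfind : ∀ v ∈ 𝓑, ¬ Us (G (κ v)) (κ v) v (G (κ v + 1) v) ∧
      ∀ j < G (κ v + 1) v, Us (G (κ v)) (κ v) v j := by
    intro v hv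
    have e : G (κ v + 1) v = Nat.find (hex (G (κ v)) (κ v) v) := by rw [hG, if_pos rfl]
    constructor
    · have := Nat.find_spec (hex (G (κ v)) (κ v) v)
      rw [← e] at this
      exact this.resolve_right (fun h => h hv)
    · intro j hj
      rw [e] at hj
      have := Nat.find_min (hex (G (κ v)) (κ v) v) hj
      rw [not_or, not_not] at this
      exact this.1
  refine ⟨fun v => G (κ v + 1) v, ?_, ?_, ?_⟩
  · refine measurable_glue (fun n : ℕ => {v | κ v = n})
      (fun n => measurableSet_eq_fun hκm measurable_const) (fun v => ⟨κ v, rfl⟩)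
      (fun n => G (n + 1)) (fun n => hGm (n + 1)) _ ?_
    rintro n v hv
    simp only [mem_ofPred_eq] at hv
    simp only [hv]
  · intro v hv
    beta_reduce
    by_contra hcon
    push Not at hcon
    obtain ⟨U, hU1, hU2⟩ := hdeg v hv
    have hvU : v ∈ U := hU2 v hv (meets_refl (hne v hv))
    -- the colours `0, …, d` are all used by neighbours other than `v`
    have h1 : ∀ j ∈ Finset.range (d + 1), j ∈ (U.erase v).image (G (κ v)) := by
      intro j hj
      rw [Finset.mem_range] at hj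
      have := (hfind v hv).2 j (by omega)
      rw [hUs] at this
      obtain ⟨u, ⟨h2, h3⟩, h4, h5⟩ := this
      refine Finset.mem_image.2 ⟨u, Finset.mem_erase.2 ⟨?_, hU2 u h2 h3⟩, h5⟩
      rintro rfl
      exact lt_irrefl _ h4
    have h2 := Finset.card_le_card (fun j hj => h1 j hj : Finset.range (d + 1) ⊆ _)
    rw [Finset.card_range] at h2
    have h3 : ((U.erase v).image (G (κ v))).card ≤ (U.erase v).card := Finset.card_image_le
    have h4 : (U.erase v).card = U.card - 1 := Finset.card_erase_of_mem hvU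
    have h5 : 0 < U.card := Finset.card_pos.2 ⟨v, hvU⟩
    omega
  · intro u hu v hv hne' hm hcc
    simp only at hcc
    have hκuv := hκ u hu v hv hne' hm
    rcases Nat.lt_or_gt_of_ne hκuv with h | h
    · refine (hfind v hv).1 ((hUs _ _ _ _).2 ⟨u, ⟨hu, hm⟩, h, ?_⟩)
      rw [hst (κ v) u h]
      exact hcc
    · refine (hfind u hu).1 ((hUs _ _ _ _).2 ⟨v, ⟨hv, meets_symm hm⟩, h, ?_⟩)
      rw [hst (κ u) v h]
      exact hcc.symm

end meas

end Pool.Agent.Helper105
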