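import Mathlib
import Pool.Agent.Helper105_All.Run2
import Pool.Agent.Helper105_Full.Atoms

set_option autoImplicit false

namespace Pool.Agent.Helper105

open MeasureTheory Set
open scoped Classical

/-- a Borel colouring of points that is injective on every member of a locally finite family. -/
theorem exists_cellcolor {I Z : Type*} [MeasurableSpace I] [StandardBorelSpace I]
    [MeasurableSpace Z] [StandardBorelSpace Z] {R : I → Finset Z}
    (hR : MeasurableSet {p : I × Z | p.2 ∈ R p.1}) (hfin : ∀ z, {i | z ∈ R i}.Finite) :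
    ∃ κ : Z → ℕ, Measurable κ ∧ ∀ i, ∀ a ∈ R i, ∀ b ∈ R i, κ a = κ b → a = b := by
  obtain ⟨A, hA1, hA2⟩ := exists_sep Z
  obtain ⟨W, hW⟩ : ∃ W : Z → Z → Prop, ∀ u v, W u v ↔ (∃ i, u ∈ R i ∧ v ∈ R i) ∧ u ≠ v :=
    ⟨_, fun _ _ => Iff.rfl⟩
  have hWf : ∀ u, {v | W u v}.Finite := by
    intro u
    refine ((hfin u).biUnion (t := fun i => (R i : Set Z)) fun i _ =>
      (R i).finite_toSet).subset ?_
    intro v hv
    obtain ⟨⟨i, h1, h2⟩, -⟩ := (hW u v).1 hv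
    simp only [mem_iUnion]
    exact ⟨i, h1, h2⟩
  have hWm : MeasurableSet {p : Z × Z | W p.1 p.2} := by
    have e : {p : Z × Z | W p.1 p.2} = {p | ∃ i, (p, i) ∈ {r : (Z × Z) × I |
        r.1.1 ∈ R r.2 ∧ r.1.2 ∈ R r.2}} ∩ {p : Z × Z | p.1 = p.2}ᶜ := by
      ext ⟨u, v⟩
      simp only [mem_ofPred_eq, hW, mem_inter_iff, mem_compl_iff]
    rw [e]
    refine (proj (MeasurableSet.inter ?_ ?_) ?_).inter
      (measurableSet_eq_fun measurable_fst measurable_snd).compl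
    · exact (by fun_prop : Measurable fun r : (Z × Z) × I => (r.2, r.1.1)) hR
    · exact (by fun_prop : Measurable fun r : (Z × Z) × I => (r.2, r.1.2)) hR
    · rintro ⟨u, v⟩
      exact ((hfin u).subset fun i hi => hi.1).countable
  have hex : ∀ u, ∃ i, u ∈ A i ∧ ∀ v, W u v → v ∉ A i := by
    intro u
    obtain ⟨i, h1, h2⟩ := hA2 (hWf u).toFinset u (by
      simp only [Finite.mem_toFinset, mem_ofPred_eq]
      intro h
      exact ((hW u u).1 h).2 rfl)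
    exact ⟨i, h1, fun v hv => h2 v (by simpa using hv)⟩
  refine ⟨fun u => Nat.find (hex u), measurable_find hex fun i => ?_, ?_⟩
  · have e : {u | u ∈ A i ∧ ∀ v, W u v → v ∉ A i} =
        A i ∩ {u | ∃ v, (u, v) ∈ {p : Z × Z | W p.1 p.2 ∧ p.2 ∈ A i}}ᶜ := by
      ext u
      simp only [mem_ofPred_eq, mem_inter_iff, mem_compl_iff, not_exists, not_and]
    rw [e]
    refine (hA1 i).inter (MeasurableSet.compl (proj ?_ ?_))
    · exact hWm.inter (measurable_snd (hA1 i))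
    · intro u
      exact ((hWf u).subset fun v hv => hv.1).countable
  · intro i a ha b hb hcc
    by_contra hne
    simp only at hcc
    have h1 := Nat.find_spec (hex a)
    have h2 := Nat.find_spec (hex b)
    rw [hcc] at h1
    exact h1.2 b ((hW a b).2 ⟨⟨i, ha, hb⟩, hne⟩) h2.1

section comb
variable {Y V : Type*} {dm : V → Finset Y} {𝓑 : Set V}

/-- the points at distance at most `n` from `L`. -/
def YR (dm : V → Finset Y) (𝓑 : Set V) (L : Finset Y) (n : ℕ) (y : Y) : Prop :=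
  y ∈ L ∨ ∃ w ∈ 𝓑, (∃ z ∈ dm w, z ∈ L) ∧ ∃ u, Bl dm 𝓑 n w u ∧ y ∈ dm u

theorem yr_mono (hne : ∀ v ∈ 𝓑, (dm v).Nonempty) {L : Finset Y} {m n : ℕ} (h : m ≤ n) {y : Y}
    (hy : YR dm 𝓑 L m y) : YR dm 𝓑 L n y := by
  rcases hy with hy | ⟨w, hw, hz, u, hu, hyu⟩
  · exact Or.inl hy
  · exact Or.inr ⟨w, hw, hz, u, bl_mono hne h hw hu, hyu⟩

theorem yr_step (hne : ∀ v ∈ 𝓑, (dm v).Nonempty) {L : Finset Y} {n : ℕ} {v : V} (hv : v ∈ 𝓑)
    (h : ∃ x ∈ dm v, YR dm 𝓑 L n x) : ∀ y ∈ dm v, YR dm 𝓑 L (n + 1) y := by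
  intro y hy
  obtain ⟨x, hx, hx' | ⟨w, hw, hz, u, hu, hxu⟩⟩ := h
  · exact Or.inr ⟨v, hv, ⟨x, hx, hx'⟩, v, bl_mono hne (Nat.zero_le _) hv rfl, hy⟩
  · exact Or.inr ⟨w, hw, hz, v, ⟨hv, u, hu, x, hx, hxu⟩, hy⟩

theorem yr_fin (hfin : ∀ x, {v | v ∈ 𝓑 ∧ x ∈ dm v}.Finite) (L : Finset Y) (n : ℕ) :
    {y | YR dm 𝓑 L n y}.Finite := by
  refine (L.finite_toSet.union (((L.finite_toSet.biUnion (t := fun z => {v | v ∈ 𝓑 ∧ z ∈ dm v})
    fun z _ => hfin z).biUnion (t := fun w => {u | Bl dm 𝓑 n w u}) fun w _ =>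
      bl_fin hfin n w).biUnion (t := fun u => (dm u : Set Y)) fun u _ =>
        (dm u).finite_toSet)).subset ?_
  rintro y (hy | ⟨w, hw, ⟨z, hz, hzL⟩, u, hu, hyu⟩)
  · exact Or.inl hy
  · refine Or.inr ?_
    simp only [mem_iUnion, mem_ofPred_eq]
    exact ⟨u, ⟨w, ⟨z, hzL, hw, hz⟩, hu⟩, hyu⟩

end comb

section meas
universe u
variable {X Y V : Type u} [MeasurableSpace X] [StandardBorelSpace X] [MeasurableSpace Y]
  [StandardBorelSpace Y] [MeasurableSpace V] [StandardBorelSpace V] {dm : V → Finset Y}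
  {𝓑 : Set V}

theorem yr_meas (h𝓑 : MeasurableSet 𝓑) (hdm : MeasurableSet {p : V × Y | p.2 ∈ dm p.1})
    (hfin : ∀ x, {v | v ∈ 𝓑 ∧ x ∈ dm v}.Finite) {Lam : X → Finset Y}
    (hLam : MeasurableSet {p : X × Y | p.2 ∈ Lam p.1}) (n : ℕ) :
    MeasurableSet {p : X × Y | YR dm 𝓑 (Lam p.1) n p.2} := by
  refine MeasurableSet.union hLam ?_
  have e : {p : X × Y | ∃ w ∈ 𝓑, (∃ z ∈ dm w, z ∈ Lam p.1) ∧ ∃ u, Bl dm 𝓑 n w u ∧ p.2 ∈ dm u} =
      {p | ∃ w, (p, w) ∈ {q : (X × Y) × V | (q.2 ∈ 𝓑 ∧ ∃ z ∈ dm q.2, z ∈ Lam q.1.1) ∧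
        ∃ u, (q, u) ∈ {r : ((X × Y) × V) × V | Bl dm 𝓑 n r.1.2 r.2 ∧ r.1.1.2 ∈ dm r.2}}} := by
    ext p
    simp only [mem_ofPred_eq]
    constructor
    · rintro ⟨w, h1, h2, h3⟩
      exact ⟨w, ⟨h1, h2⟩, h3⟩
    · rintro ⟨w, ⟨h1, h2⟩, h3⟩
      exact ⟨w, h1, h2, h3⟩
  show MeasurableSet {p : X × Y | ∃ w ∈ 𝓑, (∃ z ∈ dm w, z ∈ Lam p.1) ∧
    ∃ u, Bl dm 𝓑 n w u ∧ p.2 ∈ dm u}
  rw [e]
  refine proj (MeasurableSet.inter (MeasurableSet.inter ?_ ?_) (proj (MeasurableSet.inter ?_ ?_)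
    fun q => ?_)) fun p => ?_
  · exact measurable_snd h𝓑
  · refine exists_mem_meas (F := fun q : (X × Y) × V => dm q.2) ?_
      (P := fun q z => z ∈ Lam q.1.1) ?_
    · exact (by fun_prop : Measurable fun r : ((X × Y) × V) × Y => (r.1.2, r.2)) hdm
    · exact (by fun_prop : Measurable fun r : ((X × Y) × V) × Y => (r.1.1.1, r.2)) hLam
  · exact (by fun_prop : Measurable fun r : ((X × Y) × V) × V => (r.1.2, r.2))
      (bl_meas h𝓑 hdm hfin n)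
  · exact (by fun_prop : Measurable fun r : ((X × Y) × V) × V => (r.2, r.1.1.2)) hdm
  · exact ((bl_fin hfin n q.2).subset fun u hu => hu.1).countable
  · refine (((Lam p.1).finite_toSet.biUnion (t := fun z => {v | v ∈ 𝓑 ∧ z ∈ dm v})
      fun z _ => hfin z).subset ?_).countable
    rintro w ⟨⟨h1, z, h2, h3⟩, -⟩
    simp only [mem_iUnion]
    exact ⟨z, h3, h1, h2⟩

theorem yr_inv (hfin : ∀ x, {v | v ∈ 𝓑 ∧ x ∈ dm v}.Finite) {Lam : X → Finset Y}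
    (hLamf : ∀ y, {x | y ∈ Lam x}.Finite) (n : ℕ) (y : Y) :
    {x | YR dm 𝓑 (Lam x) n y}.Finite := by
  refine ((hLamf y).union ((((hfin y).biUnion (t := fun u => {w | Bl dm 𝓑 n u w}) fun u _ =>
    bl_fin hfin n u).biUnion (t := fun w => (dm w : Set Y)) fun w _ =>
      (dm w).finite_toSet).biUnion (t := fun z => {x | z ∈ Lam x}) fun z _ =>
        hLamf z)).subset ?_
  rintro x (hx | ⟨w, hw, ⟨z, hz, hzL⟩, u, hu, hyu⟩)
  · exact Or.inl hx
  · refine Or.inr ?_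
    simp only [mem_iUnion, mem_ofPred_eq]
    exact ⟨z, ⟨w, ⟨u, ⟨bl_mem hw hu, hyu⟩, bl_symm hw hu⟩, hz⟩, hzL⟩

/-- the cells near `Lam x`. -/
theorem cr_exists (h𝓑 : MeasurableSet 𝓑) (hdm : MeasurableSet {p : V × Y | p.2 ∈ dm p.1})
    (hfin : ∀ x, {v | v ∈ 𝓑 ∧ x ∈ dm v}.Finite) {Lam : X → Finset Y}
    (hLam : MeasurableSet {p : X × Y | p.2 ∈ Lam p.1}) (hLamf : ∀ y, {x | y ∈ Lam x}.Finite)
    (R : ℕ) : ∃ C : X → Finset (Y × ℕ), (∀ x c, c ∈ C x ↔ YR dm 𝓑 (Lam x) R c.1 ∧ c.2 < R) ∧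
      MeasurableSet {p : X × (Y × ℕ) | p.2 ∈ C p.1} ∧ ∀ c, {x | c ∈ C x}.Finite := by
  refine ⟨fun x => (yr_fin hfin (Lam x) R).toFinset ×ˢ Finset.range R, ?_, ?_, ?_⟩
  · intro x c
    simp only [Finset.mem_product, Finite.mem_toFinset, mem_ofPred_eq, Finset.mem_range]
  · have e : {p : X × (Y × ℕ) | p.2 ∈ (yr_fin hfin (Lam p.1) R).toFinset ×ˢ Finset.range R} =
        ((fun p : X × (Y × ℕ) => (p.1, p.2.1)) ⁻¹' {p : X × Y | YR dm 𝓑 (Lam p.1) R p.2}) ∩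
          {p | p.2.2 < R} := by
      ext p
      simp only [mem_ofPred_eq, Finset.mem_product, Finite.mem_toFinset, Finset.mem_range,
        mem_inter_iff, mem_preimage]
    rw [e]
    refine MeasurableSet.inter ?_ ?_
    · exact (by fun_prop : Measurable fun p : X × (Y × ℕ) => (p.1, p.2.1))
        (yr_meas h𝓑 hdm hfin hLam R)
    · exact measurableSet_lt (by fun_prop) measurable_const
  · intro c
    refine (yr_inv hfin hLamf R c.1).subset fun x hx => ?_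
    simp only [Finset.mem_product, Finite.mem_toFinset, mem_ofPred_eq, Finset.mem_range] at hx
    exact hx.1

end meas

end Pool.Agent.Helper105
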