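import Mathlib
import Pool.Agent.Helper105_All.Region
import Pool.Agent.Helper105_Full.Window

set_option autoImplicit false

namespace Pool.Agent.Helper105

open MeasureTheory Set
open scoped Classical

attribute [-instance] Finset.instMeasurableSpace
attribute [local instance] finsetBorel sb_finset

universe u

section defs
variable {Y V : Type*} {k : ℕ} (dm : V → Finset Y) (𝓑 : Set V)

/-- the members of `𝓑` that meet `a`. -/
noncomputable def nbf (a : V) : Finset V :=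
  if h : {b | b ∈ 𝓑 ∧ meets dm b a}.Finite then h.toFinset else ∅

variable {dm 𝓑}

theorem mem_nbf (hfin : ∀ x, {v | v ∈ 𝓑 ∧ x ∈ dm v}.Finite) {a b : V} :
    b ∈ nbf dm 𝓑 a ↔ b ∈ 𝓑 ∧ meets dm b a := by
  have h : {b | b ∈ 𝓑 ∧ meets dm b a}.Finite := by
    refine ((dm a).finite_toSet.biUnion (t := fun x => {w | w ∈ 𝓑 ∧ x ∈ dm w})
        fun x _ => hfin x).subset ?_
    rintro w ⟨h1, x, h2, h3⟩
    simp only [mem_iUnion]
    exact ⟨x, h3, h1, h2⟩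
  unfold nbf
  rw [dif_pos h, Finite.mem_toFinset]
  rfl

end defs

/-- A weighted instance with soft events, observed from `X`. -/
structure Good {X Y V : Type u} [MeasurableSpace X] [MeasurableSpace Y]
    [MeasurableSpace V] {k : ℕ} (dm : V → Finset Y)
    (viol : V → (Y → Fin k) → Prop) (𝓑 𝓖 : Set V) (Lam : X → Finset Y) (ev : X → Finset V)
    (d : ℕ) (P s : V → ℝ) (Γ r : ℝ) : Prop where
  hB : MeasurableSet 𝓑
  hG : MeasurableSet 𝓖
  hBG : ∀ v ∈ 𝓑, v ∈ 𝓖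
  hdm : MeasurableSet {p : V × Y | p.2 ∈ dm p.1}
  hfin : ∀ y, {v | v ∈ 𝓑 ∧ y ∈ dm v}.Finite
  hne : ∀ v ∈ 𝓑, (dm v).Nonempty
  hvm : ∀ (Z : Type u) [MeasurableSpace Z] [StandardBorelSpace Z] (f : Z → Y → Fin k),
      Measurable (fun p : Z × Y => f p.1 p.2) →
        MeasurableSet {p : Z × V | p.2 ∈ 𝓖 ∧ viol p.2 (f p.1)}
  hloc : ∀ v f g, (∀ x ∈ dm v, f x = g x) → (viol v f ↔ viol v g)
  hdeg : ∀ v ∈ 𝓑, ∃ U : Finset V, U.card ≤ d + 1 ∧ ∀ w ∈ 𝓑, meets dm w v → w ∈ U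
  hP : ∀ v, 0 ≤ P v
  hs : ∀ v, 0 ≤ s v
  hviol : ∀ w ∈ 𝓖, ∀ f₀, (((Tab (dm w) f₀).filter (viol w)).card : ℝ) ≤
      P w * (k : ℝ) ^ (dm w).card
  hs1 : ∀ v ∈ 𝓑, s v ≤ 1
  hΓ : 1 < Γ
  hr : 0 ≤ r
  hr1 : r < 1
  hPs : ∀ a ∈ 𝓑, Γ ^ 5 * P a * ∏ b ∈ nbf dm 𝓑 a, (1 + s b) ≤ s a
  hsr : ∀ a ∈ 𝓑, ∑ b ∈ nbf dm 𝓑 a, s b ≤ r * (1 + s a)
  hLam : MeasurableSet {p : X × Y | p.2 ∈ Lam p.1}
  hLamf : ∀ y, {x | y ∈ Lam x}.Finite
  hev : MeasurableSet {p : X × V | p.2 ∈ ev p.1}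
  hevG : ∀ x, ∀ a ∈ ev x, a ∈ 𝓖 ∧ ∀ y ∈ dm a, y ∈ Lam x

section resid
variable {Y V : Type u} {k : ℕ}

/-- fill the unrevealed cells. -/
noncomputable def fillT (F : Set (Y × ℕ)) (T : Y × ℕ → Fin k) (g : Y × ℕ → Fin k) :
    Y × ℕ → Fin k := fun c => if c ∈ F then g c else T c

/-- the unrevealed cells of a structure. -/
noncomputable def dmF (dm : V → Finset Y) (F : Set (Y × ℕ)) (S : Finset (ℕ × V)) :
    Finset (Y × ℕ) := (DS dm S).filter (· ∈ F)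

/-- the structure is consistent with the filled table. -/
def violF (dm : V → Finset Y) (viol : V → (Y → Fin k) → Prop) (F : Set (Y × ℕ))
    (T : Y × ℕ → Fin k) (S : Finset (ℕ × V)) (g : Y × ℕ → Fin k) : Prop :=
  LCons dm viol S (fillT F T g)

theorem violF_loc {dm : V → Finset Y} {viol : V → (Y → Fin k) → Prop}
    (hloc : ∀ v f g, (∀ x ∈ dm v, f x = g x) → (viol v f ↔ viol v g)) (F : Set (Y × ℕ))
    (T : Y × ℕ → Fin k) (S : Finset (ℕ × V)) (f g : Y × ℕ → Fin k)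
    (h : ∀ c ∈ dmF dm F S, f c = g c) : violF dm viol F T S f ↔ violF dm viol F T S g := by
  unfold violF
  refine lcons_congr hloc fun q hq x hx r hr => ?_
  unfold fillT
  split_ifs with hF
  · exact h _ (Finset.mem_filter.2 ⟨mem_DS.2 ⟨⟨q, hq, hx⟩, hr⟩, hF⟩)
  · rfl

/-- the conditional probability bounds the number of violating fillings. -/
theorem violF_prob {dm : V → Finset Y} {viol : V → (Y → Fin k) → Prop} (hk : 0 < k)
    (hloc : ∀ v f g, (∀ x ∈ dm v, f x = g x) → (viol v f ↔ viol v g)) {𝓖 : Set V}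
    (F : Set (Y × ℕ)) (T : Y × ℕ → Fin k) {S : Finset (ℕ × V)} (hS : ∀ q ∈ S, q.2 ∈ 𝓖)
    (f₀ : Y × ℕ → Fin k) :
    (((Tab (dmF dm F S) f₀).filter (violF dm viol F T S)).card : ℝ) ≤
      cp (DS dm S) (BadS dm viol 𝓖 S) F T * (k : ℝ) ^ (dmF dm F S).card := by
  have hk' : (0 : ℝ) < k := by exact_mod_cast hk
  unfold cp
  rw [← dmF, div_mul_cancel₀ _ (by positivity), Nat.cast_le]
  refine Finset.card_le_card_of_injOn (fun g c => if c ∈ dmF dm F S then g c else T c) ?_ ?_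
  · intro g hg
    simp only [Finset.coe_filter, Set.mem_ofPred_eq] at hg ⊢
    refine ⟨mem_Tab.2 fun c hc => by simp [hc], hS, ?_⟩
    refine (lcons_congr hloc fun q hq x hx r hr => ?_).1 hg.2
    have hc : (x, r) ∈ DS dm S := mem_DS.2 ⟨⟨q, hq, hx⟩, hr⟩
    by_cases hF : (x, r) ∈ F
    · have : (x, r) ∈ dmF dm F S := Finset.mem_filter.2 ⟨hc, hF⟩
      simp [fillT, hF, this]
    · have : (x, r) ∉ dmF dm F S := fun h => hF (Finset.mem_filter.1 h).2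
      simp [fillT, hF, this]
  · intro g hg g' hg' h
    simp only [Finset.coe_filter, Set.mem_ofPred_eq] at hg hg'
    funext c
    by_cases hc : c ∈ dmF dm F S
    · have := congrFun h c
      simpa [hc] using this
    · rw [mem_Tab.1 hg.1 c hc, mem_Tab.1 hg'.1 c hc]

variable [MeasurableSpace Y] [StandardBorelSpace Y] [MeasurableSpace V] [StandardBorelSpace V]

theorem badS_meas' {dm : V → Finset Y} {viol : V → (Y → Fin k) → Prop} {𝓖 𝓑 : Set V}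
    (h𝓑 : MeasurableSet 𝓑) (hBG : ∀ v ∈ 𝓑, v ∈ 𝓖)
    (hdm : MeasurableSet {p : V × Y | p.2 ∈ dm p.1})
    (hvm : ∀ (Z : Type u) [MeasurableSpace Z] [StandardBorelSpace Z] (f : Z → Y → Fin k),
      Measurable (fun p : Z × Y => f p.1 p.2) →
        MeasurableSet {p : Z × V | p.2 ∈ 𝓖 ∧ viol p.2 (f p.1)})
    (Z : Type u) [MeasurableSpace Z] [StandardBorelSpace Z] (T : Z → Y × ℕ → Fin k)
    (hT : Measurable fun p : Z × (Y × ℕ) => T p.1 p.2) :
    MeasurableSet {p : Z × Finset (ℕ × V) | (∀ q ∈ p.2, q.2 ∈ 𝓑) ∧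
      LCons dm viol p.2 (T p.1)} := by
  have h1 := hvm (Z × (Finset (ℕ × V) × (ℕ × V))) (fun z x => T z.1 (x, row dm z.2.1 z.2.2 x)) (by
    have h2 : Measurable fun p : (Z × (Finset (ℕ × V) × (ℕ × V))) × Y =>
        row dm p.1.2.1 p.1.2.2 p.2 :=
      (row_meas hdm).comp (by fun_prop : Measurable fun p :
        (Z × (Finset (ℕ × V) × (ℕ × V))) × Y => ((p.1.2.1, p.1.2.2), p.2))
    have h3 : Measurable fun p : (Z × (Finset (ℕ × V) × (ℕ × V))) × Y =>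
        (p.1.1, (p.2, row dm p.1.2.1 p.1.2.2 p.2)) :=
      (measurable_fst.comp measurable_fst).prodMk (measurable_snd.prodMk h2)
    exact hT.comp h3)
  have e : {p : Z × Finset (ℕ × V) | (∀ q ∈ p.2, q.2 ∈ 𝓑) ∧ LCons dm viol p.2 (T p.1)} =
      {p | ∀ q ∈ p.2, (q.2 ∈ 𝓑 ∧ (q.2 ∈ 𝓖 ∧
        viol q.2 (fun x => T p.1 (x, row dm p.2 q x))))} := by
    ext p
    simp only [mem_ofPred_eq, LCons, row]
    constructor
    · rintro ⟨h1, h2⟩ q hq
      exact ⟨h1 q hq, hBG _ (h1 q hq), h2 q hq⟩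
    · intro h
      exact ⟨fun q hq => (h q hq).1, fun q hq => (h q hq).2.2⟩
  rw [e]
  refine forall_mem_meas (F := fun p : Z × Finset (ℕ × V) => p.2) ?_
      (P := fun p q => q.2 ∈ 𝓑 ∧ (q.2 ∈ 𝓖 ∧ viol q.2 (fun x => T p.1 (x, row dm p.2 q x)))) ?_
  · exact (by fun_prop : Measurable fun p : (Z × Finset (ℕ × V)) × (ℕ × V) => (p.1.2, p.2)) selfmem
  · refine MeasurableSet.inter ?_ ?_
    · exact (by fun_prop : Measurable fun p : (Z × Finset (ℕ × V)) × (ℕ × V) => p.2.2) h𝓑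
    · exact (by fun_prop : Measurable fun p : (Z × Finset (ℕ × V)) × (ℕ × V) =>
        ((p.1.1, (p.1.2, p.2)), p.2.2)) h1

end resid

end Pool.Agent.Helper105
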