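import Mathlib
import Pool.Agent.Helper105_All.Level

set_option autoImplicit false

namespace Pool.Agent.Helper105

open MeasureTheory Set
open scoped Classical

attribute [-instance] Finset.instMeasurableSpace
attribute [local instance] finsetBorel sb_finset

universe u

theorem prod_le_exp {ι : Type*} (J : Finset ι) {f : ι → ℝ} (hf : ∀ i ∈ J, 0 ≤ f i) :
    ∏ i ∈ J, (1 + f i) ≤ Real.exp (∑ i ∈ J, f i) := by
  rw [Real.exp_sum]
  refine Finset.prod_le_prod (fun i hi => by linarith [hf i hi]) fun i _ => ?_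
  have := Real.add_one_le_exp (f i)
  linarith

theorem sum_biUnion_le3 {α β : Type*} [DecidableEq β] (I : Finset α) (N : α → Finset β)
    {f : β → ℝ} (hf : ∀ v, 0 ≤ f v) : ∑ b ∈ I.biUnion N, f b ≤ ∑ a ∈ I, ∑ b ∈ N a, f b := by
  induction I using Finset.induction_on with
  | empty => simp
  | @insert a I ha ih =>
    rw [Finset.biUnion_insert, Finset.sum_insert ha]
    have h1 : ∑ b ∈ N a ∪ I.biUnion N, f b ≤
        (∑ b ∈ N a, f b) + ∑ b ∈ I.biUnion N, f b := by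
      rw [← Finset.sum_union_inter]
      have := Finset.sum_nonneg (s := N a ∩ I.biUnion N) fun b _ => hf b
      linarith
    linarith

section
variable {X Y V : Type u} [MeasurableSpace X] [StandardBorelSpace X] [MeasurableSpace Y]
  [StandardBorelSpace Y] [MeasurableSpace V] [StandardBorelSpace V] {k : ℕ}
  {dm : V → Finset Y} {viol : V → (Y → Fin k) → Prop} {𝓑 𝓖 : Set V} {Lam : X → Finset Y}
  {ev : X → Finset V} {d : ℕ} {P s : V → ℝ} {Γ r : ℝ}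

theorem nbf_card (hg : Good dm viol 𝓑 𝓖 Lam ev d P s Γ r) {a : V} (ha : a ∈ 𝓑) :
    (nbf dm 𝓑 a).card ≤ d + 1 := by
  obtain ⟨U, hU1, hU2⟩ := hg.hdeg a ha
  refine (Finset.card_le_card fun b hb => ?_).trans hU1
  rw [mem_nbf hg.hfin] at hb
  exact hU2 b hb.1 hb.2

/-- the residual events. -/
def resB (dm : V → Finset Y) (𝓑 : Set V) (d N : ℕ) (F : Set (Y × ℕ)) : Set (Finset (ℕ × V)) :=
  {S | (Str dm 𝓑 S ∧ (N ≤ 5 * (d + 1) * S.card ∧ 4 * S.card ≤ N)) ∧ ∃ c ∈ DS dm S, c ∈ F}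

theorem res_cov (hg : Good dm viol 𝓑 𝓖 Lam ev d P s Γ r) {N : ℕ}
    {A : V → Finset (Finset (ℕ × V))} (hA : ∀ v S, S ∈ A v ↔
      (Str dm 𝓑 S ∧ (N ≤ 5 * (d + 1) * S.card ∧ 4 * S.card ≤ N)) ∧ ∃ j, (j, v) ∈ S)
    {F : Set (Y × ℕ)} {S S' : Finset (ℕ × V)} (hS : ∀ q ∈ S, q.2 ∈ 𝓑)
    (hS' : S' ∈ resB dm 𝓑 d N F) (hm : meets (dmF dm F) S' S) :
    S' ∈ ((S.image Prod.snd).biUnion (nbf dm 𝓑)).biUnion A := by
  obtain ⟨c, hc1, hc2⟩ := hm
  obtain ⟨⟨q', hq', hx'⟩, -⟩ := mem_DS.1 (Finset.mem_filter.1 hc1).1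
  obtain ⟨⟨q, hq, hx⟩, -⟩ := mem_DS.1 (Finset.mem_filter.1 hc2).1
  rw [Finset.mem_biUnion]
  refine ⟨q'.2, ?_, (hA _ _).2 ⟨hS'.1, q'.1, hq'⟩⟩
  rw [Finset.mem_biUnion]
  exact ⟨q.2, Finset.mem_image_of_mem _ hq, (mem_nbf hg.hfin).2
    ⟨hS'.1.1.2.1 q' hq', c.1, hx', hx⟩⟩

theorem cov_card (hg : Good dm viol 𝓑 𝓖 Lam ev d P s Γ r) {S : Finset (ℕ × V)}
    (hS : ∀ q ∈ S, q.2 ∈ 𝓑) :
    ((S.image Prod.snd).biUnion (nbf dm 𝓑)).card ≤ (d + 1) * S.card := by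
  refine Finset.card_biUnion_le.trans ?_
  refine (Finset.sum_le_sum (g := fun _ => d + 1) fun a ha => ?_).trans ?_
  · obtain ⟨q, hq, rfl⟩ := Finset.mem_image.1 ha
    exact nbf_card hg (hS q hq)
  · rw [Finset.sum_const, smul_eq_mul, Nat.mul_comm]
    exact Nat.mul_le_mul_left _ Finset.card_image_le

/-- The residual instance is good. -/
theorem residual (hk : 0 < k) (hg : Good dm viol 𝓑 𝓖 Lam ev d P s Γ r) {N : ℕ}
    {A : V → Finset (Finset (ℕ × V))} (hA : ∀ v S, S ∈ A v ↔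
      (Str dm 𝓑 S ∧ (N ≤ 5 * (d + 1) * S.card ∧ 4 * S.card ≤ N)) ∧ ∃ j, (j, v) ∈ S)
    {Kc : ℕ} (hKc : ∀ v, (A v).card ≤ Kc) {T : Y × ℕ → Fin k} (hT : Measurable T)
    {F : Set (Y × ℕ)} (hF : MeasurableSet F) {ζ : ℝ} (hζ0 : 0 ≤ ζ) (hζ1 : ζ ≤ 1)
    (hζ2 : ((d : ℝ) + 1) * N * ζ ≤ 1 / 2) (hζ3 : Real.exp (2 * ((d : ℝ) + 1) * ζ) ≤ Γ)
    (hM : ∀ v, ∑ S ∈ A v, Γ ^ S.card * cp (DS dm S) (BadS dm viol 𝓖 S) F T ≤ ζ)
    {C : X → Finset (Y × ℕ)} (hC : MeasurableSet {p : X × (Y × ℕ) | p.2 ∈ C p.1})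
    (hCf : ∀ c, {x | c ∈ C x}.Finite) {ev' : X → Finset (Finset (ℕ × V))}
    (hev' : MeasurableSet {p : X × Finset (ℕ × V) | p.2 ∈ ev' p.1})
    (hevC : ∀ x, ∀ S ∈ ev' x, (∀ q ∈ S, q.2 ∈ 𝓑) ∧ ∀ c ∈ DS dm S, c ∈ C x) :
    (∀ S : Finset (ℕ × V), (∀ q ∈ S, q.2 ∈ 𝓑) → S.card ≤ N →
      cp (DS dm S) (BadS dm viol 𝓖 S) F T * ∏ b ∈ nbf (dmF dm F) (resB dm 𝓑 d N F) S,
        (1 + Γ ^ b.card * cp (DS dm b) (BadS dm viol 𝓖 b) F T) ≤
      2 * cp (DS dm S) (BadS dm viol 𝓖 S) F T) ∧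
    Good (dmF dm F) (violF dm viol F T) (resB dm 𝓑 d N F) {S | ∀ q ∈ S, q.2 ∈ 𝓑} C ev'
      ((d + 1) * N * Kc) (fun S => cp (DS dm S) (BadS dm viol 𝓖 S) F T)
      (fun S => Γ ^ S.card * cp (DS dm S) (BadS dm viol 𝓖 S) F T) (Γ ^ ((1 : ℝ) / 10)) (1 / 2) := by
  have hΓ0 : 0 < Γ := by have := hg.hΓ; linarith
  obtain ⟨g, hgd⟩ : ∃ g : Finset (ℕ × V) → ℝ, ∀ S, g S =
      cp (DS dm S) (BadS dm viol 𝓖 S) F T := ⟨_, fun _ => rfl⟩
  have hg0 : ∀ S, 0 ≤ g S := fun S => by rw [hgd]; exact cp_nonneg _ _ _ _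
  have hs0 : ∀ S : Finset (ℕ × V), 0 ≤ Γ ^ S.card * g S := fun S =>
    mul_nonneg (by positivity) (hg0 S)
  simp only [← hgd] at hM ⊢
  have hfin' : ∀ c, {S | S ∈ resB dm 𝓑 d N F ∧ c ∈ dmF dm F S}.Finite := by
    intro c
    refine ((hg.hfin c.1).biUnion (t := fun u => (A u : Set (Finset (ℕ × V)))) fun u _ =>
      (A u).finite_toSet).subset ?_
    rintro S ⟨h1, h2⟩
    obtain ⟨⟨q, hq, hx⟩, -⟩ := mem_DS.1 (Finset.mem_filter.1 h2).1
    simp only [mem_iUnion]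
    exact ⟨q.2, ⟨h1.1.1.2.1 q hq, hx⟩, (hA _ _).2 ⟨h1.1, q.1, hq⟩⟩
  have hsum : ∀ S : Finset (ℕ × V), (∀ q ∈ S, q.2 ∈ 𝓑) →
      ∑ b ∈ nbf (dmF dm F) (resB dm 𝓑 d N F) S, Γ ^ b.card * g b ≤
        ((d : ℝ) + 1) * S.card * ζ := by
    intro S hS
    calc ∑ b ∈ nbf (dmF dm F) (resB dm 𝓑 d N F) S, Γ ^ b.card * g b
        ≤ ∑ b ∈ ((S.image Prod.snd).biUnion (nbf dm 𝓑)).biUnion A, Γ ^ b.card * g b := by
          refine Finset.sum_le_sum_of_subset_of_nonneg (fun b hb => ?_) fun b _ _ => hs0 b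
          rw [mem_nbf hfin'] at hb
          exact res_cov hg hA hS hb.1 hb.2
      _ ≤ ∑ u ∈ (S.image Prod.snd).biUnion (nbf dm 𝓑), ∑ b ∈ A u, Γ ^ b.card * g b :=
          sum_biUnion_le3 _ _ hs0
      _ ≤ ∑ _u ∈ (S.image Prod.snd).biUnion (nbf dm 𝓑), ζ := Finset.sum_le_sum fun u _ => hM u
      _ = (((S.image Prod.snd).biUnion (nbf dm 𝓑)).card : ℝ) * ζ := by
          rw [Finset.sum_const, nsmul_eq_mul]
      _ ≤ ((d : ℝ) + 1) * S.card * ζ := by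
          refine mul_le_mul_of_nonneg_right ?_ hζ0
          have := cov_card hg hS
          exact_mod_cast this
  have hprod : ∀ S : Finset (ℕ × V), (∀ q ∈ S, q.2 ∈ 𝓑) →
      ∏ b ∈ nbf (dmF dm F) (resB dm 𝓑 d N F) S, (1 + Γ ^ b.card * g b) ≤
        Real.exp (((d : ℝ) + 1) * S.card * ζ) := by
    intro S hS
    exact (prod_le_exp _ fun b _ => hs0 b).trans (Real.exp_le_exp.2 (hsum S hS))
  have hsmall : ∀ S : Finset (ℕ × V), S.card ≤ N → ((d : ℝ) + 1) * S.card * ζ ≤ 1 / 2 := by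
    intro S hS
    refine le_trans (mul_le_mul_of_nonneg_right (mul_le_mul_of_nonneg_left ?_ ?_) hζ0) hζ2
    · exact_mod_cast hS
    · positivity
  refine ⟨?_, ?_⟩
  · intro S hS hSN
    have h1 := (hprod S hS).trans (Real.exp_le_exp.2 (hsmall S hSN))
    have h2 : Real.exp (1 / 2) ≤ 2 := by
      have h3 : Real.exp (1 / 2) * Real.exp (1 / 2) ≤ 2 * 2 := by
        rw [← Real.exp_add]
        norm_num
        linarith [Real.exp_one_lt_d9]
      exact (mul_self_le_mul_self_iff (Real.exp_pos _).le (by norm_num)).2 h3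
    calc g S * ∏ b ∈ nbf (dmF dm F) (resB dm 𝓑 d N F) S, (1 + Γ ^ b.card * g b)
        ≤ g S * 2 := mul_le_mul_of_nonneg_left (h1.trans h2) (hg0 S)
      _ = _ := mul_comm _ _
  · have hstr := str_meas hg.hB hg.hdm
    have hB' : MeasurableSet (resB dm 𝓑 d N F) := by
      have e : resB dm 𝓑 d N F = ({S | Str dm 𝓑 S} ∩ ({S | N ≤ 5 * (d + 1) * S.card} ∩
          {S | 4 * S.card ≤ N})) ∩ {S | ∃ c ∈ DS dm S, c ∈ F} := by
        ext S
        simp only [resB, mem_ofPred_eq, mem_inter_iff]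
      rw [e]
      refine MeasurableSet.inter (hstr.inter (MeasurableSet.inter ?_ ?_)) ?_
      · exact measurableSet_le measurable_const (scard_meas.const_mul _)
      · exact measurableSet_le (scard_meas.const_mul _) measurable_const
      · exact exists_mem_meas (F := fun S : Finset (ℕ × V) => DS dm S) (DS_meas hg.hdm)
          (P := fun _ c => c ∈ F) (measurable_snd hF)
    have hG' : MeasurableSet {S : Finset (ℕ × V) | ∀ q ∈ S, q.2 ∈ 𝓑} :=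
      forall_mem_meas (F := fun S : Finset (ℕ × V) => S) selfmem (P := fun _ q => q.2 ∈ 𝓑)
        ((by fun_prop : Measurable fun p : Finset (ℕ × V) × (ℕ × V) => p.2.2) hg.hB)
    refine ⟨hB', hG', fun S hS => hS.1.1.2.1, ?_, hfin', ?_, ?_, violF_loc hg.hloc F T, ?_,
      hg0, hs0, ?_, ?_, ?_, by norm_num, by norm_num, ?_, ?_, hC, hCf, hev', ?_⟩
    · have e : {p : Finset (ℕ × V) × (Y × ℕ) | p.2 ∈ dmF dm F p.1} =
          {p | p.2 ∈ DS dm p.1} ∩ {p | p.2 ∈ F} := by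
        ext p
        simp only [dmF, mem_ofPred_eq, Finset.mem_filter, mem_inter_iff]
      rw [e]
      exact (DS_meas hg.hdm).inter (measurable_snd hF)
    · intro S hS
      obtain ⟨c, hc, hcF⟩ := hS.2
      exact ⟨c, Finset.mem_filter.2 ⟨hc, hcF⟩⟩
    · intro Z _ _ f hf
      have h1 : Measurable fun p : Z × (Y × ℕ) => fillT F T (f p.1) p.2 :=
        Measurable.ite (measurable_snd hF) hf (hT.comp measurable_snd)
      exact badS_meas' hg.hB hg.hBG hg.hdm hg.hvm Z (fun z => fillT F T (f z)) h1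
    · intro S hS
      refine ⟨((S.image Prod.snd).biUnion (nbf dm 𝓑)).biUnion A, ?_, fun S' hS' hm =>
        res_cov hg hA hS.1.1.2.1 hS' hm⟩
      refine Finset.card_biUnion_le.trans ?_
      refine (Finset.sum_le_sum fun u _ => hKc u).trans ?_
      rw [Finset.sum_const, smul_eq_mul]
      have h1 := cov_card hg hS.1.1.2.1
      have h2 : S.card ≤ N := by
        have := hS.1.2.2
        omega
      calc ((S.image Prod.snd).biUnion (nbf dm 𝓑)).card * Kc ≤ ((d + 1) * N) * Kc :=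
            Nat.mul_le_mul_right _ (h1.trans (Nat.mul_le_mul_left _ h2))
        _ ≤ (d + 1) * N * Kc + 1 := Nat.le_succ _
    · intro S hS f₀
      rw [hgd]
      exact violF_prob hk hg.hloc F T (fun q hq => hg.hBG _ (hS q hq)) f₀
    · intro S hS
      obtain ⟨c, hc, -⟩ := hS.2
      obtain ⟨⟨q, hq, -⟩, -⟩ := mem_DS.1 hc
      have h1 : S ∈ A q.2 := (hA _ _).2 ⟨hS.1, q.1, hq⟩
      have h2 := Finset.single_le_sum (f := fun S => Γ ^ S.card * g S) (fun S _ => hs0 S) h1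
      exact (h2.trans (hM q.2)).trans hζ1
    · exact Real.one_lt_rpow hg.hΓ (by norm_num)
    · intro S hS
      have h1 := hprod S hS.1.1.2.1
      obtain ⟨c, hc, -⟩ := hS.2
      obtain ⟨⟨q, hq, -⟩, -⟩ := mem_DS.1 hc
      have hcard : 1 ≤ S.card := Finset.card_pos.2 ⟨q, hq⟩
      have hΓ' : 0 ≤ Γ ^ ((1 : ℝ) / 10) := by positivity
      have h10 : (Γ ^ ((1 : ℝ) / 10)) ^ 10 = Γ := by
        rw [← Real.rpow_natCast, ← Real.rpow_mul hΓ0.le]
        norm_num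
      have h2 : (Γ ^ ((1 : ℝ) / 10)) ^ 5 * Real.exp (((d : ℝ) + 1) * S.card * ζ) ≤
          Γ ^ S.card := by
        refine (mul_self_le_mul_self_iff (by positivity) (by positivity)).2 ?_
        calc (Γ ^ ((1 : ℝ) / 10)) ^ 5 * Real.exp (((d : ℝ) + 1) * S.card * ζ) *
              ((Γ ^ ((1 : ℝ) / 10)) ^ 5 * Real.exp (((d : ℝ) + 1) * S.card * ζ))
            = (Γ ^ ((1 : ℝ) / 10)) ^ 10 * Real.exp (2 * ((d : ℝ) + 1) * ζ) ^ S.card := by
              rw [← Real.exp_nat_mul, show (S.card : ℝ) * (2 * ((d : ℝ) + 1) * ζ) =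
                ((d : ℝ) + 1) * S.card * ζ + ((d : ℝ) + 1) * S.card * ζ by ring, Real.exp_add]
              ring
          _ ≤ Γ * Γ ^ S.card := by
              rw [h10]
              exact mul_le_mul_of_nonneg_left
                (pow_le_pow_left₀ (Real.exp_pos _).le hζ3 _) hΓ0.le
          _ ≤ Γ ^ S.card * Γ ^ S.card := by
              refine mul_le_mul_of_nonneg_right ?_ (by positivity)
              calc Γ = Γ ^ 1 := (pow_one _).symm
                _ ≤ Γ ^ S.card := pow_le_pow_right₀ hg.hΓ.le hcard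
      calc (Γ ^ ((1 : ℝ) / 10)) ^ 5 * g S *
            ∏ b ∈ nbf (dmF dm F) (resB dm 𝓑 d N F) S, (1 + Γ ^ b.card * g b)
          ≤ (Γ ^ ((1 : ℝ) / 10)) ^ 5 * g S * Real.exp (((d : ℝ) + 1) * S.card * ζ) :=
            mul_le_mul_of_nonneg_left h1 (mul_nonneg (by positivity) (hg0 S))
        _ = ((Γ ^ ((1 : ℝ) / 10)) ^ 5 * Real.exp (((d : ℝ) + 1) * S.card * ζ)) * g S := by ring
        _ ≤ Γ ^ S.card * g S := mul_le_mul_of_nonneg_right h2 (hg0 S)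
    · intro S hS
      have h1 := hsum S hS.1.1.2.1
      have h2 : S.card ≤ N := by
        have := hS.1.2.2
        omega
      have h3 := hsmall S h2
      have h4 := hs0 S
      linarith
    · intro x S hS
      exact ⟨(hevC x S hS).1, fun c hc => (hevC x S hS).2 c (Finset.mem_filter.1 hc).1⟩

end

end Pool.Agent.Helper105
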