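import Mathlib
import Pool.Agent.Helper105_All.Resid

set_option autoImplicit false

namespace Pool.Agent.Helper105

open MeasureTheory Set
open scoped Classical

attribute [-instance] Finset.instMeasurableSpace
attribute [local instance] finsetBorel sb_finset

universe u

section
variable {Y V : Type u} {k : ℕ} {dm : V → Finset Y} {viol : V → (Y → Fin k) → Prop}

/-- structures with a given top. -/
def StrB (dm : V → Finset Y) (𝓑 : Set V) (a : V) (t : ℕ) (S : Finset (ℕ × V)) : Prop :=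
  (∀ u, (0, u) ∈ S ↔ u = a) ∧
    (∀ j u, (j + 1, u) ∈ S → u ∈ 𝓑 ∧ ∃ w ∈ 𝓑, meets dm w a ∧ Bl dm 𝓑 t w u) ∧
    (∀ j u, (j + 1, u) ∈ S → ∃ u', (j, u') ∈ S ∧ meets dm u u') ∧
    (∀ q ∈ S, ∀ q' ∈ S, q.1 = q'.1 → meets dm q.2 q'.2 → q = q') ∧ ∀ q ∈ S, q.1 ≤ t

theorem cons_iff_lcons' (hloc : ∀ v f g, (∀ x ∈ dm v, f x = g x) → (viol v f ↔ viol v g))
    {l : List V} (a : V) (hne : ∀ u ∈ l, (dm u).Nonempty) (T : Y × ℕ → Fin k) :
    Cons dm viol (l ++ [a]) T ↔ LCons dm viol (Lay dm (l ++ [a])) T := by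
  induction l generalizing T with
  | nil =>
    have e : ∀ x, (({(0, a)} : Finset (ℕ × V)).filter fun q => 0 < q.1 ∧ x ∈ dm q.2) = ∅ := by
      intro x
      rw [Finset.filter_eq_empty_iff]
      intro q hq h
      rw [Finset.mem_singleton] at hq
      rw [hq] at h
      exact lt_irrefl _ h.1
    simp [Cons, LCons, Lay, cnt', e]
  | cons w l ih =>
    have hne' : ∀ u ∈ l, (dm u).Nonempty := fun u hu => hne u (List.mem_cons_of_mem _ hu)
    obtain ⟨l₁, hl₁⟩ : ∃ l₁, l₁ = l ++ [a] := ⟨_, rfl⟩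
    rw [List.cons_append, ← hl₁]
    rw [← hl₁] at ih
    obtain ⟨h, hh⟩ : ∃ h, h = ((Lay dm l₁).filter (fun q => meets dm w q.2)).sup
        (fun q => q.1 + 1) := ⟨_, rfl⟩
    have hlt : ∀ q ∈ Lay dm l₁, meets dm w q.2 → q.1 < h := by
      intro q hq hm
      rw [hh]; exact lay_lt hq hm
    have hnm : (h, w) ∉ Lay dm l₁ := by
      rw [hh]; exact lay_notMem (hne w (by simp)) l₁
    have e : Lay dm (w :: l₁) = insert (h, w) (Lay dm l₁) := by rw [Lay, hh]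
    rw [e]
    simp only [Cons, ih hne', LCons, Finset.forall_mem_insert]
    refine and_congr (hloc _ _ _ fun x hx => ?_) (forall₂_congr fun q hq =>
      hloc _ _ _ fun x hx => ?_)
    · have : (insert (h, w) (Lay dm l₁)).filter (fun q' => h < q'.1 ∧ x ∈ dm q'.2) = ∅ := by
        rw [Finset.filter_eq_empty_iff]
        intro q hq
        rw [Finset.mem_insert] at hq
        rintro ⟨h1, h2⟩
        rcases hq with rfl | hq
        · exact lt_irrefl _ h1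
        · exact lt_asymm h1 (hlt q hq ⟨x, hx, h2⟩)
      simp only [this, Finset.card_empty]
    · simp only [sh]
      congr 2
      rw [Finset.filter_insert]
      by_cases hxw : x ∈ dm w
      · have h1 : q.1 < h := hlt q hq ⟨x, hxw, hx⟩
        rw [if_pos ⟨h1, hxw⟩, Finset.card_insert_of_notMem]
        · simp [ix, hxw]
        · intro hc
          exact hnm (Finset.mem_filter.1 hc).1
      · rw [if_neg fun hc => hxw hc.2]
        simp [ix, hxw]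

theorem cp_one {Z : Type*} {D : Finset Z} {Bad : (Z → Fin k) → Prop} (hk : 0 < k) {F : Set Z}
    {T : Z → Fin k} (h : ∀ T', (∀ y, y ∉ D.filter (· ∈ F) → T' y = T y) → Bad T') :
    cp D Bad F T = 1 := by
  have hk' : (0 : ℝ) < k := by exact_mod_cast hk
  unfold cp
  rw [Finset.filter_true_of_mem fun T' hT' => h T' (mem_Tab.1 hT'), card_Tab]
  push_cast
  exact div_self (by positivity)

theorem g_one (hk : 0 < k) (hloc : ∀ v f g, (∀ x ∈ dm v, f x = g x) → (viol v f ↔ viol v g))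
    {𝓖 : Set V} {l : List V} {a : V} (hne : ∀ u ∈ l, (dm u).Nonempty)
    (hG : ∀ u ∈ l ++ [a], u ∈ 𝓖) {T : Y × ℕ → Fin k} {F : Set (Y × ℕ)}
    (hC : Cons dm viol (l ++ [a]) T)
    (hF : ∀ z r, r < cnt' dm (l ++ [a]) z → (z, r) ∉ F) :
    cp (DS dm (Lay dm (l ++ [a]))) (BadS dm viol 𝓖 (Lay dm (l ++ [a]))) F T = 1 := by
  refine cp_one hk fun T' hT' => ⟨fun q hq => hG q.2 (lay_mem hq), ?_⟩
  rw [← cons_iff_lcons' hloc a hne]
  refine (cons_congr hloc fun z r hr => ?_).1 hC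
  exact (hT' _ fun h => hF z r hr (Finset.mem_filter.1 h).2).symm

theorem g_one' (hk : 0 < k) (hloc : ∀ v f g, (∀ x ∈ dm v, f x = g x) → (viol v f ↔ viol v g))
    {𝓖 : Set V} {S : Finset (ℕ × V)} (hS : ∀ q ∈ S, q.2 ∈ 𝓖) {T g : Y × ℕ → Fin k}
    {F : Set (Y × ℕ)} (hC : LCons dm viol S (fillT F T g)) (hF : ∀ c ∈ DS dm S, c ∉ F) :
    cp (DS dm S) (BadS dm viol 𝓖 S) F T = 1 := by
  refine cp_one hk fun T' hT' => ⟨hS, ?_⟩
  refine (lcons_congr hloc fun q hq x hx r hr => ?_).1 hC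
  have hc : (x, r) ∈ DS dm S := mem_DS.2 ⟨⟨q, hq, hx⟩, hr⟩
  have h1 := hF _ hc
  rw [hT' _ fun h => h1 (Finset.mem_filter.1 h).2]
  simp [fillT, h1]

end

section
variable {X Y V : Type u} [MeasurableSpace X] [StandardBorelSpace X] [MeasurableSpace Y]
  [StandardBorelSpace Y] [MeasurableSpace V] [StandardBorelSpace V] {k : ℕ}
  {dm : V → Finset Y} {viol : V → (Y → Fin k) → Prop} {𝓑 𝓖 : Set V} {Lam : X → Finset Y}
  {ev : X → Finset V} {d : ℕ} {P s : V → ℝ} {Γ r : ℝ}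

/-- the run after `t` steps, as a function of the filling. -/
noncomputable def PsiF (dm : V → Finset Y) (viol : V → (Y → Fin k) → Prop) (𝓑 : Set V)
    (c : V → ℕ) (χ : ℕ) (F : Set (Y × ℕ)) (T : Y × ℕ → Fin k) (t : ℕ) (g : Y × ℕ → Fin k) :
    Y → Fin k := stt dm viol 𝓑 c χ (fillT F T g) t

theorem rw_region (hg : Good dm viol 𝓑 𝓖 Lam ev d P s Γ r) {c : V → ℕ} {χ : ℕ} {x : X} {n : ℕ}
    {T T' : Y × ℕ → Fin k}
    (hT : ∀ y, YR dm 𝓑 (Lam x) n y → ∀ r ≤ n, T (y, r) = T' (y, r)) {y : Y} (hy : y ∈ Lam x) :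
    rw dm viol 𝓑 c χ T n y = rw dm viol 𝓑 c χ T' n y := by
  refine rw_local (B := fun i => {y | i ≤ n ∧ YR dm 𝓑 (Lam x) (n - i) y}) (n := n) ?_ ?_ hg.hloc
    ?_ n le_rfl y ⟨le_rfl, Or.inl hy⟩
  · rintro i v hv ⟨z, hz, hi, hzB⟩ y' hy'
    have := yr_step hg.hne hv ⟨z, hz, hzB⟩ y' hy'
    rw [show n - (i + 1) + 1 = n - i by omega] at this
    exact ⟨by omega, this⟩
  · rintro i z ⟨h1, h2⟩
    exact ⟨by omega, yr_mono hg.hne (by omega) h2⟩
  · rintro z ⟨-, hz⟩ r hr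
    exact hT z (by simpa using hz) r hr

/-- late violations give large pyramids; a filling without residual violations has none. -/
theorem late (hk : 0 < k) (hg : Good dm viol 𝓑 𝓖 Lam ev d P s Γ r) {N : ℕ} (hN16 : 16 ≤ N)
    {A : V → Finset (Finset (ℕ × V))} (hA : ∀ v S, S ∈ A v ↔
      (Str dm 𝓑 S ∧ (N ≤ 5 * (d + 1) * S.card ∧ 4 * S.card ≤ N)) ∧ ∃ j, (j, v) ∈ S)
    {T : Y × ℕ → Fin k} {F : Set (Y × ℕ)} {ζ : ℝ} (hζ1 : ζ < 1)
    (hM : ∀ v, ∑ S ∈ A v, Γ ^ S.card * cp (DS dm S) (BadS dm viol 𝓖 S) F T ≤ ζ)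
    {c : V → ℕ} {χ : ℕ} (hc : ∀ u ∈ 𝓑, ∀ v ∈ 𝓑, u ≠ v → meets dm u v → c u ≠ c v)
    {x : X} {C : Finset (Y × ℕ)} {R : ℕ} (hC : ∀ c, c ∈ C ↔ YR dm 𝓑 (Lam x) R c.1 ∧ c.2 < R)
    {g : Y × ℕ → Fin k} (hgB : ∀ S ∈ resB dm 𝓑 d N F, (∃ c ∈ dmF dm F S, c ∈ C) →
      ¬ violF dm viol F T S g) {t : ℕ} (htR : t + 1 ≤ R) (hNR : N ≤ R) {v : V} (hv : v ∈ 𝓑)
    (hvx : ∃ z ∈ dm v, z ∈ Lam x) (hviol : viol v (stt dm viol 𝓑 c χ (fillT F T g) t)) :
    ∃ l : List V, (∀ u ∈ l, u ∈ 𝓑) ∧ Pyr dm v (l ++ [v]) ∧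
      Cons dm viol (l ++ [v]) (fillT F T g) ∧
      l.length = (logf dm viol 𝓑 c χ (fillT F T g) t (dm v)).length ∧
      5 * (d + 1) * (l ++ [v]).length < N := by
  obtain ⟨l, h1, h2, h3, h4, h5, h6, h7⟩ := run_pyr (χ := χ) hg.hloc hg.hfin hg.hne hc
    (fillT F T g) t hviol
  refine ⟨l, h1, h2, h3, h7, ?_⟩
  by_contra hcon
  push Not at hcon
  have hlB : ∀ u ∈ l ++ [v], u ∈ 𝓑 := by
    intro u hu
    rw [List.mem_append, List.mem_singleton] at hu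
    rcases hu with hu | rfl
    · exact h1 u hu
    · exact hv
  have hlY : ∀ u ∈ l ++ [v], ∀ z ∈ dm u, YR dm 𝓑 (Lam x) R z := by
    intro u hu z hz
    rw [List.mem_append, List.mem_singleton] at hu
    rcases hu with hu | rfl
    · obtain ⟨w, hw, hm, hb⟩ := h4 u hu
      have h8 := bl_trans (bl_one hw hm : Bl dm 𝓑 1 v w) hb
      exact Or.inr ⟨v, hv, hvx, u, bl_mono hg.hne (by omega) hv h8, hz⟩
    · exact Or.inr ⟨u, hv, hvx, u, bl_mono hg.hne (Nat.zero_le _) hv rfl, hz⟩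
  obtain ⟨v', l', h8, h9, h10, h11, h12⟩ := window_sub hg.hloc hg.hne hN16 hg.hdeg
    _ v (l ++ [v]) rfl h2 hlB h3 hcon
  have hl'B : ∀ u ∈ l', u ∈ 𝓑 := fun u hu => hlB u (h8.subset hu)
  have hl'ne : ∀ u ∈ l', (dm u).Nonempty := fun u hu => hg.hne u (hl'B u hu)
  have hcard := lay_card (dm := dm) hl'ne
  have hSA : Lay dm l' ∈ A v' := by
    rw [hA, hcard]
    exact ⟨⟨lay_str h9 hl'B, h11, h12⟩, mem_lay (pyr_mem h9)⟩
  have hLC : LCons dm viol (Lay dm l') (fillT F T g) := (cons_iff_lcons hg.hloc hl'ne _).1 h10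
  by_cases hex : ∃ c ∈ DS dm (Lay dm l'), c ∈ F
  · obtain ⟨c', hc', hcF⟩ := hex
    refine hgB (Lay dm l') ⟨((hA _ _).1 hSA).1, c', hc', hcF⟩
      ⟨c', Finset.mem_filter.2 ⟨hc', hcF⟩, (hC _).2 ?_⟩ hLC
    obtain ⟨⟨q, hq, hz⟩, hr⟩ := mem_DS.1 hc'
    rw [hcard] at hr
    exact ⟨hlY q.2 (h8.subset (lay_mem hq)) c'.1 hz, by omega⟩
  · push Not at hex
    have h13 := g_one' hk hg.hloc (𝓖 := 𝓖) (fun q hq => hg.hBG _ (hl'B _ (lay_mem hq))) hLC hex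
    have h14 := hM v'
    have hΓ0 : 0 < Γ := by have := hg.hΓ; linarith
    have h15 := Finset.single_le_sum (f := fun S => Γ ^ S.card *
      cp (DS dm S) (BadS dm viol 𝓖 S) F T) (fun S _ => mul_nonneg (by positivity)
        (cp_nonneg _ _ _ _)) hSA
    simp only [h13, mul_one] at h15
    have h16 : (1 : ℝ) ≤ Γ ^ (Lay dm l').card := one_le_pow₀ hg.hΓ.le
    linarith

end

end Pool.Agent.Helper105
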