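import Mathlib
import Pool.Agent.Helper105_All.Det

set_option autoImplicit false

namespace Pool.Agent.Helper105

open MeasureTheory Set
open scoped Classical

attribute [-instance] Finset.instMeasurableSpace
attribute [local instance] finsetBorel sb_finset

universe u

section
variable {X Y V : Type u} [MeasurableSpace X] [StandardBorelSpace X] [MeasurableSpace Y]
  [StandardBorelSpace Y] [MeasurableSpace V] [StandardBorelSpace V] {k : ℕ}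
  {dm : V → Finset Y} {viol : V → (Y → Fin k) → Prop} {𝓑 𝓖 : Set V} {Lam : X → Finset Y}
  {ev : X → Finset V} {d : ℕ} {P s : V → ℝ} {Γ r : ℝ}

/-- at a good point nothing is violated at time `t`. -/
theorem p1 (hk : 0 < k) (hg : Good dm viol 𝓑 𝓖 Lam ev d P s Γ r) {N : ℕ} (hN16 : 16 ≤ N)
    {A : V → Finset (Finset (ℕ × V))} (hA : ∀ v S, S ∈ A v ↔
      (Str dm 𝓑 S ∧ (N ≤ 5 * (d + 1) * S.card ∧ 4 * S.card ≤ N)) ∧ ∃ j, (j, v) ∈ S)
    {T : Y × ℕ → Fin k} {F : Set (Y × ℕ)} {ζ : ℝ} (hζ1 : ζ < 1)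
    (hM : ∀ v, ∑ S ∈ A v, Γ ^ S.card * cp (DS dm S) (BadS dm viol 𝓖 S) F T ≤ ζ)
    {c : V → ℕ} {χ : ℕ} (hχ : 0 < χ) (hcχ : ∀ v ∈ 𝓑, c v < χ)
    (hc : ∀ u ∈ 𝓑, ∀ v ∈ 𝓑, u ≠ v → meets dm u v → c u ≠ c v)
    {x : X} {ρ t : ℕ} (ht : χ * ρ ≤ t)
    (hReg : ∀ z r, YR dm 𝓑 (Lam x) (t + 2) z → r < t + 2 → (z, r) ∉ F)
    {E1 : Finset (Finset (ℕ × V))}
    (hE1 : ∀ S, (Str dm 𝓑 S ∧ ρ + 1 ≤ S.card ∧ 5 * (d + 1) * S.card < N) →
      (∃ v, (0, v) ∈ S ∧ ∃ z ∈ dm v, z ∈ Lam x) → S ∈ E1)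
    (hs1 : ∑ S ∈ E1, cp (DS dm S) (BadS dm viol 𝓖 S) F T < 1)
    {E2 : Finset (Finset (ℕ × V))} (hE2 : ∀ a ∈ ev x, ∀ S, StrB dm 𝓑 a t S → S ∈ E2)
    (hs2 : ∑ S ∈ E2, cp (DS dm S) (BadS dm viol 𝓖 S) F T < 1) :
    (∀ v ∈ 𝓑, (∃ z ∈ dm v, z ∈ Lam x) → ¬ viol v (stt dm viol 𝓑 c χ T t)) ∧
      ∀ a ∈ ev x, ¬ viol a (stt dm viol 𝓑 c χ T t) := by
  have hsingle : ∀ (E : Finset (Finset (ℕ × V))) S, S ∈ E →
      cp (DS dm S) (BadS dm viol 𝓖 S) F T = 1 →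
      ¬ (∑ S ∈ E, cp (DS dm S) (BadS dm viol 𝓖 S) F T < 1) := by
    intro E S hS h1 h2
    have := Finset.single_le_sum (f := fun S => cp (DS dm S) (BadS dm viol 𝓖 S) F T)
      (fun S _ => cp_nonneg _ _ _ _) hS
    simp only [h1] at this
    linarith
  refine ⟨?_, ?_⟩
  · intro v hv hvx hviol
    obtain ⟨l, h1, h2, h3, h4, h5, h6, h7⟩ := run_pyr (χ := χ) hg.hloc hg.hfin hg.hne hc T t
      hviol
    have hlB : ∀ u ∈ l ++ [v], u ∈ 𝓑 := by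
      intro u hu
      rw [List.mem_append, List.mem_singleton] at hu
      rcases hu with hu | rfl
      · exact h1 u hu
      · exact hv
    have hlY : ∀ u ∈ l ++ [v], ∀ z ∈ dm u, YR dm 𝓑 (Lam x) (t + 2) z := by
      intro u hu z hz
      rw [List.mem_append, List.mem_singleton] at hu
      rcases hu with hu | rfl
      · obtain ⟨w, hw, hm, hb⟩ := h4 u hu
        have h8 := bl_trans (bl_one hw hm : Bl dm 𝓑 1 v w) hb
        exact Or.inr ⟨v, hv, hvx, u, bl_mono hg.hne (by omega) hv h8, hz⟩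
      · exact Or.inr ⟨u, hv, hvx, u, bl_mono hg.hne (Nat.zero_le _) hv rfl, hz⟩
    have hsz := logf_size (χ := χ) hg.hloc hg.hfin hχ hcχ hg.hne T ρ t ht v hv hviol
    rw [← h7] at hsz
    have key : ∀ v' l', Pyr dm v' l' → List.Sublist l' (l ++ [v]) → Cons dm viol l' T →
        cp (DS dm (Lay dm l')) (BadS dm viol 𝓖 (Lay dm l')) F T = 1 := by
      intro v' l' hp hsub hcons
      obtain ⟨l'', rfl, -⟩ := pyr_split hp
      refine g_one hk hg.hloc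
        (fun u hu => hg.hne u (hlB u (hsub.subset (List.mem_append_left _ hu))))
        (fun u hu => hg.hBG _ (hlB u (hsub.subset hu))) hcons ?_
      intro z r hr
      obtain ⟨u, hu, hzu⟩ := cnt_pos (lt_of_le_of_lt (Nat.zero_le _) hr)
      refine hReg z r (hlY u (hsub.subset hu) z hzu) ?_
      have h8 := cnt_sublist (dm := dm) hsub z
      have h9 := h5 z
      omega
    by_cases hbig : N ≤ 5 * (d + 1) * (l ++ [v]).length
    · obtain ⟨v', l', h8, h9, h10, h11, h12⟩ := window_sub hg.hloc hg.hne hN16 hg.hdeg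
        _ v (l ++ [v]) rfl h2 hlB h3 hbig
      have hl'B : ∀ u ∈ l', u ∈ 𝓑 := fun u hu => hlB u (h8.subset hu)
      have hl'ne : ∀ u ∈ l', (dm u).Nonempty := fun u hu => hg.hne u (hl'B u hu)
      have hcard := lay_card (dm := dm) hl'ne
      have hSA : Lay dm l' ∈ A v' := by
        rw [hA, hcard]
        exact ⟨⟨lay_str h9 hl'B, h11, h12⟩, mem_lay (pyr_mem h9)⟩
      have h13 := key v' l' h9 h8 h10
      have h14 := hM v'
      have hΓ0 : 0 < Γ := by have := hg.hΓ; linarith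
      have h15 := Finset.single_le_sum (f := fun S => Γ ^ S.card *
        cp (DS dm S) (BadS dm viol 𝓖 S) F T) (fun S _ => mul_nonneg (by positivity)
          (cp_nonneg _ _ _ _)) hSA
      simp only [h13, mul_one] at h15
      have h16 : (1 : ℝ) ≤ Γ ^ (Lay dm l').card := one_le_pow₀ hg.hΓ.le
      linarith
    · push Not at hbig
      have hcard := lay_card (dm := dm) (l := l ++ [v]) (fun u hu => hg.hne u (hlB u hu))
      refine hsingle E1 (Lay dm (l ++ [v])) (hE1 _ ⟨lay_str h2 hlB, ?_, ?_⟩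
        ⟨v, (lay_zero h2 v).2 rfl, hvx⟩) (key v _ h2 (List.Sublist.refl _) h3) hs1
      · rw [hcard, List.length_append, List.length_singleton]; omega
      · rw [hcard]; exact hbig
  · intro a ha hviol
    obtain ⟨l, h1, h2, h3, h4, h5, h6, h7⟩ := run_pyr (χ := χ) hg.hloc hg.hfin hg.hne hc T t
      hviol
    have haL := hg.hevG x a ha
    have hlY : ∀ u ∈ l ++ [a], ∀ z ∈ dm u, YR dm 𝓑 (Lam x) (t + 2) z := by
      intro u hu z hz
      rw [List.mem_append, List.mem_singleton] at hu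
      rcases hu with hu | rfl
      · obtain ⟨w, hw, ⟨z', hz', hz''⟩, hb⟩ := h4 u hu
        exact Or.inr ⟨w, hw, ⟨z', hz', haL.2 z' hz''⟩, u, bl_mono hg.hne (by omega) hw hb, hz⟩
      · exact Or.inl (haL.2 z hz)
    refine hsingle E2 (Lay dm (l ++ [a])) (hE2 a ha _ ⟨fun u => lay_zero h2 u, ?_,
      fun j u hu => lay_succ hu, lay_indep, h6⟩) (g_one hk hg.hloc
        (fun u hu => hg.hne u (h1 u hu)) ?_ h3 ?_) hs2
    · intro j u hu
      rcases lay_last _ hu with h | h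
      · simp at h
      · exact ⟨h1 u h, h4 u h⟩
    · intro u hu
      rw [List.mem_append, List.mem_singleton] at hu
      rcases hu with hu | rfl
      · exact hg.hBG u (h1 u hu)
      · exact haL.1
    · intro z r hr
      obtain ⟨u, hu, hzu⟩ := cnt_pos (lt_of_le_of_lt (Nat.zero_le _) hr)
      refine hReg z r (hlY u hu z hzu) ?_
      have := h5 z
      omega

/-- the next level does not change good points. -/
theorem p2 (hk : 0 < k) (hg : Good dm viol 𝓑 𝓖 Lam ev d P s Γ r) {N : ℕ} (hN16 : 16 ≤ N)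
    {A : V → Finset (Finset (ℕ × V))} (hA : ∀ v S, S ∈ A v ↔
      (Str dm 𝓑 S ∧ (N ≤ 5 * (d + 1) * S.card ∧ 4 * S.card ≤ N)) ∧ ∃ j, (j, v) ∈ S)
    {T : Y × ℕ → Fin k} {F : Set (Y × ℕ)} {ζ : ℝ} (hζ1 : ζ < 1)
    (hM : ∀ v, ∑ S ∈ A v, Γ ^ S.card * cp (DS dm S) (BadS dm viol 𝓖 S) F T ≤ ζ)
    {c : V → ℕ} {χ : ℕ} (hχ : 0 < χ) (hcχ : ∀ v ∈ 𝓑, c v < χ)
    (hc : ∀ u ∈ 𝓑, ∀ v ∈ 𝓑, u ≠ v → meets dm u v → c u ≠ c v)
    {x : X} {ρ t ts : ℕ} (ht : χ * ρ ≤ t) (hts : t ≤ ts)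
    (hReg : ∀ z r, YR dm 𝓑 (Lam x) (t + 2) z → r < t + 2 → (z, r) ∉ F)
    {C : Finset (Y × ℕ)} {R : ℕ} (hC : ∀ c, c ∈ C ↔ YR dm 𝓑 (Lam x) R c.1 ∧ c.2 < R)
    (htR : ts + 1 ≤ R) (hNR : N ≤ R) {E1 : Finset (Finset (ℕ × V))}
    (hE1 : ∀ S, (Str dm 𝓑 S ∧ ρ + 1 ≤ S.card ∧ 5 * (d + 1) * S.card < N) →
      (∃ v, (0, v) ∈ S ∧ ∃ z ∈ dm v, z ∈ Lam x) → S ∈ E1)
    {g : Y × ℕ → Fin k} (hgB : ∀ S ∈ resB dm 𝓑 d N F, (∃ c ∈ dmF dm F S, c ∈ C) →
      ¬ violF dm viol F T S g) (hgE : ∀ S ∈ E1, ¬ violF dm viol F T S g) :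
    ∀ y ∈ Lam x, PsiF dm viol 𝓑 c χ F T ts g y = stt dm viol 𝓑 c χ T t y := by
  intro y hy
  have hfill : ∀ z, YR dm 𝓑 (Lam x) (t + 1) z → ∀ r ≤ t + 1,
      fillT F T g (z, r) = T (z, r) := by
    intro z hz r hr
    unfold fillT
    rw [if_neg (hReg z r (yr_mono hg.hne (by omega) hz) (by omega))]
  have h1 := rw_region hg (c := c) (χ := χ) (n := t) (T := fillT F T g) (T' := T)
    (fun z hz r hr => hfill z (yr_mono hg.hne (by omega) hz) r (by omega)) hy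
  have h2 : rw dm viol 𝓑 c χ (fillT F T g) ts y = rw dm viol 𝓑 c χ (fillT F T g) t y := by
    by_contra hne
    obtain ⟨τ, h3, h4, u, hu, hyu, hcu, hvu⟩ := rw_change _ hts y hne
    obtain ⟨l, h5, h6, h7, h8, h9⟩ := late hk hg hN16 hA hζ1 hM hc hC hgB (t := τ) (by omega)
      hNR hu ⟨y, hyu, hy⟩ hvu
    have h10 := logf_size (χ := χ) hg.hloc hg.hfin hχ hcχ hg.hne (fillT F T g) ρ τ
      (ht.trans h3) u hu hvu
    rw [← h8] at h10
    have hlB : ∀ w ∈ l ++ [u], w ∈ 𝓑 := by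
      intro w hw
      rw [List.mem_append, List.mem_singleton] at hw
      rcases hw with hw | rfl
      · exact h5 w hw
      · exact hu
    have hlne : ∀ w ∈ l ++ [u], (dm w).Nonempty := fun w hw => hg.hne w (hlB w hw)
    have hcard := lay_card (dm := dm) (l := l ++ [u]) hlne
    refine hgE (Lay dm (l ++ [u])) (hE1 _ ⟨lay_str h6 hlB, ?_, ?_⟩
      ⟨u, (lay_zero h6 u).2 rfl, y, hyu, hy⟩) ?_
    · rw [hcard, List.length_append, List.length_singleton]; omega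
    · rw [hcard]; exact h9
    · exact (cons_iff_lcons hg.hloc hlne _).1 h7
  unfold PsiF stt
  rw [h2, h1]
  exact hfill y (Or.inl hy) _ ((rw_le T t y).trans (by omega))

/-- the run with a good filling has no violations at the end. -/
theorem p3 (hk : 0 < k) (hg : Good dm viol 𝓑 𝓖 Lam ev d P s Γ r) {N : ℕ} (hN16 : 16 ≤ N)
    {A : V → Finset (Finset (ℕ × V))} (hA : ∀ v S, S ∈ A v ↔
      (Str dm 𝓑 S ∧ (N ≤ 5 * (d + 1) * S.card ∧ 4 * S.card ≤ N)) ∧ ∃ j, (j, v) ∈ S)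
    {T : Y × ℕ → Fin k} {F : Set (Y × ℕ)} {ζ : ℝ} (hζ1 : ζ < 1)
    (hM : ∀ v, ∑ S ∈ A v, Γ ^ S.card * cp (DS dm S) (BadS dm viol 𝓖 S) F T ≤ ζ)
    {c : V → ℕ} {χ : ℕ} (hχ : 0 < χ) (hcχ : ∀ v ∈ 𝓑, c v < χ)
    (hc : ∀ u ∈ 𝓑, ∀ v ∈ 𝓑, u ≠ v → meets dm u v → c u ≠ c v)
    {x : X} {ts : ℕ} (hts : χ * N ≤ ts)
    {C : Finset (Y × ℕ)} {R : ℕ} (hC : ∀ c, c ∈ C ↔ YR dm 𝓑 (Lam x) R c.1 ∧ c.2 < R)
    (htR : ts + 1 ≤ R) (hNR : N ≤ R)
    {g : Y × ℕ → Fin k} (hgB : ∀ S ∈ resB dm 𝓑 d N F, (∃ c ∈ dmF dm F S, c ∈ C) →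
      ¬ violF dm viol F T S g) :
    ∀ v ∈ 𝓑, (∃ z ∈ dm v, z ∈ Lam x) → ¬ viol v (PsiF dm viol 𝓑 c χ F T ts g) := by
  intro v hv hvx hviol
  obtain ⟨l, h5, h6, h7, h8, h9⟩ := late hk hg hN16 hA hζ1 hM hc hC hgB (t := ts) htR hNR hv hvx
    hviol
  have h10 := logf_size (χ := χ) hg.hloc hg.hfin hχ hcχ hg.hne (fillT F T g) N ts hts v hv hviol
  rw [← h8] at h10
  rw [List.length_append, List.length_singleton] at h9
  have h11 : l.length + 1 ≤ 5 * (d + 1) * (l.length + 1) :=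
    Nat.le_mul_of_pos_left _ (by omega)
  omega

/-- locality. -/
theorem p4 (hg : Good dm viol 𝓑 𝓖 Lam ev d P s Γ r) {T : Y × ℕ → Fin k} {F : Set (Y × ℕ)}
    {c : V → ℕ} {χ : ℕ} {x : X} {ts : ℕ} {C : Finset (Y × ℕ)} {R : ℕ}
    (hC : ∀ c, c ∈ C ↔ YR dm 𝓑 (Lam x) R c.1 ∧ c.2 < R) (htR : ts + 1 ≤ R)
    {g₁ g₂ : Y × ℕ → Fin k} (h : ∀ c ∈ C, g₁ c = g₂ c) :
    ∀ y ∈ Lam x, PsiF dm viol 𝓑 c χ F T ts g₁ y = PsiF dm viol 𝓑 c χ F T ts g₂ y := by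
  intro y hy
  have hfill : ∀ z, YR dm 𝓑 (Lam x) ts z → ∀ r ≤ ts,
      fillT F T g₁ (z, r) = fillT F T g₂ (z, r) := by
    intro z hz r hr
    unfold fillT
    split_ifs
    · exact h _ ((hC _).2 ⟨yr_mono hg.hne (by omega) hz, by omega⟩)
    · rfl
  have h1 := rw_region hg (c := c) (χ := χ) (n := ts) hfill hy
  unfold PsiF stt
  rw [h1]
  exact hfill y (Or.inl hy) _ (rw_le _ _ _)

theorem psi_meas (hg : Good dm viol 𝓑 𝓖 Lam ev d P s Γ r) {T : Y × ℕ → Fin k}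
    (hT : Measurable T) {F : Set (Y × ℕ)} (hF : MeasurableSet F)
    {c : V → ℕ} (hc : Measurable c) (χ : ℕ) (ts : ℕ) {g : Y × ℕ → Fin k} (hg' : Measurable g) :
    Measurable (PsiF dm viol 𝓑 c χ F T ts g) := by
  have hvm : ∀ f : Y → Fin k, Measurable f → MeasurableSet {v | v ∈ 𝓑 ∧ viol v f} := by
    intro f hf
    have h1 := hg.hvm Y (fun _ => f) (hf.comp measurable_snd)
    have e : {v | v ∈ 𝓑 ∧ viol v f} = 𝓑 ∩ {v | v ∈ 𝓖 ∧ viol v f} := by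
      ext v
      constructor
      · rintro ⟨h2, h3⟩
        exact ⟨h2, hg.hBG v h2, h3⟩
      · rintro ⟨h2, -, h3⟩
        exact ⟨h2, h3⟩
    rw [e]
    refine hg.hB.inter ?_
    by_cases hY : Nonempty Y
    · obtain ⟨y⟩ := hY
      exact (measurable_const.prodMk measurable_id : Measurable fun v : V => (y, v)) h1
    · rw [not_nonempty_iff] at hY
      have h2 := hg.hvm V (fun _ => f) (by
        have : IsEmpty (V × Y) := by infer_instance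
        exact measurable_of_empty _)
      exact (measurable_id.prodMk measurable_id : Measurable fun v : V => (v, v)) h2
  exact stt_meas hg.hdm hg.hfin hvm hc χ (Measurable.ite hF hg' hT) ts

end

end Pool.Agent.Helper105
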