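import Mathlib
import Pool.Agent.Helper105_All.Det2

set_option autoImplicit false

namespace Pool.Agent.Helper105

open MeasureTheory Set
open scoped Classical

section
variable {X V : Type*} {k : ℕ} {dm : V → Finset X} {viol : V → (X → Fin k) → Prop}

/-- the weighted count of structures with an arbitrary top. -/
theorem top_sum {𝓑 : Set V} {Nb : V → Finset V}
    (hNb : ∀ a ∈ 𝓑, ∀ b, b ∈ Nb a ↔ b ∈ 𝓑 ∧ meets dm b a) {w s : V → ℝ} (hw : ∀ v, 0 ≤ w v)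
    (hs : ∀ v, 0 ≤ s v) (hws : ∀ a ∈ 𝓑, w a * ∏ b ∈ Nb a, (1 + s b) ≤ s a) (a : V)
    {J : Finset V} (hJ : ∀ b, b ∈ J ↔ b ∈ 𝓑 ∧ meets dm b a) (h : ℕ)
    (𝓢 : Finset (Finset (ℕ × V)))
    (hS : ∀ S ∈ 𝓢, (∀ u, (0, u) ∈ S ↔ u = a) ∧ (∀ j u, (j + 1, u) ∈ S → u ∈ 𝓑) ∧
      (∀ j u, (j + 1, u) ∈ S → ∃ u', (j, u') ∈ S ∧ meets dm u u') ∧ ∀ q ∈ S, q.1 ≤ h) :
    ∑ S ∈ 𝓢, ∏ q ∈ S, w q.2 ≤ w a * ∏ b ∈ J, (1 + s b) := by
  obtain ⟨top, htop⟩ : ∃ top : Finset (ℕ × V) → Finset V, ∀ S u, u ∈ top S ↔ (1, u) ∈ S :=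
    ⟨fun S => (S.filter (fun q => q.1 = 1)).image Prod.snd, fun S u => by
      simp only [Finset.mem_image, Finset.mem_filter, Prod.exists]
      constructor
      · rintro ⟨a, b, ⟨h1, rfl⟩, rfl⟩; exact h1
      · intro h; exact ⟨1, u, ⟨h, rfl⟩, rfl⟩⟩
  have hmaps : ∀ S ∈ 𝓢, top S ∈ J.powerset := by
    intro S hS'
    rw [Finset.mem_powerset]
    intro u hu
    rw [htop] at hu
    obtain ⟨u', h5, h6⟩ := (hS S hS').2.2.1 0 u hu
    have h7 := ((hS S hS').1 u').1 h5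
    rw [h7] at h6
    exact (hJ u).2 ⟨(hS S hS').2.1 0 u hu, h6⟩
  rw [Finset.prod_one_add, ← Finset.sum_fiberwise_of_maps_to hmaps, Finset.mul_sum]
  refine Finset.sum_le_sum fun t ht => ?_
  have htB : ∀ v ∈ t, v ∈ 𝓑 := fun v hv => ((hJ v).1 (Finset.mem_powerset.1 ht hv)).1
  have hinj : Set.InjOn dn ((𝓢.filter (fun S => top S = t) : Finset _) :
      Set (Finset (ℕ × V))) := by
    intro S hS₁ S' hS₂ hdn
    simp only [Finset.coe_filter, Set.mem_ofPred_eq] at hS₁ hS₂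
    ext ⟨j, u⟩
    rcases j with _ | j
    · rw [(hS S hS₁.1).1, (hS S' hS₂.1).1]
    · rw [← mem_dn, ← mem_dn, hdn]
  have hprod : ∀ S ∈ 𝓢, ∏ q ∈ S, w q.2 = w a * ∏ q ∈ dn S, w q.2 := by
    intro S hS'
    have e1 : S.filter (fun q => q.1 = 0) = {(0, a)} := by
      ext ⟨j, u⟩
      simp only [Finset.mem_filter, Finset.mem_singleton, Prod.mk.injEq]
      constructor
      · rintro ⟨h5, rfl⟩
        exact ⟨rfl, ((hS S hS').1 u).1 h5⟩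
      · rintro ⟨rfl, rfl⟩
        exact ⟨((hS S hS').1 _).2 rfl, rfl⟩
    rw [← Finset.prod_filter_mul_prod_filter_not S (fun q => q.1 = 0), e1,
      Finset.prod_singleton, dn, Finset.prod_image]
    rintro ⟨i, u⟩ h5 ⟨j, w'⟩ h6 h7
    simp only [Finset.coe_filter, Set.mem_ofPred_eq, Prod.mk.injEq] at h5 h6 h7 ⊢
    exact ⟨by omega, h7.2⟩
  have e1 : ∑ S ∈ 𝓢.filter (fun S => top S = t), (∏ q ∈ S, w q.2) =
      w a * ∑ S' ∈ (𝓢.filter (fun S => top S = t)).image dn, ∏ q ∈ S', w q.2 := by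
    rw [Finset.sum_image hinj, Finset.mul_sum]
    refine Finset.sum_congr rfl fun S hS' => ?_
    rw [Finset.mem_filter] at hS'
    rw [hprod S hS'.1]
  rw [e1]
  refine mul_le_mul_of_nonneg_left (wsum hNb hw hs hws h htB ⟨?_, ?_, ?_, ?_⟩) (hw a)
  · intro S' hS' u
    rw [Finset.mem_image] at hS'
    obtain ⟨S, hS', rfl⟩ := hS'
    rw [Finset.mem_filter] at hS'
    rw [mem_dn, ← hS'.2, htop]
  · rintro S' hS' ⟨j, u⟩ hq
    rw [Finset.mem_image] at hS'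
    obtain ⟨S, hS', rfl⟩ := hS'
    rw [Finset.mem_filter] at hS'
    rw [mem_dn] at hq
    have := (hS S hS'.1).2.2.2 _ hq
    simp only at this ⊢
    omega
  · rintro S' hS' ⟨j, u⟩ hq
    rw [Finset.mem_image] at hS'
    obtain ⟨S, hS', rfl⟩ := hS'
    rw [Finset.mem_filter] at hS'
    rw [mem_dn] at hq
    exact (hS S hS'.1).2.1 j u hq
  · intro S' hS' j u hu
    rw [Finset.mem_image] at hS'
    obtain ⟨S, hS', rfl⟩ := hS'
    rw [Finset.mem_filter] at hS'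
    rw [mem_dn] at hu
    obtain ⟨u', h5, h6⟩ := (hS S hS'.1).2.2.1 (j + 1) u hu
    exact ⟨u', mem_dn.2 h5, h6⟩

/-- single-top structures with a given top in `𝓑`. -/
theorem top_sum' {𝓑 : Set V} {Nb : V → Finset V}
    (hNb : ∀ a ∈ 𝓑, ∀ b, b ∈ Nb a ↔ b ∈ 𝓑 ∧ meets dm b a) {w s : V → ℝ} (hw : ∀ v, 0 ≤ w v)
    (hs : ∀ v, 0 ≤ s v) (hws : ∀ a ∈ 𝓑, w a * ∏ b ∈ Nb a, (1 + s b) ≤ s a) {a : V}
    (ha : a ∈ 𝓑) (𝓢 : Finset (Finset (ℕ × V)))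
    (hS : ∀ S ∈ 𝓢, Str dm 𝓑 S ∧ (0, a) ∈ S) :
    ∑ S ∈ 𝓢, ∏ q ∈ S, w q.2 ≤ s a := by
  obtain ⟨H, hH⟩ : ∃ H : ℕ, ∀ S ∈ 𝓢, ∀ q ∈ S, q.1 < H :=
    ⟨𝓢.sup (fun S => S.sup fun q => q.1 + 1), fun S hS' q hq =>
      lt_of_lt_of_le (Nat.lt_succ_self _) (le_trans (Finset.le_sup (f := fun q : ℕ × V => q.1 + 1) hq)
        (Finset.le_sup (f := fun S : Finset (ℕ × V) => S.sup fun q => q.1 + 1) hS'))⟩
  have h1 := wsum hNb hw hs hws H (I := {a})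
    (fun v hv => by rw [Finset.mem_singleton] at hv; rw [hv]; exact ha) (𝓢 := 𝓢) (by
      refine ⟨?_, ?_, ?_, ?_⟩
      · intro S hS' u
        obtain ⟨⟨⟨v, hv⟩, -⟩, h2⟩ := hS S hS'
        rw [Finset.mem_singleton, hv, ← (hv a).1 h2]
      · intro S hS' q hq
        exact (hH S hS' q hq).le
      · intro S hS' q hq
        exact (hS S hS').1.2.1 q hq
      · intro S hS'
        exact (hS S hS').1.2.2.1)
  simpa using h1

/-- balls have at most exponential size. -/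
theorem ball_card {𝓑 : Set V} (hfin : ∀ x, {v | v ∈ 𝓑 ∧ x ∈ dm v}.Finite) {d : ℕ}
    (hdeg : ∀ v ∈ 𝓑, ∃ U : Finset V, U.card ≤ d + 1 ∧ ∀ w ∈ 𝓑, meets dm w v → w ∈ U)
    (n : ℕ) {v : V} (hv : v ∈ 𝓑) :
    ∃ U : Finset V, U.card ≤ (d + 1) ^ n ∧ ∀ w, Bl dm 𝓑 n v w → w ∈ U := by
  induction n with
  | zero =>
    refine ⟨{v}, by simp, fun w hw => ?_⟩
    rw [Bl] at hw
    rw [hw]
    exact Finset.mem_singleton_self _
  | succ n ih =>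
    obtain ⟨U, hU1, hU2⟩ := ih
    obtain ⟨N, hN⟩ : ∃ N : V → Finset V, ∀ u ∈ 𝓑, (N u).card ≤ d + 1 ∧
        ∀ w ∈ 𝓑, meets dm w u → w ∈ N u := by
      choose! N hN using hdeg
      exact ⟨N, hN⟩
    refine ⟨(U.filter (· ∈ 𝓑)).biUnion N, ?_, ?_⟩
    · refine Finset.card_biUnion_le.trans ?_
      refine (Finset.sum_le_sum (g := fun _ => d + 1) fun a ha => ?_).trans ?_
      · exact (hN a (Finset.mem_filter.1 ha).2).1
      · rw [Finset.sum_const, smul_eq_mul, pow_succ]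
        exact Nat.mul_le_mul_right _ ((Finset.card_filter_le _ _).trans hU1)
    · rintro w ⟨h1, u, h2, h3⟩
      rw [Finset.mem_biUnion]
      have huB := bl_mem hv h2
      exact ⟨u, Finset.mem_filter.2 ⟨hU2 u h2, huB⟩, (hN u huB).2 w h1 h3⟩

theorem at_card {𝓑 : Set V} {d : ℕ}
    (hdeg : ∀ v ∈ 𝓑, ∃ U : Finset V, U.card ≤ d + 1 ∧ ∀ w ∈ 𝓑, meets dm w v → w ∈ U)
    {J : Finset V} {z : X} (hJ : ∀ u ∈ J, u ∈ 𝓑 ∧ z ∈ dm u) : J.card ≤ d + 1 := by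
  by_cases h : J.Nonempty
  · obtain ⟨v, hv⟩ := h
    obtain ⟨U, hU1, hU2⟩ := hdeg v (hJ v hv).1
    refine (Finset.card_le_card fun u hu => ?_).trans hU1
    exact hU2 u (hJ u hu).1 ⟨z, (hJ u hu).2, (hJ v hv).2⟩
  · rw [Finset.not_nonempty_iff_eq_empty] at h
    rw [h, Finset.card_empty]
    exact Nat.zero_le _

end

end Pool.Agent.Helper105
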