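import Mathlib
import Pool.Agent.Helper105_All.Sums
import Pool.Agent.Helper105_All.Freeze2

set_option autoImplicit false

namespace Pool.Agent.Helper105

open MeasureTheory Set
open scoped Classical

attribute [-instance] Finset.instMeasurableSpace
attribute [local instance] finsetBorel sb_finset

universe u

section
variable {X Y V : Type u} [MeasurableSpace X] [MeasurableSpace Y] [MeasurableSpace V] {k : ℕ}
  {dm : V → Finset Y} {viol : V → (Y → Fin k) → Prop} {𝓑 𝓖 : Set V} {Lam : X → Finset Y}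
  {ev : X → Finset V} {d : ℕ} {P s : V → ℝ} {Γ r : ℝ}

theorem cpu_le (hk : 0 < k) (hg : Good dm viol 𝓑 𝓖 Lam ev d P s Γ r) {S : Finset (ℕ × V)}
    (hSG : ∀ q ∈ S, q.2 ∈ 𝓖)
    (hSi : ∀ q ∈ S, ∀ q' ∈ S, q.1 = q'.1 → meets dm q.2 q'.2 → q = q') (T₀ : Y × ℕ → Fin k) :
    cp (DS dm S) (BadS dm viol 𝓖 S) univ T₀ ≤ ∏ q ∈ S, P q.2 := by
  have hk' : (0 : ℝ) < k := by exact_mod_cast hk
  have h1 := str_prob (p := P) hg.hP hg.hloc hg.hviol hSG hSi
    (D := DS dm S) (fun q hq x hx r hr => mem_DS.2 ⟨⟨q, hq, hx⟩, hr⟩) T₀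
  rw [cp_full (fun _ _ => mem_univ _), div_le_iff₀ (by positivity)]
  refine le_trans ?_ h1
  rw [Nat.cast_le]
  refine Finset.card_le_card fun T hT => ?_
  rw [Finset.mem_filter] at hT ⊢
  exact ⟨hT.1, hT.2.2⟩

theorem hPs1 (hg : Good dm viol 𝓑 𝓖 Lam ev d P s Γ r) : ∀ a ∈ 𝓑,
    P a * ∏ b ∈ nbf dm 𝓑 a, (1 + s b) ≤ s a := by
  intro a ha
  have h1 := hg.hPs a ha
  have h2 : (1 : ℝ) ≤ Γ ^ 5 := one_le_pow₀ hg.hΓ.le
  have h3 : 0 ≤ P a * ∏ b ∈ nbf dm 𝓑 a, (1 + s b) :=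
    mul_nonneg (hg.hP a) (Finset.prod_nonneg fun b _ => by linarith [hg.hs b])
  refine le_trans ?_ h1
  rw [mul_assoc]
  exact le_mul_of_one_le_left h3 h2

theorem soft_init (hk : 0 < k) (hg : Good dm viol 𝓑 𝓖 Lam ev d P s Γ r) {t : ℕ} {x : X}
    {E2 : Finset (Finset (ℕ × V))} (hE2 : ∀ S, S ∈ E2 ↔ ∃ a ∈ ev x, StrB dm 𝓑 a t S)
    (T₀ : Y × ℕ → Fin k) :
    ∑ S ∈ E2, cp (DS dm S) (BadS dm viol 𝓖 S) univ T₀ ≤
      ∑ a ∈ ev x, P a * ∏ b ∈ nbf dm 𝓑 a, (1 + s b) := by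
  by_cases hE : E2 = ∅
  · rw [hE, Finset.sum_empty]
    exact Finset.sum_nonneg fun a _ => mul_nonneg (hg.hP a)
      (Finset.prod_nonneg fun b _ => by linarith [hg.hs b])
  obtain ⟨S₀, hS₀⟩ := Finset.nonempty_iff_ne_empty.2 hE
  obtain ⟨a₀, -, -⟩ := (hE2 S₀).1 hS₀
  have htop : ∀ S, ∃ a, S ∈ E2 → a ∈ ev x ∧ StrB dm 𝓑 a t S := by
    intro S
    by_cases h : S ∈ E2
    · obtain ⟨a, ha, h1⟩ := (hE2 S).1 h
      exact ⟨a, fun _ => ⟨ha, h1⟩⟩
    · exact ⟨a₀, fun h' => absurd h' h⟩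
  choose top htop using htop
  calc ∑ S ∈ E2, cp (DS dm S) (BadS dm viol 𝓖 S) univ T₀
      ≤ ∑ S ∈ E2, ∏ q ∈ S, P q.2 := by
        refine Finset.sum_le_sum fun S hS => ?_
        obtain ⟨h1, h2, h3, h4, h5, h6⟩ := htop S hS
        refine cpu_le hk hg ?_ h5 T₀
        rintro ⟨j, u⟩ hq
        rcases j with _ | j
        · rw [(h2 u).1 hq]
          exact (hg.hevG x _ h1).1
        · exact hg.hBG u (h3 j u hq).1
    _ = ∑ a ∈ ev x, ∑ S ∈ E2.filter (fun S => top S = a), ∏ q ∈ S, P q.2 := by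
        rw [Finset.sum_fiberwise_of_maps_to fun S hS => (htop S hS).1]
    _ ≤ _ := by
        refine Finset.sum_le_sum fun a _ => ?_
        refine top_sum (fun a _ b => mem_nbf hg.hfin) hg.hP hg.hs (hPs1 hg) a
          (fun b => mem_nbf hg.hfin) t _ ?_
        intro S hS
        rw [Finset.mem_filter] at hS
        obtain ⟨h1, h2, h3, h4, h5, h6⟩ := htop S hS.1
        rw [hS.2] at h2
        exact ⟨h2, fun j u hu => (h3 j u hu).1, h4, h6⟩

theorem w5 (hg : Good dm viol 𝓑 𝓖 Lam ev d P s Γ r) : (∀ a, 0 ≤ Γ ^ 5 * P a) ∧ ∀ a ∈ 𝓑,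
    Γ ^ 5 * P a * ∏ b ∈ nbf dm 𝓑 a, (1 + s b) ≤ s a := by
  have hΓ0 : 0 < Γ := by have := hg.hΓ; linarith
  exact ⟨fun a => mul_nonneg (by positivity) (hg.hP a), hg.hPs⟩

theorem prod5 (S : Finset (ℕ × V)) : ∏ q ∈ S, (Γ ^ 5 * P q.2) =
    Γ ^ (5 * S.card) * ∏ q ∈ S, P q.2 := by
  rw [Finset.prod_mul_distrib, Finset.prod_const, ← pow_mul]

theorem ev_init (hk : 0 < k) (hg : Good dm viol 𝓑 𝓖 Lam ev d P s Γ r) {ρ : ℕ} {x : X}
    {J : Finset V} (hJ : ∀ v ∈ 𝓑, (∃ z ∈ dm v, z ∈ Lam x) → v ∈ J) (hJB : ∀ v ∈ J, v ∈ 𝓑)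
    {E1 : Finset (Finset (ℕ × V))} (hE1 : ∀ S ∈ E1, (Str dm 𝓑 S ∧ ρ + 1 ≤ S.card) ∧
      ∃ v, (0, v) ∈ S ∧ ∃ z ∈ dm v, z ∈ Lam x) (T₀ : Y × ℕ → Fin k) :
    Γ ^ (5 * (ρ + 1)) * ∑ S ∈ E1, cp (DS dm S) (BadS dm viol 𝓖 S) univ T₀ ≤ J.card := by
  have hΓ0 : 0 < Γ := by have := hg.hΓ; linarith
  by_cases hE : E1 = ∅
  · rw [hE, Finset.sum_empty, mul_zero]
    exact Nat.cast_nonneg _
  obtain ⟨S₀, hS₀⟩ := Finset.nonempty_iff_ne_empty.2 hE
  obtain ⟨-, a₀, -, -⟩ := hE1 S₀ hS₀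
  have htop : ∀ S, ∃ a, S ∈ E1 → a ∈ J ∧ (0, a) ∈ S := by
    intro S
    by_cases h : S ∈ E1
    · obtain ⟨h1, a, ha, h2⟩ := hE1 S h
      exact ⟨a, fun _ => ⟨hJ a (h1.1.2.1 _ ha) h2, ha⟩⟩
    · exact ⟨a₀, fun h' => absurd h' h⟩
  choose top htop using htop
  calc Γ ^ (5 * (ρ + 1)) * ∑ S ∈ E1, cp (DS dm S) (BadS dm viol 𝓖 S) univ T₀
      ≤ ∑ S ∈ E1, ∏ q ∈ S, (Γ ^ 5 * P q.2) := by
        rw [Finset.mul_sum]
        refine Finset.sum_le_sum fun S hS => ?_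
        obtain ⟨⟨h1, h2⟩, -⟩ := hE1 S hS
        rw [prod5]
        refine mul_le_mul (pow_le_pow_right₀ hg.hΓ.le (by omega)) ?_ (cp_nonneg _ _ _ _)
          (by positivity)
        exact cpu_le hk hg (fun q hq => hg.hBG _ (h1.2.1 q hq)) h1.2.2.2 T₀
    _ = ∑ a ∈ J, ∑ S ∈ E1.filter (fun S => top S = a), ∏ q ∈ S, (Γ ^ 5 * P q.2) := by
        rw [Finset.sum_fiberwise_of_maps_to fun S hS => (htop S hS).1]
    _ ≤ ∑ _a ∈ J, (1 : ℝ) := by
        refine Finset.sum_le_sum fun a ha => ?_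
        refine (top_sum' (fun a _ b => mem_nbf hg.hfin) (w := fun a => Γ ^ 5 * P a) (w5 hg).1
          hg.hs (w5 hg).2 (hJB a ha) _ ?_).trans (hg.hs1 a (hJB a ha))
        intro S hS
        rw [Finset.mem_filter] at hS
        refine ⟨(hE1 S hS.1).1.1, ?_⟩
        rw [← hS.2]
        exact (htop S hS.1).2
    _ = J.card := by simp

theorem tst_init (hk : 0 < k) (hg : Good dm viol 𝓑 𝓖 Lam ev d P s Γ r) {j : ℕ} {v : V}
    {A : Finset (Finset (ℕ × V))} (hA : ∀ S ∈ A, (Str dm 𝓑 S ∧ j ≤ S.card) ∧ ∃ i, (i, v) ∈ S)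
    {b : Y × ℕ → ℝ} (hb : ∀ S ∈ A, ∑ c ∈ DS dm S, b c ≤ S.card * Real.log Γ)
    (T₀ : Y × ℕ → Fin k) :
    Γ ^ (3 * j) * ∑ S ∈ A, wgt (DS dm) (fun S => Γ ^ S.card) b univ S *
      cp (DS dm S) (BadS dm viol 𝓖 S) univ T₀ ≤ 1 / (1 - r) := by
  have hΓ0 : 0 < Γ := by have := hg.hΓ; linarith
  have hr : 0 < 1 - r := by have := hg.hr1; linarith
  by_cases hE : A = ∅
  · rw [hE, Finset.sum_empty, mul_zero]
    positivity
  obtain ⟨S₀, hS₀⟩ := Finset.nonempty_iff_ne_empty.2 hE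
  have hvB : v ∈ 𝓑 := by
    obtain ⟨⟨h1, -⟩, i, hi⟩ := hA S₀ hS₀
    exact h1.2.1 _ hi
  calc Γ ^ (3 * j) * ∑ S ∈ A, wgt (DS dm) (fun S => Γ ^ S.card) b univ S *
      cp (DS dm S) (BadS dm viol 𝓖 S) univ T₀
      ≤ ∑ S ∈ A, ∏ q ∈ S, (Γ ^ 5 * P q.2) := by
        rw [Finset.mul_sum]
        refine Finset.sum_le_sum fun S hS => ?_
        obtain ⟨⟨h1, h2⟩, -⟩ := hA S hS
        rw [prod5]
        have h3 : wgt (DS dm) (fun S => Γ ^ S.card) b univ S ≤ Γ ^ S.card * Γ ^ S.card := by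
          unfold wgt
          refine mul_le_mul_of_nonneg_left ?_ (by positivity)
          simp only [mem_univ, if_true]
          rw [← Real.exp_sum]
          refine (Real.exp_le_exp.2 (hb S hS)).trans_eq ?_
          rw [Real.exp_nat_mul, Real.exp_log hΓ0]
        have h4 := cpu_le hk hg (fun q hq => hg.hBG _ (h1.2.1 q hq)) h1.2.2.2 T₀
        have h5 : Γ ^ (3 * j) ≤ Γ ^ (3 * S.card) := pow_le_pow_right₀ hg.hΓ.le (by omega)
        calc Γ ^ (3 * j) * (wgt (DS dm) (fun S => Γ ^ S.card) b univ S *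
              cp (DS dm S) (BadS dm viol 𝓖 S) univ T₀)
            ≤ Γ ^ (3 * S.card) * ((Γ ^ S.card * Γ ^ S.card) * ∏ q ∈ S, P q.2) := by
              refine mul_le_mul h5 (mul_le_mul h3 h4 (cp_nonneg _ _ _ _) (by positivity))
                (mul_nonneg ?_ (cp_nonneg _ _ _ _)) (by positivity)
              exact wgt_nonneg (fun S => by positivity) univ S
          _ = Γ ^ (5 * S.card) * ∏ q ∈ S, P q.2 := by ring
    _ ≤ s v / (1 - r) := by
        refine str_sum (fun a _ b => mem_nbf hg.hfin) (w := fun a => Γ ^ 5 * P a) (w5 hg).1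
          hg.hs (w5 hg).2 hg.hr hg.hr1 hg.hsr v A ?_
        intro S hS
        exact ⟨(hA S hS).1.1, (hA S hS).2⟩
    _ ≤ 1 / (1 - r) := div_le_div_of_nonneg_right (hg.hs1 v hvB) hr.le

theorem bsum {N : ℕ} (hN : 0 < N) {L : ℝ} (hL : 0 ≤ L) {S : Finset (ℕ × V)}
    (hSB : ∀ q ∈ S, q.2 ∈ 𝓑) (hSN : S.card ≤ N) {at' : Y → Finset V}
    (hat : ∀ y v, v ∈ at' y ↔ v ∈ 𝓑 ∧ y ∈ dm v) :
    ∑ c ∈ DS dm S, L / (N * (1 + ∑ u ∈ at' c.1, ((dm u).card : ℝ))) ≤ S.card * L := by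
  have hN' : (0 : ℝ) < N := by exact_mod_cast hN
  obtain ⟨f, hf⟩ : ∃ f : Y → ℝ, ∀ y, f y = L / (N * (1 + ∑ u ∈ at' y, ((dm u).card : ℝ))) :=
    ⟨_, fun _ => rfl⟩
  have hw : ∀ y, 0 < 1 + ∑ u ∈ at' y, ((dm u).card : ℝ) := by
    intro y
    have := Finset.sum_nonneg (s := at' y) (f := fun u => ((dm u).card : ℝ))
      fun u _ => Nat.cast_nonneg _
    linarith
  have hf0 : ∀ y, 0 ≤ f y := by
    intro y
    rw [hf]
    have := hw y
    positivity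
  have h1 : ∑ y ∈ (S.image Prod.snd).biUnion dm, f y ≤ L := by
    calc ∑ y ∈ (S.image Prod.snd).biUnion dm, f y
        ≤ ∑ u ∈ S.image Prod.snd, ∑ y ∈ dm u, f y := sum_biUnion_le3 _ _ hf0
      _ ≤ ∑ _u ∈ S.image Prod.snd, L / N := by
          refine Finset.sum_le_sum fun u hu => ?_
          obtain ⟨q, hq, rfl⟩ := Finset.mem_image.1 hu
          by_cases hd : (dm q.2).card = 0
          · rw [Finset.card_eq_zero] at hd
            rw [hd, Finset.sum_empty]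
            positivity
          · have hd' : (0 : ℝ) < (dm q.2).card := by exact_mod_cast Nat.pos_of_ne_zero hd
            calc ∑ y ∈ dm q.2, f y ≤ ∑ _y ∈ dm q.2, L / (N * (dm q.2).card) := by
                  refine Finset.sum_le_sum fun y hy => ?_
                  rw [hf]
                  refine div_le_div_of_nonneg_left hL (by positivity) ?_
                  refine mul_le_mul_of_nonneg_left ?_ hN'.le
                  have h2 := Finset.single_le_sum (f := fun u => ((dm u).card : ℝ))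
                    (fun u _ => Nat.cast_nonneg _) ((hat y q.2).2 ⟨hSB q hq, hy⟩)
                  linarith
              _ = L / N := by
                  rw [Finset.sum_const, nsmul_eq_mul]
                  field_simp
      _ = ((S.image Prod.snd).card : ℝ) * (L / N) := by rw [Finset.sum_const, nsmul_eq_mul]
      _ ≤ N * (L / N) := by
          refine mul_le_mul_of_nonneg_right ?_ (by positivity)
          exact_mod_cast Finset.card_image_le.trans hSN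
      _ = L := by field_simp
  unfold DS
  rw [Finset.sum_product]
  simp only [Finset.sum_const, Finset.card_range, nsmul_eq_mul, ← hf]
  rw [← Finset.mul_sum]
  exact mul_le_mul_of_nonneg_left h1 (Nat.cast_nonneg _)

end

end Pool.Agent.Helper105
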