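import Mathlib

set_option autoImplicit false

namespace Pool.Agent.Helper105

open MeasureTheory Set Filter
open scoped Classical Topology

/-- the initial value of the estimator of a cell. -/
noncomputable def BB (Γ r : ℝ) (d k j : ℕ) (w : ℝ) : ℝ :=
  ((d : ℝ) + 1) * (1 / (Γ ^ (3 * j) * (1 - r)) /
    ((1 - Real.exp (-(Real.log Γ / (((5 * (d + 1) * j : ℕ) : ℝ) * w)))) /
      (k * Γ ^ (2 * j) * ((d : ℝ) + 1)))) +
  ((d : ℝ) + 1) * ((d : ℝ) + 1) ^ (5 * (d + 1) * j) *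
    Real.exp (Γ ^ (2 * j) * (1 / (Γ ^ (3 * j) * (1 - r)) - 1 / Γ ^ j))

theorem one_sub_exp {b : ℝ} (hb : 0 < b) : 1 / (1 - Real.exp (-b)) ≤ 1 + 1 / b := by
  have h1 : 1 + b ≤ Real.exp b := by linarith [Real.add_one_le_exp b]
  have h2 : Real.exp (-b) ≤ 1 / (1 + b) := by
    rw [Real.exp_neg, ← one_div]
    exact one_div_le_one_div_of_le (by linarith) h1
  have h3 : b / (1 + b) ≤ 1 - Real.exp (-b) := by
    have : b / (1 + b) = 1 - 1 / (1 + b) := by field_simp; ring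
    linarith
  have h4 : 0 < b / (1 + b) := by positivity
  calc 1 / (1 - Real.exp (-b)) ≤ 1 / (b / (1 + b)) := one_div_le_one_div_of_le h4 h3
    _ = 1 + 1 / b := by field_simp; ring

theorem numG {Γ r : ℝ} (hΓ : 1 < Γ) (hr : 0 ≤ r) (hr1 : r < 1) (d k : ℕ) :
    (∀ᶠ j : ℕ in atTop, 16 ≤ j ∧ 1 / (Γ ^ (3 * j) * (1 - r)) ≤ 1 / Γ ^ j ∧
      1 / Γ ^ j + 1 / Γ ^ (2 * j) < 1 ∧
      ((d : ℝ) + 1) * ((5 * (d + 1) * j : ℕ) : ℝ) * (1 / Γ ^ j + 1 / Γ ^ (2 * j)) ≤ 1 / 2 ∧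
      Real.exp (2 * ((d : ℝ) + 1) * (1 / Γ ^ j + 1 / Γ ^ (2 * j))) ≤ Γ) ∧
    ∀ w : ℝ, 1 ≤ w → Tendsto (fun j : ℕ => BB Γ r d k j w) atTop (𝓝 0) := by
  have hΓ0 : 0 < Γ := by linarith
  have h1r : 0 < 1 - r := by linarith
  have hd : (0 : ℝ) < (d : ℝ) + 1 := by positivity
  have hlog : 0 < Real.log Γ := Real.log_pos hΓ
  have hpow : Tendsto (fun j : ℕ => Γ ^ j) atTop atTop := tendsto_pow_atTop_atTop_of_one_lt hΓ
  have hq : Tendsto (fun j : ℕ => 1 / Γ ^ j) atTop (𝓝 0) := tendsto_const_nhds.div_atTop hpow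
  have hq2 : Tendsto (fun j : ℕ => (j : ℝ) * (1 / Γ ^ j)) atTop (𝓝 0) := by
    have h := tendsto_self_mul_const_pow_of_lt_one (r := Γ⁻¹) (by positivity)
      (inv_lt_one_of_one_lt₀ hΓ)
    refine h.congr fun j => ?_
    rw [inv_pow, one_div]
  have hz : ∀ j : ℕ, 1 / Γ ^ (2 * j) ≤ 1 / Γ ^ j := fun j =>
    one_div_le_one_div_of_le (by positivity) (pow_le_pow_right₀ hΓ.le (by omega))
  refine ⟨?_, ?_⟩
  · have e2 : ∀ᶠ j : ℕ in atTop, 1 / Γ ^ j < 1 / 2 := hq.eventually_lt_const (by norm_num)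
    have e1 : ∀ᶠ j : ℕ in atTop, 1 / (1 - r) ≤ Γ ^ j := hpow.eventually_ge_atTop _
    have e3 : ∀ᶠ j : ℕ in atTop, (j : ℝ) * (1 / Γ ^ j) <
        1 / (20 * ((d : ℝ) + 1) * ((d : ℝ) + 1)) := hq2.eventually_lt_const (by positivity)
    have e4 : ∀ᶠ j : ℕ in atTop, 1 / Γ ^ j < Real.log Γ / (4 * ((d : ℝ) + 1)) :=
      hq.eventually_lt_const (by positivity)
    filter_upwards [e1, e2, e3, e4, eventually_ge_atTop 16] with j h1 h2 h3 h4 h5
    have hzj := hz j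
    refine ⟨h5, ?_, ?_, ?_, ?_⟩
    · refine one_div_le_one_div_of_le (by positivity) ?_
      have h6 : 1 ≤ Γ ^ j * (1 - r) := by
        rw [div_le_iff₀ h1r] at h1
        exact h1
      have h7 : (1 : ℝ) ≤ Γ ^ j := one_le_pow₀ hΓ.le
      calc Γ ^ j ≤ Γ ^ j * (Γ ^ j * (Γ ^ j * (1 - r))) := by
            refine le_mul_of_one_le_right (by positivity) ?_
            exact one_le_mul_of_one_le_of_one_le h7 h6
        _ = Γ ^ (3 * j) * (1 - r) := by ring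
    · linarith
    · have h8 : (j : ℝ) * (1 / Γ ^ j + 1 / Γ ^ (2 * j)) ≤
          1 / (10 * ((d : ℝ) + 1) * ((d : ℝ) + 1)) := by
        have h9 : (j : ℝ) * (1 / Γ ^ (2 * j)) ≤ (j : ℝ) * (1 / Γ ^ j) :=
          mul_le_mul_of_nonneg_left hzj (Nat.cast_nonneg _)
        have h10 : 1 / (20 * ((d : ℝ) + 1) * ((d : ℝ) + 1)) +
            1 / (20 * ((d : ℝ) + 1) * ((d : ℝ) + 1)) =
            1 / (10 * ((d : ℝ) + 1) * ((d : ℝ) + 1)) := by
          field_simp; norm_num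
        rw [mul_add]
        linarith
      calc ((d : ℝ) + 1) * ((5 * (d + 1) * j : ℕ) : ℝ) * (1 / Γ ^ j + 1 / Γ ^ (2 * j))
          = 5 * ((d : ℝ) + 1) * ((d : ℝ) + 1) * ((j : ℝ) * (1 / Γ ^ j + 1 / Γ ^ (2 * j))) := by
            push_cast; ring
        _ ≤ 5 * ((d : ℝ) + 1) * ((d : ℝ) + 1) * (1 / (10 * ((d : ℝ) + 1) * ((d : ℝ) + 1))) :=
            mul_le_mul_of_nonneg_left h8 (by positivity)
        _ = 1 / 2 := by field_simp; norm_num
    · rw [← Real.le_log_iff_exp_le hΓ0]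
      have h6 : 1 / Γ ^ j + 1 / Γ ^ (2 * j) ≤ Real.log Γ / (2 * ((d : ℝ) + 1)) := by
        have h7 : Real.log Γ / (4 * ((d : ℝ) + 1)) + Real.log Γ / (4 * ((d : ℝ) + 1)) =
          Real.log Γ / (2 * ((d : ℝ) + 1)) := by field_simp; norm_num
        linarith
      calc 2 * ((d : ℝ) + 1) * (1 / Γ ^ j + 1 / Γ ^ (2 * j))
          ≤ 2 * ((d : ℝ) + 1) * (Real.log Γ / (2 * ((d : ℝ) + 1))) :=
            mul_le_mul_of_nonneg_left h6 (by positivity)
        _ = Real.log Γ := by field_simp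
  · intro w hw
    have hw0 : 0 < w := by linarith
    have e0 : (0 : ℝ) = 0 + 0 := (add_zero 0).symm
    rw [e0]
    unfold BB
    refine Tendsto.add ?_ ?_
    · obtain ⟨C, hC⟩ : ∃ C : ℝ, C = ((d : ℝ) + 1) * ((d : ℝ) + 1) * k / (1 - r) := ⟨_, rfl⟩
      have hC0 : 0 ≤ C := by rw [hC]; positivity
      obtain ⟨C', hC'⟩ : ∃ C' : ℝ, C' = C * (5 * ((d : ℝ) + 1) * w / Real.log Γ) := ⟨_, rfl⟩
      have hlim : Tendsto (fun j : ℕ => C * (1 / Γ ^ j) + C' * ((j : ℝ) * (1 / Γ ^ j))) atTop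
          (𝓝 0) := by
        have := (hq.const_mul C).add (hq2.const_mul C')
        simpa using this
      refine squeeze_zero' ?_ ?_ hlim
      · filter_upwards [eventually_ge_atTop 1] with j hj
        have hj' : (0 : ℝ) < ((5 * (d + 1) * j : ℕ) : ℝ) := by
          have : 0 < 5 * (d + 1) * j := by positivity
          exact_mod_cast this
        have hb : 0 < Real.log Γ / (((5 * (d + 1) * j : ℕ) : ℝ) * w) := by positivity
        have h1 : 0 ≤ 1 - Real.exp (-(Real.log Γ / (((5 * (d + 1) * j : ℕ) : ℝ) * w))) := by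
          have : Real.exp (-(Real.log Γ / (((5 * (d + 1) * j : ℕ) : ℝ) * w))) ≤ 1 :=
            Real.exp_le_one_iff.2 (by linarith)
          linarith
        positivity
      · filter_upwards [eventually_ge_atTop 1] with j hj
        have hj'' : (0 : ℝ) < j := by exact_mod_cast hj
        have hj' : (0 : ℝ) < ((5 * (d + 1) * j : ℕ) : ℝ) := by
          have : 0 < 5 * (d + 1) * j := by positivity
          exact_mod_cast this
        obtain ⟨b, hb⟩ : ∃ b : ℝ, b = Real.log Γ / (((5 * (d + 1) * j : ℕ) : ℝ) * w) := ⟨_, rfl⟩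
        have hb0 : 0 < b := by rw [hb]; positivity
        rw [← hb]
        have h1 := one_sub_exp hb0
        have e1 : ((d : ℝ) + 1) * (1 / (Γ ^ (3 * j) * (1 - r)) /
            ((1 - Real.exp (-b)) / (k * Γ ^ (2 * j) * ((d : ℝ) + 1)))) =
            C * (1 / Γ ^ j) * (1 / (1 - Real.exp (-b))) := by
          rw [hC, show Γ ^ (3 * j) = Γ ^ (2 * j) * Γ ^ j by ring]
          have h2 : (1 : ℝ) - Real.exp (-b) ≠ 0 := by
            have : Real.exp (-b) < 1 := Real.exp_lt_one_iff.2 (by linarith)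
            linarith
          field_simp
        rw [e1]
        have h2 : 1 / b = (5 * ((d : ℝ) + 1) * w / Real.log Γ) * j := by
          rw [hb]; push_cast; field_simp
        calc C * (1 / Γ ^ j) * (1 / (1 - Real.exp (-b))) ≤ C * (1 / Γ ^ j) * (1 + 1 / b) :=
              mul_le_mul_of_nonneg_left h1 (by positivity)
          _ = C * (1 / Γ ^ j) + C' * ((j : ℝ) * (1 / Γ ^ j)) := by
              rw [h2, hC']; ring
    · obtain ⟨m, hm⟩ := pow_unbounded_of_one_lt (((d : ℝ) + 1) ^ (5 * (d + 1))) hΓ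
      obtain ⟨C, hC⟩ : ∃ C : ℝ, C = ((d : ℝ) + 1) * Real.exp (1 / (1 - r)) := ⟨_, rfl⟩
      have hC0 : 0 ≤ C := by rw [hC]; positivity
      have hlim : Tendsto (fun j : ℕ => C * ((Γ ^ j) ^ m * Real.exp (-(Γ ^ j)))) atTop (𝓝 0) := by
        have := ((Real.tendsto_pow_mul_exp_neg_atTop_nhds_zero m).comp hpow).const_mul C
        simpa using this
      refine squeeze_zero (fun j => by positivity) (fun j => ?_) hlim
      have h1 : ((d : ℝ) + 1) ^ (5 * (d + 1) * j) ≤ (Γ ^ j) ^ m := by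
        calc ((d : ℝ) + 1) ^ (5 * (d + 1) * j) = (((d : ℝ) + 1) ^ (5 * (d + 1))) ^ j := by
              rw [← pow_mul]
          _ ≤ (Γ ^ m) ^ j := pow_le_pow_left₀ (by positivity) hm.le _
          _ = (Γ ^ j) ^ m := by rw [← pow_mul, ← pow_mul, Nat.mul_comm]
      have h2 : Real.exp (Γ ^ (2 * j) * (1 / (Γ ^ (3 * j) * (1 - r)) - 1 / Γ ^ j)) ≤
          Real.exp (1 / (1 - r)) * Real.exp (-(Γ ^ j)) := by
        rw [← Real.exp_add]
        refine Real.exp_le_exp.2 ?_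
        have h3 : (1 : ℝ) ≤ Γ ^ j := one_le_pow₀ hΓ.le
        have e1 : Γ ^ (2 * j) * (1 / (Γ ^ (3 * j) * (1 - r)) - 1 / Γ ^ j) =
            1 / (Γ ^ j * (1 - r)) - Γ ^ j := by
          rw [show Γ ^ (3 * j) = Γ ^ (2 * j) * Γ ^ j by ring]
          rw [show Γ ^ (2 * j) = Γ ^ j * Γ ^ j by ring]
          field_simp
        rw [e1]
        have h4 : 1 / (Γ ^ j * (1 - r)) ≤ 1 / (1 - r) := by
          refine one_div_le_one_div_of_le h1r ?_
          exact le_mul_of_one_le_left h1r.le h3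
        linarith
      calc ((d : ℝ) + 1) * ((d : ℝ) + 1) ^ (5 * (d + 1) * j) *
            Real.exp (Γ ^ (2 * j) * (1 / (Γ ^ (3 * j) * (1 - r)) - 1 / Γ ^ j))
          ≤ ((d : ℝ) + 1) * (Γ ^ j) ^ m * (Real.exp (1 / (1 - r)) * Real.exp (-(Γ ^ j))) := by
            refine mul_le_mul (mul_le_mul_of_nonneg_left h1 hd.le) h2 (Real.exp_pos _).le
              (by positivity)
        _ = C * ((Γ ^ j) ^ m * Real.exp (-(Γ ^ j))) := by rw [hC]; ring

theorem BB_nonneg {Γ r : ℝ} (hΓ : 1 < Γ) (hr1 : r < 1) (d k j : ℕ) {w : ℝ} (hw : 0 ≤ w) :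
    0 ≤ BB Γ r d k j w := by
  have hΓ0 : 0 < Γ := by linarith
  have h1r : 0 < 1 - r := by linarith
  have hlog : 0 < Real.log Γ := Real.log_pos hΓ
  unfold BB
  have h1 : 0 ≤ 1 - Real.exp (-(Real.log Γ / (((5 * (d + 1) * j : ℕ) : ℝ) * w))) := by
    have h2 : 0 ≤ Real.log Γ / (((5 * (d + 1) * j : ℕ) : ℝ) * w) := by positivity
    have : Real.exp (-(Real.log Γ / (((5 * (d + 1) * j : ℕ) : ℝ) * w))) ≤ 1 :=
      Real.exp_le_one_iff.2 (by linarith)
    linarith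
  positivity

theorem exists_small {X : Type*} [MeasurableSpace X] (μ : Measure X) [IsFiniteMeasure μ]
    {f : ℕ → X → ℝ} (hf : ∀ n, Measurable (f n)) (h : ∀ x, Tendsto (fun n => f n x) atTop (𝓝 0))
    {E : ℕ → Prop} (hE : ∀ᶠ n in atTop, E n) {η δ : ℝ} (hη : 0 < η) (hδ : 0 < δ) :
    ∃ n, E n ∧ μ {x | η < f n x} ≤ ENNReal.ofReal δ := by
  have h1 : TendstoInMeasure μ f atTop (fun _ => (0 : ℝ)) :=
    tendstoInMeasure_of_tendsto_ae (fun n => (hf n).aestronglyMeasurable)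
      (Eventually.of_forall h)
  have h2 := h1 (ENNReal.ofReal η) (ENNReal.ofReal_pos.2 hη)
  have h3 := (h2.eventually_lt_const (ENNReal.ofReal_pos.2 hδ)).and hE
  obtain ⟨n, hn, hEn⟩ := h3.exists
  refine ⟨n, hEn, (measure_mono fun x hx => ?_).trans hn.le⟩
  simp only [mem_ofPred_eq] at hx ⊢
  rw [edist_dist, Real.dist_eq, sub_zero]
  exact ENNReal.ofReal_le_ofReal (hx.le.trans (le_abs_self _))

end Pool.Agent.Helper105
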