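import Mathlib
import Pool.Agent.Helper105_All.Est
import Pool.Agent.Helper105_All.NumG

set_option autoImplicit false

namespace Pool.Agent.Helper105

open MeasureTheory Set
open scoped Classical

attribute [-instance] Finset.instMeasurableSpace
attribute [local instance] finsetBorel sb_finset

universe u

section
variable {X Y V : Type u} [MeasurableSpace X] [StandardBorelSpace X] [MeasurableSpace Y]
  [StandardBorelSpace Y] [MeasurableSpace V] [StandardBorelSpace V] {k : ℕ}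
  {dm : V → Finset Y} {viol : V → (Y → Fin k) → Prop} {𝓑 𝓖 : Set V} {Lam : X → Finset Y}
  {ev : X → Finset V} {d : ℕ} {P s : V → ℝ} {Γ r : ℝ}

theorem at_exists (hg : Good dm viol 𝓑 𝓖 Lam ev d P s Γ r) : ∃ at' : Y → Finset V,
    (∀ y v, v ∈ at' y ↔ v ∈ 𝓑 ∧ y ∈ dm v) ∧ MeasurableSet {p : Y × V | p.2 ∈ at' p.1} := by
  refine ⟨fun y => (hg.hfin y).toFinset, fun y v => by simp, ?_⟩
  have e : {p : Y × V | p.2 ∈ (hg.hfin p.1).toFinset} = Prod.snd ⁻¹' 𝓑 ∩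
      (fun p : Y × V => (p.2, p.1)) ⁻¹' {p : V × Y | p.2 ∈ dm p.1} := by
    ext p
    simp
  rw [e]
  exact (measurable_snd hg.hB).inter
    ((by fun_prop : Measurable fun p : Y × V => (p.2, p.1)) hg.hdm)

theorem dmcard_meas (hg : Good dm viol 𝓑 𝓖 Lam ev d P s Γ r) :
    Measurable fun v => (dm v).card := card_meas hg.hdm

/-- the region in which the tests at `v` live. -/
theorem dv_exists (hg : Good dm viol 𝓑 𝓖 Lam ev d P s Γ r) (N : ℕ) :
    ∃ D : V → Finset (Y × ℕ), (∀ v c, c ∈ D v ↔ v ∈ 𝓑 ∧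
      (∃ u, Bl dm 𝓑 N v u ∧ c.1 ∈ dm u) ∧ c.2 < N) ∧
      MeasurableSet {q : V × (Y × ℕ) | q.2 ∈ D q.1} ∧ ∀ c, {v | c ∈ D v}.Finite := by
  obtain ⟨D, hD⟩ : ∃ D : V → Finset (Y × ℕ), ∀ v c, c ∈ D v ↔ v ∈ 𝓑 ∧
      (∃ u, Bl dm 𝓑 N v u ∧ c.1 ∈ dm u) ∧ c.2 < N := by
    refine ⟨fun v => if v ∈ 𝓑 then ((bl_fin hg.hfin N v).toFinset.biUnion dm) ×ˢ
      Finset.range N else ∅, fun v c => ?_⟩
    beta_reduce
    split_ifs with h
    · simp only [Finset.mem_product, Finset.mem_biUnion, Finite.mem_toFinset, mem_ofPred_eq,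
        Finset.mem_range, h, true_and]
    · simp [h]
  refine ⟨D, hD, ?_, ?_⟩
  · have e : {q : V × (Y × ℕ) | q.2 ∈ D q.1} = ((Prod.fst ⁻¹' 𝓑) ∩
        {q | ∃ u, (q, u) ∈ {r : (V × (Y × ℕ)) × V | Bl dm 𝓑 N r.1.1 r.2 ∧
          r.1.2.1 ∈ dm r.2}}) ∩ {q | q.2.2 < N} := by
      ext ⟨v, c⟩
      simp only [mem_ofPred_eq, hD, mem_inter_iff, mem_preimage, and_assoc]
    rw [e]
    refine MeasurableSet.inter (MeasurableSet.inter ?_
      (proj (MeasurableSet.inter ?_ ?_) ?_)) ?_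
    · exact measurable_fst hg.hB
    · exact (by fun_prop : Measurable fun r : (V × (Y × ℕ)) × V => (r.1.1, r.2))
        (bl_meas hg.hB hg.hdm hg.hfin N)
    · exact (by fun_prop : Measurable fun r : (V × (Y × ℕ)) × V => (r.2, r.1.2.1)) hg.hdm
    · rintro ⟨v, c⟩
      exact ((bl_fin hg.hfin N v).subset fun u hu => hu.1).countable
    · exact measurableSet_lt (measurable_snd.comp measurable_snd) measurable_const
  · intro c
    refine ((hg.hfin c.1).biUnion (t := fun u => {v | Bl dm 𝓑 N u v})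
      fun u _ => bl_fin hg.hfin _ _).subset ?_
    intro v hv
    obtain ⟨h1, ⟨u, h2, h3⟩, -⟩ := (hD v c).1 hv
    simp only [mem_iUnion]
    exact ⟨u, ⟨bl_mem h1 h2, h3⟩, bl_symm h1 h2⟩

/-- the tests near a cell. -/
theorem nv_exists (hg : Good dm viol 𝓑 𝓖 Lam ev d P s Γ r) (N : ℕ) :
    ∃ Nv : Y × ℕ → Finset V, (∀ c v, v ∈ Nv c ↔ ∃ u ∈ 𝓑, c.1 ∈ dm u ∧ Bl dm 𝓑 N u v) ∧
      MeasurableSet {q : (Y × ℕ) × V | q.2 ∈ Nv q.1} ∧
      ∀ c, (Nv c).card ≤ (d + 1) * (d + 1) ^ N := by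
  have hf : ∀ c : Y × ℕ, {v | ∃ u ∈ 𝓑, c.1 ∈ dm u ∧ Bl dm 𝓑 N u v}.Finite := by
    intro c
    refine ((hg.hfin c.1).biUnion (t := fun u => {v | Bl dm 𝓑 N u v})
      fun u _ => bl_fin hg.hfin _ _).subset ?_
    rintro v ⟨u, h1, h2, h3⟩
    simp only [mem_iUnion]
    exact ⟨u, ⟨h1, h2⟩, h3⟩
  refine ⟨fun c => (hf c).toFinset, fun c v => by rw [Finite.mem_toFinset]; rfl, ?_, ?_⟩
  · have e : {q : (Y × ℕ) × V | q.2 ∈ (hf q.1).toFinset} =
        {q | ∃ u, (q, u) ∈ {r : ((Y × ℕ) × V) × V | (r.2 ∈ 𝓑 ∧ r.1.1.1 ∈ dm r.2) ∧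
          Bl dm 𝓑 N r.2 r.1.2}} := by
      ext q
      simp only [mem_ofPred_eq, Finite.mem_toFinset, and_assoc]
    rw [e]
    refine proj (MeasurableSet.inter (MeasurableSet.inter ?_ ?_) ?_) ?_
    · exact measurable_snd hg.hB
    · exact (by fun_prop : Measurable fun r : ((Y × ℕ) × V) × V => (r.2, r.1.1.1)) hg.hdm
    · exact (by fun_prop : Measurable fun r : ((Y × ℕ) × V) × V => (r.2, r.1.2))
        (bl_meas hg.hB hg.hdm hg.hfin N)
    · rintro q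
      exact ((hg.hfin q.1.1).subset fun u hu => hu.1).countable
  · intro c
    obtain ⟨at', hat, -⟩ := at_exists hg
    have hU : ∀ u, ∃ U : Finset V, u ∈ 𝓑 → U.card ≤ (d + 1) ^ N ∧
        ∀ w, Bl dm 𝓑 N u w → w ∈ U := by
      intro u
      by_cases hu : u ∈ 𝓑
      · obtain ⟨U, hU⟩ := ball_card hg.hfin hg.hdeg N hu
        exact ⟨U, fun _ => hU⟩
      · exact ⟨∅, fun h => absurd h hu⟩
    choose U hU using hU
    have h1 : (hf c).toFinset ⊆ (at' c.1).biUnion U := by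
      intro v hv
      rw [Finite.mem_toFinset] at hv
      obtain ⟨u, h1, h2, h3⟩ := hv
      rw [Finset.mem_biUnion]
      exact ⟨u, (hat _ _).2 ⟨h1, h2⟩, (hU u h1).2 v h3⟩
    refine (Finset.card_le_card h1).trans (Finset.card_biUnion_le.trans ?_)
    refine (Finset.sum_le_sum (g := fun _ => (d + 1) ^ N) fun u hu => ?_).trans ?_
    · exact (hU u ((hat _ _).1 hu).1).1
    · rw [Finset.sum_const, smul_eq_mul]
      exact Nat.mul_le_mul_right _ (at_card hg.hdeg (z := c.1) fun u hu => (hat _ _).1 hu)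

/-- The freezing process on a level. -/
theorem frz (hk : 0 < k) (hg : Good dm viol 𝓑 𝓖 Lam ev d P s Γ r) {j : ℕ} (hj : 16 ≤ j)
    (hE : 1 / (Γ ^ (3 * j) * (1 - r)) ≤ 1 / Γ ^ j)
    {A : V → Finset (Finset (ℕ × V))} (hA : ∀ v S, S ∈ A v ↔
      (Str dm 𝓑 S ∧ (5 * (d + 1) * j ≤ 5 * (d + 1) * S.card ∧ 4 * S.card ≤ 5 * (d + 1) * j)) ∧
        ∃ i, (i, v) ∈ S)
    {at' : Y → Finset V} (hat : ∀ y v, v ∈ at' y ↔ v ∈ 𝓑 ∧ y ∈ dm v)
    (hatm : MeasurableSet {p : Y × V | p.2 ∈ at' p.1}) (μ : Measure X) {W : ℝ} (hW : 0 ≤ W)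
    {Reg : X → Finset (Y × ℕ)} (hReg : MeasurableSet {p : X × (Y × ℕ) | p.2 ∈ Reg p.1})
    {B1 B2 E : X → Finset (Finset (ℕ × V))}
    (hB1 : MeasurableSet {p : X × Finset (ℕ × V) | p.2 ∈ B1 p.1})
    (hB2 : MeasurableSet {p : X × Finset (ℕ × V) | p.2 ∈ B2 p.1})
    (hEm : MeasurableSet {p : X × Finset (ℕ × V) | p.2 ∈ E p.1})
    (hEf : ∀ c, {x | ∃ S ∈ E x, c ∈ DS dm S}.Finite)
    (hBE : ∀ x S, S ∈ B1 x ∨ S ∈ B2 x → S ∈ E x) :
    ∃ (T : Y × ℕ → Fin k) (F : Set (Y × ℕ)), Measurable T ∧ MeasurableSet F ∧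
      (∀ v, ∑ S ∈ A v, Γ ^ S.card * cp (DS dm S) (BadS dm viol 𝓖 S) F T ≤
        1 / Γ ^ j + 1 / Γ ^ (2 * j)) ∧
      ∫⁻ x, ENNReal.ofReal (W * (∑ c ∈ Reg x, (if c ∈ F then 1 else 0) +
        ∑ S ∈ B1 x, cp (DS dm S) (BadS dm viol 𝓖 S) F T) +
        ∑ S ∈ B2 x, cp (DS dm S) (BadS dm viol 𝓖 S) F T) ∂μ ≤
      ∫⁻ x, ENNReal.ofReal (W * (∑ c ∈ Reg x,
        BB Γ r d k j (1 + ∑ u ∈ at' c.1, ((dm u).card : ℝ)) +
        ∑ S ∈ B1 x, cp (DS dm S) (BadS dm viol 𝓖 S) univ (fun _ => ⟨0, hk⟩)) +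
        ∑ S ∈ B2 x, cp (DS dm S) (BadS dm viol 𝓖 S) univ (fun _ => ⟨0, hk⟩)) ∂μ := by
  have hk' : (0 : ℝ) < k := by exact_mod_cast hk
  have hΓ0 : 0 < Γ := by have := hg.hΓ; linarith
  have h1r : 0 < 1 - r := by have := hg.hr1; linarith
  have hlog : 0 < Real.log Γ := Real.log_pos hg.hΓ
  obtain ⟨N, hN⟩ : ∃ N, N = 5 * (d + 1) * j := ⟨_, rfl⟩
  have hN0 : 0 < N := by rw [hN]; positivity
  have hN' : (0 : ℝ) < N := by exact_mod_cast hN0
  have hAc : ∀ v, ∀ S ∈ A v, j ≤ S.card ∧ 4 * S.card ≤ N := by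
    intro v S hS
    obtain ⟨⟨h1, h2, h3⟩, -⟩ := (hA v S).1 hS
    exact ⟨Nat.le_of_mul_le_mul_left h2 (by positivity), by rw [hN]; exact h3⟩
  obtain ⟨wt, hwt⟩ : ∃ wt : Y → ℝ, ∀ y, wt y = 1 + ∑ u ∈ at' y, ((dm u).card : ℝ) :=
    ⟨_, fun _ => rfl⟩
  have hwt1 : ∀ y, 1 ≤ wt y := by
    intro y
    rw [hwt]
    have := Finset.sum_nonneg (s := at' y) (f := fun u => ((dm u).card : ℝ))
      fun u _ => Nat.cast_nonneg _
    linarith
  have hwtm : Measurable wt := by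
    have e : wt = fun y => 1 + ∑ u ∈ at' y, ((dm u).card : ℝ) := funext hwt
    rw [e]
    refine (measurable_fsum at' hatm (fun _ u => ((dm u).card : ℝ)) ?_).const_add 1
    exact ((measurable_of_countable fun n : ℕ => (n : ℝ)).comp (dmcard_meas hg)).comp
      measurable_snd
  obtain ⟨b, hb⟩ : ∃ b : Y × ℕ → ℝ, ∀ c, b c = Real.log Γ / (N * wt c.1) := ⟨_, fun _ => rfl⟩
  have hb0 : ∀ c, 0 < b c := by
    intro c
    rw [hb]
    have := hwt1 c.1
    positivity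
  have hbm : Measurable b := by
    have e : b = fun c => Real.log Γ / (N * wt c.1) := funext hb
    rw [e]
    exact measurable_const.div ((hwtm.comp measurable_fst).const_mul _)
  obtain ⟨lam, hlam⟩ : ∃ lam : ℝ, lam = Γ ^ (2 * j) := ⟨_, rfl⟩
  have hlam0 : 0 < lam := by rw [hlam]; positivity
  obtain ⟨iot, hio⟩ : ∃ iot : Y × ℕ → ℝ, ∀ c, iot c = (1 - Real.exp (-b c)) /
      (k * lam * ((d : ℝ) + 1)) := ⟨_, fun _ => rfl⟩
  have hexp : ∀ c, 0 < 1 - Real.exp (-b c) := by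
    intro c
    have : Real.exp (-b c) < 1 := Real.exp_lt_one_iff.2 (by linarith [hb0 c])
    linarith
  have hio0 : ∀ c, 0 < iot c := by
    intro c
    rw [hio]
    have := hexp c
    positivity
  have hiom : Measurable iot := by
    have e : iot = fun c => (1 - Real.exp (-b c)) / (k * lam * ((d : ℝ) + 1)) := funext hio
    rw [e]
    exact ((Real.measurable_exp.comp hbm.neg).const_sub 1).div_const _
  obtain ⟨DV, hDV, hDVm, hDVf⟩ := dv_exists hg N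
  obtain ⟨Nv, hNv, hNvm, hNvc⟩ := nv_exists hg N
  obtain ⟨κ₁, hκ₁m, hκ₁⟩ := exists_cellcolor hDVm hDVf
  -- the region of the soft structures
  obtain ⟨R, hR⟩ : ∃ R : X → Finset (Y × ℕ), ∀ x c, c ∈ R x ↔ ∃ S ∈ E x, c ∈ DS dm S :=
    ⟨fun x => (E x).biUnion (DS dm), fun x c => Finset.mem_biUnion⟩
  have hRm : MeasurableSet {p : X × (Y × ℕ) | p.2 ∈ R p.1} := by
    have e : {p : X × (Y × ℕ) | p.2 ∈ R p.1} = {p | ∃ S ∈ E p.1, p.2 ∈ DS dm S} := by
      ext p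
      exact hR _ _
    rw [e]
    refine exists_mem_meas (F := fun p : X × (Y × ℕ) => E p.1) ?_
      (P := fun p S => p.2 ∈ DS dm S) ?_
    · exact (by fun_prop : Measurable fun p : (X × (Y × ℕ)) × Finset (ℕ × V) => (p.1.1, p.2)) hEm
    · exact (by fun_prop : Measurable fun p : (X × (Y × ℕ)) × Finset (ℕ × V) =>
        (p.2, p.1.2)) (DS_meas hg.hdm)
  obtain ⟨κ₂, hκ₂m, hκ₂⟩ := exists_cellcolor hRm (fun c => (hEf c).subset fun x hx => (hR x c).1 hx)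
  obtain ⟨κ, hκ⟩ : ∃ κ : Y × ℕ → ℕ, ∀ c, κ c = Nat.pair (κ₁ c) (κ₂ c) := ⟨_, fun _ => rfl⟩
  have hκm : Measurable κ := by
    have e : κ = fun c => Nat.pair (κ₁ c) (κ₂ c) := funext hκ
    rw [e]
    exact (measurable_of_countable fun p : ℕ × ℕ => Nat.pair p.1 p.2).comp (hκ₁m.prodMk hκ₂m)
  have hκi : ∀ c c', κ c = κ c' → κ₁ c = κ₁ c' ∧ κ₂ c = κ₂ c' := by
    intro c c' h
    rw [hκ, hκ] at h
    have := congrArg Nat.unpair h
    simpa using this
  have hAD : ∀ v, ∀ S ∈ A v, ∀ c ∈ DS dm S, c ∈ DV v := by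
    intro v S hS c hc
    have h5 := hAc v S hS
    obtain ⟨⟨h1, h2, h3⟩, i', hi'⟩ := (hA v S).1 hS
    obtain ⟨⟨⟨i, u⟩, hq, hx⟩, hr⟩ := mem_DS.1 hc
    have h4 : 0 < S.card := Finset.card_pos.2 ⟨_, hi'⟩
    exact (hDV v c).2 ⟨h1.2.1 _ hi', ⟨u, str_bl2 hg.hne h1 hq hi' (by omega), hx⟩, by omega⟩
  have htst : ∀ v, tst (DS dm) (BadS dm viol 𝓖) A (fun S => Γ ^ S.card) b univ
      (fun _ => ⟨0, hk⟩) v ≤ 1 / (Γ ^ (3 * j) * (1 - r)) := by
    intro v
    have h1 := tst_init (v := v) hk hg (j := j) (A := A v) (fun S hS => ⟨⟨((hA v S).1 hS).1.1,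
      (hAc v S hS).1⟩, ((hA v S).1 hS).2⟩) (b := b) (by
        intro S hS
        have h2 := bsum hN0 hlog.le (((hA v S).1 hS).1.1.2.1)
          (by have := hAc v S hS; omega : S.card ≤ N) hat
        refine le_trans (le_of_eq ?_) h2
        refine Finset.sum_congr rfl fun c _ => ?_
        rw [hb, hwt]) (fun _ => ⟨0, hk⟩)
    unfold tst
    rw [← div_div, div_right_comm, le_div_iff₀ (by positivity), mul_comm]
    exact h1
  obtain ⟨T, F, hT, hF, h3, h4⟩ := freeze hk (D := DS dm) (DS_meas hg.hdm)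
    (Bad := BadS dm viol 𝓖) (badS_loc hg.hloc 𝓖)
    (fun T hT => badS_meas hg.hG hg.hdm hg.hvm T hT) (A := A) (by
      have := atoms_meas hg.hB hg.hdm (N := 5 * (d + 1) * j) (d := d) hA
      exact this)
    (c0 := fun S => Γ ^ S.card) (fun S => by positivity)
    ((measurable_of_countable fun n : ℕ => Γ ^ n).comp scard_meas) (b := b)
    (fun c => (hb0 c).le) hbm (Nt := fun c => at' c.1) (Nv := Nv)
    ((by fun_prop : Measurable fun p : (Y × ℕ) × V => (p.1.1, p.2)) hatm) hNvm hio0 hiom hlam0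
    (by
      intro v S hS c hc
      obtain ⟨⟨q, hq, hx⟩, hr⟩ := mem_DS.1 hc
      exact ⟨q.2, (hat _ _).2 ⟨((hA v S).1 hS).1.1.2.1 q hq, hx⟩,
        (hA _ _).2 ⟨((hA v S).1 hS).1, q.1, hq⟩⟩)
    (by
      intro v S hS c hc
      have h5 := hAc v S hS
      obtain ⟨⟨h1, -⟩, i', hi'⟩ := (hA v S).1 hS
      obtain ⟨⟨⟨i, u⟩, hq, hx⟩, hr⟩ := mem_DS.1 hc
      exact (hNv c v).2 ⟨u, h1.2.1 _ hq, hx, str_bl2 hg.hne h1 hi' hq (by omega)⟩)
    (by
      intro c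
      have h1 : ((at' c.1).card : ℝ) ≤ (d : ℝ) + 1 := by
        exact_mod_cast at_card hg.hdeg (z := c.1) fun u hu => (hat _ _).1 hu
      have h2 := hexp c
      calc k * lam * (((at' c.1).card : ℝ) * iot c) ≤ k * lam * (((d : ℝ) + 1) * iot c) := by
            refine mul_le_mul_of_nonneg_left ?_ (by positivity)
            exact mul_le_mul_of_nonneg_right h1 (hio0 c).le
        _ = 1 - Real.exp (-b c) := by
            rw [hio]
            field_simp)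
    hκm (by
      intro v S hS S' hS' c hc c' hc' h
      exact hκ₁ v c (hAD v S hS c hc) c' (hAD v S' hS' c' hc') (hκi c c' h).1)
    μ hW hReg hB1 hB2 (by
      intro x S hS c hc c' hc' h
      have h1 := hBE x S hS
      exact hκ₂ x c ((hR x c).2 ⟨S, h1, hc⟩) c' ((hR x c').2 ⟨S, h1, hc'⟩) (hκi c c' h).2)
    (ζ := 1 / Γ ^ j) (by
      intro v
      have h1 : 0 < 1 / lam := by positivity
      linarith [htst v])
  refine ⟨T, F, hT, hF, ?_, ?_⟩
  · rw [hlam] at h3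
    exact h3
  · refine h4.trans (lintegral_mono fun x => ENNReal.ofReal_le_ofReal ?_)
    unfold phi
    refine add_le_add_left ?_ _
    refine mul_le_mul_of_nonneg_left ?_ hW
    refine add_le_add_left (Finset.sum_le_sum fun c _ => ?_) _
    unfold th
    rw [if_pos (Nat.zero_le _)]
    unfold BB
    refine add_le_add ?_ ?_
    · have e1 : (1 - Real.exp (-(Real.log Γ / (((5 * (d + 1) * j : ℕ) : ℝ) *
          (1 + ∑ u ∈ at' c.1, ((dm u).card : ℝ)))))) / (k * Γ ^ (2 * j) * ((d : ℝ) + 1)) =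
          iot c := by
        rw [hio, hb, hwt, hlam, hN]
      rw [e1]
      calc ∑ u ∈ at' c.1, tst (DS dm) (BadS dm viol 𝓖) A (fun S => Γ ^ S.card) b univ
            (fun _ => ⟨0, hk⟩) u / iot c
          ≤ ∑ _u ∈ at' c.1, 1 / (Γ ^ (3 * j) * (1 - r)) / iot c :=
            Finset.sum_le_sum fun u _ => div_le_div_of_nonneg_right (htst u) (hio0 c).le
        _ = ((at' c.1).card : ℝ) * (1 / (Γ ^ (3 * j) * (1 - r)) / iot c) := by
            rw [Finset.sum_const, nsmul_eq_mul]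
        _ ≤ _ := by
            refine mul_le_mul_of_nonneg_right ?_ ?_
            · exact_mod_cast at_card hg.hdeg (z := c.1) fun u hu => (hat _ _).1 hu
            · have := hio0 c
              positivity
    · calc ∑ v ∈ Nv c, Real.exp (lam * (tst (DS dm) (BadS dm viol 𝓖) A
            (fun S => Γ ^ S.card) b univ (fun _ => ⟨0, hk⟩) v - 1 / Γ ^ j))
          ≤ ∑ _v ∈ Nv c, Real.exp (Γ ^ (2 * j) *
            (1 / (Γ ^ (3 * j) * (1 - r)) - 1 / Γ ^ j)) := by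
            refine Finset.sum_le_sum fun v _ => Real.exp_le_exp.2 ?_
            rw [← hlam]
            refine mul_le_mul_of_nonneg_left ?_ hlam0.le
            linarith [htst v]
        _ = ((Nv c).card : ℝ) * Real.exp (Γ ^ (2 * j) *
            (1 / (Γ ^ (3 * j) * (1 - r)) - 1 / Γ ^ j)) := by rw [Finset.sum_const, nsmul_eq_mul]
        _ ≤ _ := by
            refine mul_le_mul_of_nonneg_right ?_ (Real.exp_pos _).le
            have h5 := hNvc c
            rw [hN] at h5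
            exact_mod_cast h5

end

end Pool.Agent.Helper105
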