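import Mathlib
import Pool.Agent.Helper105_All.Frz

set_option autoImplicit false

namespace Pool.Agent.Helper105

open MeasureTheory Set
open scoped Classical

attribute [-instance] Finset.instMeasurableSpace
attribute [local instance] finsetBorel sb_finset

universe u

section
variable {X Y V : Type u} [MeasurableSpace X] [StandardBorelSpace X] [MeasurableSpace Y]
  [StandardBorelSpace Y] [MeasurableSpace V] [StandardBorelSpace V] {k : ℕ}
  {dm : V → Finset Y} {viol : V → (Y → Fin k) → Prop} {𝓑 𝓖 : Set V} {Lam : X → Finset Y}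
  {ev : X → Finset V} {d : ℕ} {P s : V → ℝ} {Γ r : ℝ}

/-- the members of `𝓑` that touch `Lam x`. -/
theorem jt_exists (hg : Good dm viol 𝓑 𝓖 Lam ev d P s Γ r) : ∃ J : X → Finset V,
    (∀ x v, v ∈ J x ↔ v ∈ 𝓑 ∧ ∃ z ∈ dm v, z ∈ Lam x) ∧
      MeasurableSet {p : X × V | p.2 ∈ J p.1} := by
  have hf : ∀ x, {v | v ∈ 𝓑 ∧ ∃ z ∈ dm v, z ∈ Lam x}.Finite := by
    intro x
    refine ((Lam x).finite_toSet.biUnion (t := fun z => {v | v ∈ 𝓑 ∧ z ∈ dm v})
      fun z _ => hg.hfin z).subset ?_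
    rintro v ⟨h1, z, h2, h3⟩
    simp only [mem_iUnion]
    exact ⟨z, h3, h1, h2⟩
  refine ⟨fun x => (hf x).toFinset, fun x v => by rw [Finite.mem_toFinset]; rfl, ?_⟩
  have e : {p : X × V | p.2 ∈ (hf p.1).toFinset} = Prod.snd ⁻¹' 𝓑 ∩
      {p | ∃ z ∈ dm p.2, z ∈ Lam p.1} := by
    ext p
    simp
  rw [e]
  refine (measurable_snd hg.hB).inter (exists_mem_meas (F := fun p : X × V => dm p.2) ?_
    (P := fun p z => z ∈ Lam p.1) ?_)
  · exact (by fun_prop : Measurable fun p : (X × V) × Y => (p.1.2, p.2)) hg.hdm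
  · exact (by fun_prop : Measurable fun p : (X × V) × Y => (p.1.1, p.2)) hg.hLam

/-- the structures that are watched at the next level. -/
theorem e1_exists (hg : Good dm viol 𝓑 𝓖 Lam ev d P s Γ r) (ρ N : ℕ) :
    ∃ E1 : X → Finset (Finset (ℕ × V)), (∀ x S, S ∈ E1 x ↔
      (Str dm 𝓑 S ∧ ρ + 1 ≤ S.card ∧ 5 * (d + 1) * S.card < N) ∧
        ∃ v, (0, v) ∈ S ∧ ∃ z ∈ dm v, z ∈ Lam x) ∧
      MeasurableSet {p : X × Finset (ℕ × V) | p.2 ∈ E1 p.1} := by
  obtain ⟨J, hJ, -⟩ := jt_exists hg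
  have hf : ∀ x, {S : Finset (ℕ × V) | (Str dm 𝓑 S ∧ ρ + 1 ≤ S.card ∧
      5 * (d + 1) * S.card < N) ∧ ∃ v, (0, v) ∈ S ∧ ∃ z ∈ dm v, z ∈ Lam x}.Finite := by
    intro x
    refine (Finset.finite_toSet (Finset.range (N + 1) ×ˢ
      ((J x).biUnion fun v => (bl_fin hg.hfin N v).toFinset)).powerset).subset ?_
    rintro S ⟨⟨h1, h2, h3⟩, v, hv, hz⟩
    rw [Finset.mem_coe, Finset.mem_powerset]
    rintro ⟨i, u⟩ hq
    have h4 : S.card ≤ 5 * (d + 1) * S.card := Nat.le_mul_of_pos_left _ (by omega)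
    have h5 := str_lvl h1 hq
    obtain ⟨a, haB, ha⟩ := str_top h1
    rw [(ha v).1 hv] at hz
    have h6 := str_bl h1 ha hq
    rw [Finset.mem_product, Finset.mem_range, Finset.mem_biUnion]
    refine ⟨by simp only; omega, a, (hJ x a).2 ⟨haB, hz⟩, ?_⟩
    rw [Finite.mem_toFinset]
    exact bl_mono hg.hne (by omega) haB h6
  refine ⟨fun x => (hf x).toFinset, fun x S => by rw [Finite.mem_toFinset]; rfl, ?_⟩
  have e : {p : X × Finset (ℕ × V) | p.2 ∈ (hf p.1).toFinset} =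
      (Prod.snd ⁻¹' {S : Finset (ℕ × V) | Str dm 𝓑 S} ∩ ({p | ρ + 1 ≤ p.2.card} ∩
        {p | 5 * (d + 1) * p.2.card < N})) ∩
      {p | ∃ q ∈ p.2, (q.1 = 0 ∧ ∃ z ∈ dm q.2, z ∈ Lam p.1)} := by
    ext p
    simp only [mem_ofPred_eq, Finite.mem_toFinset, mem_inter_iff, mem_preimage]
    refine and_congr Iff.rfl ?_
    constructor
    · rintro ⟨v, hv, hz⟩
      exact ⟨(0, v), hv, rfl, hz⟩
    · rintro ⟨⟨i, v⟩, hv, hi, hz⟩
      simp only at hi hz
      subst hi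
      exact ⟨v, hv, hz⟩
  rw [e]
  have hc : Measurable fun q : X × Finset (ℕ × V) => q.2.card := scard_meas.comp measurable_snd
  refine MeasurableSet.inter (MeasurableSet.inter ?_ (MeasurableSet.inter ?_ ?_)) ?_
  · exact measurable_snd (str_meas hg.hB hg.hdm)
  · exact measurableSet_le measurable_const hc
  · exact measurableSet_lt (hc.const_mul _) measurable_const
  · refine exists_mem_meas (F := fun p : X × Finset (ℕ × V) => p.2) ?_
      (P := fun p q => q.1 = 0 ∧ ∃ z ∈ dm q.2, z ∈ Lam p.1) ?_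
    · exact (by fun_prop : Measurable fun p : (X × Finset (ℕ × V)) × (ℕ × V) =>
        (p.1.2, p.2)) selfmem
    · refine MeasurableSet.inter ?_ (exists_mem_meas
        (F := fun p : (X × Finset (ℕ × V)) × (ℕ × V) => dm p.2.2) ?_
        (P := fun p z => z ∈ Lam p.1.1) ?_)
      · exact measurableSet_eq_fun (by fun_prop) measurable_const
      · exact (by fun_prop : Measurable fun p : ((X × Finset (ℕ × V)) × (ℕ × V)) × Y =>
          (p.1.2.2, p.2)) hg.hdm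
      · exact (by fun_prop : Measurable fun p : ((X × Finset (ℕ × V)) × (ℕ × V)) × Y =>
          (p.1.1.1, p.2)) hg.hLam

theorem strB_meas (h𝓑 : MeasurableSet 𝓑) (hdm : MeasurableSet {p : V × Y | p.2 ∈ dm p.1})
    (hfin : ∀ x, {v | v ∈ 𝓑 ∧ x ∈ dm v}.Finite) (t : ℕ) :
    MeasurableSet {p : V × Finset (ℕ × V) | StrB dm 𝓑 p.1 t p.2} := by
  have hm := meets_meas (dm := dm) hdm
  have hnb : ∀ a, {w | w ∈ 𝓑 ∧ meets dm w a}.Finite := by
    intro a
    refine ((dm a).finite_toSet.biUnion (t := fun x => {w | w ∈ 𝓑 ∧ x ∈ dm w})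
        fun x _ => hfin x).subset ?_
    rintro w ⟨h1, x, h2, h3⟩
    simp only [mem_iUnion]
    exact ⟨x, h3, h1, h2⟩
  have e : {p : V × Finset (ℕ × V) | StrB dm 𝓑 p.1 t p.2} =
      ({p | ∃ q ∈ p.2, (q.1 = 0 ∧ q.2 = p.1)} ∩ {p | ∀ q ∈ p.2, (q.1 = 0 → q.2 = p.1)}) ∩
      ({p | ∀ q ∈ p.2, (q.1 = 0 ∨ (q.2 ∈ 𝓑 ∧ ∃ w, (w ∈ 𝓑 ∧ meets dm w p.1) ∧
        Bl dm 𝓑 t w q.2))} ∩
      ({p | ∀ q ∈ p.2, (q.1 = 0 ∨ ∃ q' ∈ p.2, q'.1 + 1 = q.1 ∧ meets dm q.2 q'.2)} ∩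
      ({p | ∀ q ∈ p.2, ∀ q' ∈ p.2, (q.1 = q'.1 ∧ meets dm q.2 q'.2) → q = q'} ∩
      {p | ∀ q ∈ p.2, q.1 ≤ t}))) := by
    ext ⟨a, S⟩
    simp only [mem_ofPred_eq, mem_inter_iff, StrB]
    refine and_congr ?_ (and_congr ?_ (and_congr ?_ (and_congr ?_ Iff.rfl)))
    · constructor
      · intro hv
        refine ⟨⟨(0, a), (hv a).2 rfl, rfl, rfl⟩, ?_⟩
        rintro ⟨i, b⟩ hq h1
        simp only at h1
        subst h1
        exact (hv b).1 hq
      · rintro ⟨⟨⟨i, v⟩, hq, h1, h2⟩, h3⟩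
        simp only at h1 h2
        subst h1
        subst h2
        intro u
        exact ⟨fun hu => h3 (0, u) hu rfl, fun hu => hu ▸ hq⟩
    · constructor
      · rintro h ⟨j, u⟩ hq
        rcases j with _ | j
        · exact Or.inl rfl
        · obtain ⟨h1, w, h2, h3, h4⟩ := h j u hq
          exact Or.inr ⟨h1, w, ⟨h2, h3⟩, h4⟩
      · intro h j u hq
        rcases h (j + 1, u) hq with h1 | ⟨h1, w, ⟨h2, h3⟩, h4⟩
        · simp at h1
        · exact ⟨h1, w, h2, h3, h4⟩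
    · constructor
      · rintro h ⟨j, u⟩ hq
        rcases j with _ | j
        · exact Or.inl rfl
        · obtain ⟨u', h1, h2⟩ := h j u hq
          exact Or.inr ⟨(j, u'), h1, rfl, h2⟩
      · intro h j u hq
        rcases h (j + 1, u) hq with h1 | ⟨⟨i, u'⟩, h1, h2, h3⟩
        · simp at h1
        · simp only at h2 h3
          have : i = j := by omega
          subst this
          exact ⟨u', h1, h3⟩
    · constructor
      · intro h q hq q' hq' h1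
        exact h q hq q' hq' h1.1 h1.2
      · intro h q hq q' hq' h1 h2
        exact h q hq q' hq' ⟨h1, h2⟩
  have hq1 : MeasurableSet {p : (V × Finset (ℕ × V)) × (ℕ × V) | p.2 ∈ p.1.2} :=
    (by fun_prop : Measurable fun p : (V × Finset (ℕ × V)) × (ℕ × V) => (p.1.2, p.2)) selfmem
  have hq2 : MeasurableSet {p : ((V × Finset (ℕ × V)) × (ℕ × V)) × (ℕ × V) | p.2 ∈ p.1.1.2} :=
    (by fun_prop : Measurable fun p : ((V × Finset (ℕ × V)) × (ℕ × V)) × (ℕ × V) =>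
      (p.1.1.2, p.2)) selfmem
  rw [e]
  refine MeasurableSet.inter (MeasurableSet.inter ?_ ?_) (MeasurableSet.inter ?_
    (MeasurableSet.inter ?_ (MeasurableSet.inter ?_ ?_)))
  · refine exists_mem_meas (F := fun p : V × Finset (ℕ × V) => p.2) hq1
      (P := fun p q => q.1 = 0 ∧ q.2 = p.1) (MeasurableSet.inter ?_ ?_)
    · exact measurableSet_eq_fun (by fun_prop) measurable_const
    · exact measurableSet_eq_fun (by fun_prop) (by fun_prop)
  · refine forall_mem_meas (F := fun p : V × Finset (ℕ × V) => p.2) hq1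
      (P := fun p q => q.1 = 0 → q.2 = p.1) (MeasurableSet.imp ?_ ?_)
    · exact measurableSet_eq_fun (by fun_prop) measurable_const
    · exact measurableSet_eq_fun (by fun_prop) (by fun_prop)
  · refine forall_mem_meas (F := fun p : V × Finset (ℕ × V) => p.2) hq1
      (P := fun p q => q.1 = 0 ∨ (q.2 ∈ 𝓑 ∧ ∃ w, (w ∈ 𝓑 ∧ meets dm w p.1) ∧
        Bl dm 𝓑 t w q.2)) (MeasurableSet.union ?_ (MeasurableSet.inter ?_ ?_))
    · exact measurableSet_eq_fun (by fun_prop) measurable_const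
    · exact (by fun_prop : Measurable fun p : (V × Finset (ℕ × V)) × (ℕ × V) => p.2.2) h𝓑
    · have e2 : {p : (V × Finset (ℕ × V)) × (ℕ × V) | ∃ w, (w ∈ 𝓑 ∧ meets dm w p.1.1) ∧
          Bl dm 𝓑 t w p.2.2} = {p | ∃ w, (p, w) ∈ {r : ((V × Finset (ℕ × V)) × (ℕ × V)) × V |
          (r.2 ∈ 𝓑 ∧ meets dm r.2 r.1.1.1) ∧ Bl dm 𝓑 t r.2 r.1.2.2}} := rfl
      show MeasurableSet {p : (V × Finset (ℕ × V)) × (ℕ × V) |
        ∃ w, (w ∈ 𝓑 ∧ meets dm w p.1.1) ∧ Bl dm 𝓑 t w p.2.2}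
      rw [e2]
      refine proj (MeasurableSet.inter (MeasurableSet.inter ?_ ?_) ?_) fun p => ?_
      · exact measurable_snd h𝓑
      · exact (by fun_prop : Measurable fun r : ((V × Finset (ℕ × V)) × (ℕ × V)) × V =>
          (r.2, r.1.1.1)) hm
      · exact (by fun_prop : Measurable fun r : ((V × Finset (ℕ × V)) × (ℕ × V)) × V =>
          (r.2, r.1.2.2)) (bl_meas h𝓑 hdm hfin t)
      · exact ((hnb p.1.1).subset fun w hw => hw.1).countable
  · refine forall_mem_meas (F := fun p : V × Finset (ℕ × V) => p.2) hq1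
      (P := fun p q => q.1 = 0 ∨ ∃ q' ∈ p.2, q'.1 + 1 = q.1 ∧ meets dm q.2 q'.2)
      (MeasurableSet.union ?_ ?_)
    · exact measurableSet_eq_fun (by fun_prop) measurable_const
    · refine exists_mem_meas (F := fun p : (V × Finset (ℕ × V)) × (ℕ × V) => p.1.2) hq2
        (P := fun p q' => q'.1 + 1 = p.2.1 ∧ meets dm p.2.2 q'.2) (MeasurableSet.inter ?_ ?_)
      · exact measurableSet_eq_fun (by fun_prop) (by fun_prop)
      · exact (by fun_prop : Measurable fun p : ((V × Finset (ℕ × V)) × (ℕ × V)) × (ℕ × V) =>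
          (p.1.2.2, p.2.2)) hm
  · refine forall_mem_meas (F := fun p : V × Finset (ℕ × V) => p.2) hq1
      (P := fun p q => ∀ q' ∈ p.2, (q.1 = q'.1 ∧ meets dm q.2 q'.2) → q = q') ?_
    refine forall_mem_meas (F := fun p : (V × Finset (ℕ × V)) × (ℕ × V) => p.1.2) hq2
      (P := fun p q' => (p.2.1 = q'.1 ∧ meets dm p.2.2 q'.2) → p.2 = q')
      (MeasurableSet.imp (MeasurableSet.inter ?_ ?_) ?_)
    · exact measurableSet_eq_fun (by fun_prop) (by fun_prop)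
    · exact (by fun_prop : Measurable fun p : ((V × Finset (ℕ × V)) × (ℕ × V)) × (ℕ × V) =>
        (p.1.2.2, p.2.2)) hm
    · exact measurableSet_eq_fun (by fun_prop) (by fun_prop)
  · refine forall_mem_meas (F := fun p : V × Finset (ℕ × V) => p.2) hq1
      (P := fun _ q => q.1 ≤ t) ?_
    exact measurableSet_le (by fun_prop) measurable_const

/-- the structures below the soft events. -/
theorem e2_exists (hg : Good dm viol 𝓑 𝓖 Lam ev d P s Γ r) (t : ℕ) :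
    ∃ E2 : X → Finset (Finset (ℕ × V)), (∀ x S, S ∈ E2 x ↔ ∃ a ∈ ev x, StrB dm 𝓑 a t S) ∧
      MeasurableSet {p : X × Finset (ℕ × V) | p.2 ∈ E2 p.1} := by
  have hf : ∀ x, {S : Finset (ℕ × V) | ∃ a ∈ ev x, StrB dm 𝓑 a t S}.Finite := by
    intro x
    refine ((ev x).finite_toSet.biUnion (t := fun a => {S : Finset (ℕ × V) | StrB dm 𝓑 a t S})
      fun a _ => ?_).subset ?_
    · refine (Finset.finite_toSet (Finset.range (t + 1) ×ˢ
        (insert a ((nbf dm 𝓑 a).biUnion fun w =>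
          (bl_fin hg.hfin t w).toFinset))).powerset).subset ?_
      rintro S ⟨h1, h2, -, -, h5⟩
      rw [Finset.mem_coe, Finset.mem_powerset]
      rintro ⟨i, u⟩ hq
      have h6 := h5 _ hq
      rw [Finset.mem_product, Finset.mem_range, Finset.mem_insert, Finset.mem_biUnion]
      refine ⟨by simp only at h6 ⊢; omega, ?_⟩
      rcases i with _ | i
      · exact Or.inl ((h1 u).1 hq)
      · obtain ⟨-, w, hw, hm, hb⟩ := h2 i u hq
        exact Or.inr ⟨w, (mem_nbf hg.hfin).2 ⟨hw, hm⟩, (Finite.mem_toFinset _).2 hb⟩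
    · rintro S ⟨a, ha, hS⟩
      simp only [mem_iUnion]
      exact ⟨a, ha, hS⟩
  refine ⟨fun x => (hf x).toFinset, fun x S => by rw [Finite.mem_toFinset]; rfl, ?_⟩
  have e : {p : X × Finset (ℕ × V) | p.2 ∈ (hf p.1).toFinset} =
      {p | ∃ a ∈ ev p.1, StrB dm 𝓑 a t p.2} := by
    ext p
    simp only [mem_ofPred_eq, Finite.mem_toFinset]
  rw [e]
  refine exists_mem_meas (F := fun p : X × Finset (ℕ × V) => ev p.1) ?_
    (P := fun p a => StrB dm 𝓑 a t p.2) ?_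
  · exact (by fun_prop : Measurable fun p : (X × Finset (ℕ × V)) × V => (p.1.1, p.2)) hg.hev
  · exact (by fun_prop : Measurable fun p : (X × Finset (ℕ × V)) × V => (p.2, p.1.2))
      (strB_meas hg.hB hg.hdm hg.hfin t)

theorem e1_reg (hg : Good dm viol 𝓑 𝓖 Lam ev d P s Γ r) {N : ℕ} {S : Finset (ℕ × V)}
    (hS : Str dm 𝓑 S) (hSN : S.card ≤ N) {x : X} (hx : ∃ v, (0, v) ∈ S ∧ ∃ z ∈ dm v, z ∈ Lam x)
    {c : Y × ℕ} (hc : c ∈ DS dm S) : YR dm 𝓑 (Lam x) N c.1 := by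
  obtain ⟨v, hv, hz⟩ := hx
  obtain ⟨a, haB, ha⟩ := str_top hS
  rw [(ha v).1 hv] at hz
  obtain ⟨⟨⟨i, u⟩, hq, hcu⟩, -⟩ := mem_DS.1 hc
  have h5 := str_lvl hS hq
  exact Or.inr ⟨a, haB, hz, u, bl_mono hg.hne (by omega) haB (str_bl hS ha hq), hcu⟩

theorem e2_reg (hg : Good dm viol 𝓑 𝓖 Lam ev d P s Γ r) {t : ℕ} {S : Finset (ℕ × V)} {x : X}
    {a : V} (ha : a ∈ ev x) (hS : StrB dm 𝓑 a t S) {c : Y × ℕ} (hc : c ∈ DS dm S) :
    YR dm 𝓑 (Lam x) t c.1 := by
  obtain ⟨h1, h2, -, -, h5⟩ := hS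
  have haL := (hg.hevG x a ha).2
  obtain ⟨⟨⟨i, u⟩, hq, hcu⟩, -⟩ := mem_DS.1 hc
  rcases i with _ | i
  · rw [(h1 u).1 hq] at hcu
    exact Or.inl (haL _ hcu)
  · obtain ⟨-, w, hw, ⟨z, hz, hza⟩, hb⟩ := h2 i u hq
    exact Or.inr ⟨w, hw, ⟨z, hz, haL z hza⟩, u, hb, hcu⟩

end

end Pool.Agent.Helper105
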