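import Mathlib
import Pool.Agent.Helper105_All.Ext
import Pool.Agent.Helper105_All.Resid

set_option autoImplicit false

namespace Pool.Agent.Helper105

open MeasureTheory Set Filter
open scoped Classical Topology

attribute [-instance] Finset.instMeasurableSpace
attribute [local instance] finsetBorel sb_finset

universe u

theorem markov {X : Type*} [MeasurableSpace X] {μ : Measure X} {I : X → ℝ} (hI : Measurable I)
    {m a b : ℝ} (h : ∫⁻ x, ENNReal.ofReal (I x) ∂μ ≤ ENNReal.ofReal m) (ha : 0 < a)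
    (hab : m ≤ a * b) : μ {x | a ≤ I x} ≤ ENNReal.ofReal b := by
  have h1 := mul_meas_ge_le_lintegral (μ := μ) hI.ennreal_ofReal (ENNReal.ofReal a)
  have h2 : ENNReal.ofReal a * μ {x | a ≤ I x} ≤ ENNReal.ofReal a * ENNReal.ofReal b := by
    rw [← ENNReal.ofReal_mul ha.le]
    refine le_trans ?_ ((h1.trans h).trans (ENNReal.ofReal_le_ofReal hab))
    gcongr
    intro hx
    exact ENNReal.ofReal_le_ofReal hx
  exact (ENNReal.mul_le_mul_iff_right (ENNReal.ofReal_pos.2 ha).ne' ENNReal.ofReal_ne_top).1 h2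

theorem BB_meas (Γ r : ℝ) (d k j : ℕ) : Measurable (BB Γ r d k j) := by
  unfold BB
  fun_prop

section
variable {X Y V : Type u} [MeasurableSpace X] [StandardBorelSpace X] [MeasurableSpace Y]
  [StandardBorelSpace Y] [MeasurableSpace V] [StandardBorelSpace V] {k : ℕ}
  {dm : V → Finset Y} {viol : V → (Y → Fin k) → Prop} {𝓑 𝓖 : Set V} {Lam : X → Finset Y}
  {ev : X → Finset V} {d : ℕ} {P s : V → ℝ} {Γ r : ℝ}

theorem atoms_card (hg : Good dm viol 𝓑 𝓖 Lam ev d P s Γ r) {N : ℕ}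
    {A : V → Finset (Finset (ℕ × V))} (hA : ∀ v S, S ∈ A v ↔
      (Str dm 𝓑 S ∧ (N ≤ 5 * (d + 1) * S.card ∧ 4 * S.card ≤ N)) ∧ ∃ j, (j, v) ∈ S) (v : V) :
    (A v).card ≤ 2 ^ ((N + 1) * (d + 1) ^ N) := by
  by_cases hv : v ∈ 𝓑
  · obtain ⟨U, hU1, hU2⟩ := ball_card hg.hfin hg.hdeg N hv
    have h1 : A v ⊆ (Finset.range (N + 1) ×ˢ U).powerset := by
      intro S hS
      obtain ⟨⟨h1, h2, h3⟩, i, hi⟩ := (hA v S).1 hS
      rw [Finset.mem_powerset]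
      rintro ⟨i', u⟩ hq
      rw [Finset.mem_product, Finset.mem_range]
      have := str_lvl h1 hq
      exact ⟨by simp only; omega, hU2 u (str_bl2 hg.hne h1 hq hi (by omega))⟩
    refine (Finset.card_le_card h1).trans ?_
    rw [Finset.card_powerset, Finset.card_product, Finset.card_range]
    exact Nat.pow_le_pow_right (by norm_num) (Nat.mul_le_mul_left _ hU1)
  · have h1 : A v = ∅ := by
      rw [Finset.eq_empty_iff_forall_notMem]
      intro S hS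
      obtain ⟨⟨h1, -⟩, i, hi⟩ := (hA v S).1 hS
      exact hv (h1.2.1 _ hi)
    rw [h1, Finset.card_empty]
    exact Nat.zero_le _

/-- One level of the construction. -/
theorem step_raw (hk : 0 < k) (μ : Measure X) [IsProbabilityMeasure μ]
    (hg : Good dm viol 𝓑 𝓖 Lam ev d P s Γ r) {δ : ℝ} (hδ : 0 ≤ δ) {X₀ : Set X}
    (hX₀ : MeasurableSet X₀) (hμX₀ : μ X₀ᶜ ≤ ENNReal.ofReal δ)
    (hcost : ∀ x ∈ X₀, ∑ a ∈ ev x, P a * ∏ b ∈ nbf dm 𝓑 a, (1 + s b) ≤ δ) {δ' : ℝ}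
    (hδ' : 0 < δ') :
    ∃ (T : Y × ℕ → Fin k) (F : Set (Y × ℕ)) (N Kc : ℕ) (C : X → Finset (Y × ℕ))
      (ev' : X → Finset (Finset (ℕ × V))) (c : V → ℕ) (χ t ts : ℕ) (G X₁ : Set X),
      (Measurable T ∧ MeasurableSet F ∧ Measurable c) ∧
      Good (dmF dm F) (violF dm viol F T) (resB dm 𝓑 d N F) {S | ∀ q ∈ S, q.2 ∈ 𝓑} C ev'
        ((d + 1) * N * Kc) (fun S => cp (DS dm S) (BadS dm viol 𝓖 S) F T)
        (fun S => Γ ^ S.card * cp (DS dm S) (BadS dm viol 𝓖 S) F T) (Γ ^ ((1 : ℝ) / 10))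
        (1 / 2) ∧
      (MeasurableSet X₁ ∧ μ X₁ᶜ ≤ ENNReal.ofReal δ' ∧ ∀ x ∈ X₁, ∑ S ∈ ev' x,
        cp (DS dm S) (BadS dm viol 𝓖 S) F T * ∏ b ∈ nbf (dmF dm F) (resB dm 𝓑 d N F) S,
          (1 + Γ ^ b.card * cp (DS dm b) (BadS dm viol 𝓖 b) F T) ≤ δ') ∧
      (MeasurableSet G ∧ μ Gᶜ ≤ ENNReal.ofReal (2 * (δ + δ'))) ∧
      (∀ x ∈ G, (∀ v ∈ 𝓑, (∃ z ∈ dm v, z ∈ Lam x) → ¬ viol v (stt dm viol 𝓑 c χ T t)) ∧
        ∀ a ∈ ev x, ¬ viol a (stt dm viol 𝓑 c χ T t)) ∧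
      (∀ x ∈ G, ∀ g, (∀ S ∈ resB dm 𝓑 d N F, (∃ c ∈ dmF dm F S, c ∈ C x) →
        ¬ violF dm viol F T S g) → (∀ S ∈ ev' x, ¬ violF dm viol F T S g) →
        ∀ y ∈ Lam x, PsiF dm viol 𝓑 c χ F T ts g y = stt dm viol 𝓑 c χ T t y) ∧
      (∀ x g, (∀ S ∈ resB dm 𝓑 d N F, (∃ c ∈ dmF dm F S, c ∈ C x) →
        ¬ violF dm viol F T S g) → ∀ v ∈ 𝓑, (∃ z ∈ dm v, z ∈ Lam x) →
        ¬ viol v (PsiF dm viol 𝓑 c χ F T ts g)) ∧
      ∀ x g₁ g₂, (∀ c ∈ C x, g₁ c = g₂ c) → ∀ y ∈ Lam x,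
        PsiF dm viol 𝓑 c χ F T ts g₁ y = PsiF dm viol 𝓑 c χ F T ts g₂ y := by
  have hΓ0 : 0 < Γ := by have := hg.hΓ; linarith
  obtain ⟨W, hW⟩ : ∃ W : ℝ, W = 1 + 4 * (δ + δ') / δ' ^ 2 := ⟨_, rfl⟩
  have hW1 : 1 ≤ W := by
    rw [hW]
    have : 0 ≤ 4 * (δ + δ') / δ' ^ 2 := by positivity
    linarith
  have hW0 : 0 < W := by linarith
  obtain ⟨η, hη⟩ : ∃ η : ℝ, η = δ' / (2 * W) := ⟨_, rfl⟩
  have hη0 : 0 < η := by rw [hη]; positivity
  -- the colouring of the events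
  obtain ⟨c, hcm, hcχ, hc⟩ := exists_fincolor hg.hB hg.hdm hg.hfin hg.hdeg hg.hne
  -- the threshold for the size
  obtain ⟨J, hJ, hJm⟩ := jt_exists hg
  have hJc : Measurable fun x => ((J x).card : ℝ) :=
    (measurable_of_countable fun n : ℕ => (n : ℝ)).comp (card_meas hJm)
  obtain ⟨ρ, -, hρ⟩ := exists_small μ (f := fun ρ x => ((J x).card : ℝ) * (1 / Γ ^ (5 * (ρ + 1))))
    (fun n => hJc.mul_const _) (fun x => by
      have h1 : Tendsto (fun n : ℕ => 5 * (n + 1)) atTop atTop :=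
        tendsto_atTop_mono (fun n => (by omega : n ≤ 5 * (n + 1))) tendsto_id
      have h2 : Tendsto (fun n : ℕ => 1 / Γ ^ (5 * (n + 1))) atTop (𝓝 0) :=
        tendsto_const_nhds.div_atTop
          ((tendsto_pow_atTop_atTop_of_one_lt hg.hΓ).comp h1)
      have h3 := h2.const_mul ((J x).card : ℝ)
      simpa using h3) (E := fun _ => True) (Eventually.of_forall fun _ => trivial) hη0
      (show (0 : ℝ) < δ' / 4 by positivity)
  obtain ⟨t, ht⟩ : ∃ t, t = (d + 1) * ρ := ⟨_, rfl⟩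
  obtain ⟨Reg₀, hReg₀, hReg₀m, -⟩ := cr_exists hg.hB hg.hdm hg.hfin hg.hLam hg.hLamf (t + 2)
  obtain ⟨at', hat, hatm⟩ := at_exists hg
  obtain ⟨wt, hwt⟩ : ∃ wt : Y → ℝ, ∀ y, wt y = 1 + ∑ u ∈ at' y, ((dm u).card : ℝ) :=
    ⟨_, fun _ => rfl⟩
  have hwt1 : ∀ y, 1 ≤ wt y := by
    intro y
    rw [hwt]
    have := Finset.sum_nonneg (s := at' y) (f := fun u => ((dm u).card : ℝ))
      fun u _ => Nat.cast_nonneg _
    linarith
  have hwtm : Measurable wt := by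
    have e : wt = fun y => 1 + ∑ u ∈ at' y, ((dm u).card : ℝ) := funext hwt
    rw [e]
    refine (measurable_fsum at' hatm (fun _ u => ((dm u).card : ℝ)) ?_).const_add 1
    exact ((measurable_of_countable fun n : ℕ => (n : ℝ)).comp (dmcard_meas hg)).comp
      measurable_snd
  obtain ⟨hnum1, hnum2⟩ := numG hg.hΓ hg.hr hg.hr1 d k
  have hBm : ∀ n, Measurable fun x => ∑ c ∈ Reg₀ x, BB Γ r d k n (wt c.1) := fun n =>
    measurable_fsum Reg₀ hReg₀m (fun _ c => BB Γ r d k n (wt c.1))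
      ((BB_meas Γ r d k n).comp (hwtm.comp (measurable_fst.comp measurable_snd)))
  obtain ⟨j, ⟨hj16, hj1, hj2, hj3, hj4⟩, hj⟩ := exists_small μ
    (f := fun n x => ∑ c ∈ Reg₀ x, BB Γ r d k n (wt c.1)) hBm
    (fun x => by
      have h1 := tendsto_finset_sum (Reg₀ x) fun c _ => hnum2 (wt c.1) (hwt1 c.1)
      simpa using h1) hnum1 hη0 (show (0 : ℝ) < δ' / 4 by positivity)
  obtain ⟨N, hN⟩ : ∃ N, N = 5 * (d + 1) * j := ⟨_, rfl⟩
  have hN16 : 16 ≤ N := by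
    have h1 : 1 * 16 ≤ 5 * (d + 1) * j := Nat.mul_le_mul (by omega) hj16
    omega
  obtain ⟨A, hA⟩ := atoms_exist (dm := dm) (𝓑 := 𝓑) hg.hne hg.hfin N d
  obtain ⟨E1, hE1, hE1m⟩ := e1_exists hg ρ N
  obtain ⟨E2, hE2, hE2m⟩ := e2_exists hg t
  obtain ⟨X₁', hX₁'⟩ : ∃ X₁' : Set X, X₁' = {x | ((J x).card : ℝ) * (1 / Γ ^ (5 * (ρ + 1))) ≤ η} ∩
      {x | ∑ c ∈ Reg₀ x, BB Γ r d k j (wt c.1) ≤ η} := ⟨_, rfl⟩
  have hX₁'m : MeasurableSet X₁' := by
    rw [hX₁']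
    exact (measurableSet_le (hJc.mul_const _) measurable_const).inter
      (measurableSet_le (hBm j) measurable_const)
  have hX₁'μ : μ X₁'ᶜ ≤ ENNReal.ofReal (δ' / 2) := by
    have e : X₁'ᶜ = {x | η < ((J x).card : ℝ) * (1 / Γ ^ (5 * (ρ + 1)))} ∪
        {x | η < ∑ c ∈ Reg₀ x, BB Γ r d k j (wt c.1)} := by
      ext x
      rw [hX₁']
      simp only [mem_compl_iff, mem_inter_iff, mem_ofPred_eq, mem_union, not_and_or, not_le]
    rw [e]
    refine (measure_union_le _ _).trans ((add_le_add hρ hj).trans ?_)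
    rw [← ENNReal.ofReal_add (by positivity) (by positivity)]
    exact ENNReal.ofReal_le_ofReal (by linarith)
  obtain ⟨Reg, hReg⟩ : ∃ Reg : X → Finset (Y × ℕ), ∀ x, Reg x = if x ∈ X₁' then Reg₀ x else ∅ :=
    ⟨_, fun _ => rfl⟩
  obtain ⟨B1, hB1⟩ : ∃ B1 : X → Finset (Finset (ℕ × V)), ∀ x, B1 x =
      if x ∈ X₁' then E1 x else ∅ := ⟨_, fun _ => rfl⟩
  obtain ⟨B2, hB2⟩ : ∃ B2 : X → Finset (Finset (ℕ × V)), ∀ x, B2 x =
      if x ∈ X₀ then E2 x else ∅ := ⟨_, fun _ => rfl⟩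
  have hres : ∀ (Q : Type u) [MeasurableSpace Q] (X₂ : Set X) (hX₂ : MeasurableSet X₂)
      (E B : X → Finset Q) (hE : MeasurableSet {p : X × Q | p.2 ∈ E p.1})
      (hB : ∀ x, B x = if x ∈ X₂ then E x else ∅), MeasurableSet {p : X × Q | p.2 ∈ B p.1} := by
    intro Q _ X₂ hX₂ E B hE hB
    have e : {p : X × Q | p.2 ∈ B p.1} = Prod.fst ⁻¹' X₂ ∩ {p : X × Q | p.2 ∈ E p.1} := by
      ext p
      simp only [mem_ofPred_eq, hB, mem_inter_iff, mem_preimage]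
      split_ifs with h <;> simp [h]
    rw [e]
    exact (measurable_fst hX₂).inter hE
  have hRegm := hres _ X₁' hX₁'m Reg₀ Reg hReg₀m hReg
  have hB1m := hres _ X₁' hX₁'m E1 B1 hE1m hB1
  have hB2m := hres _ X₀ hX₀ E2 B2 hE2m hB2
  obtain ⟨E, hE⟩ : ∃ E : X → Finset (Finset (ℕ × V)), ∀ x, E x = E1 x ∪ E2 x := ⟨_, fun _ => rfl⟩
  have hEm : MeasurableSet {p : X × Finset (ℕ × V) | p.2 ∈ E p.1} := by
    have e : {p : X × Finset (ℕ × V) | p.2 ∈ E p.1} =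
        {p : X × Finset (ℕ × V) | p.2 ∈ E1 p.1} ∪ {p : X × Finset (ℕ × V) | p.2 ∈ E2 p.1} := by
      ext p
      simp only [mem_ofPred_eq, hE, Finset.mem_union, mem_union]
    rw [e]
    exact hE1m.union hE2m
  have hEf : ∀ c, {x | ∃ S ∈ E x, c ∈ DS dm S}.Finite := by
    intro c
    refine (yr_inv hg.hfin hg.hLamf (N + t) c.1).subset ?_
    rintro x ⟨S, hS, hc⟩
    rw [hE, Finset.mem_union, hE1, hE2] at hS
    rcases hS with ⟨⟨h1, h2, h3⟩, h4⟩ | ⟨a, ha, h1⟩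
    · have h5 : S.card ≤ 5 * (d + 1) * S.card := Nat.le_mul_of_pos_left _ (by omega)
      exact yr_mono hg.hne (by omega) (e1_reg hg h1 (show S.card ≤ N by omega) h4 hc)
    · exact yr_mono hg.hne (by omega) (e2_reg hg ha h1 hc)
  obtain ⟨T, F, hT, hF, hM, hint⟩ := frz hk hg hj16 hj1 (A := A) (by rw [← hN]; exact hA) hat
    hatm μ hW0.le hRegm hB1m hB2m hEm hEf (by
      intro x S hS
      rw [hE, Finset.mem_union]
      rcases hS with h | h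
      · rw [hB1] at h
        split_ifs at h
        · exact Or.inl h
        · simp at h
      · rw [hB2] at h
        split_ifs at h
        · exact Or.inr h
        · simp at h)
  -- the integral
  have hint2 : ∫⁻ x, ENNReal.ofReal (W * (∑ c ∈ Reg x, (if c ∈ F then 1 else 0) +
        ∑ S ∈ B1 x, cp (DS dm S) (BadS dm viol 𝓖 S) F T) +
        ∑ S ∈ B2 x, cp (DS dm S) (BadS dm viol 𝓖 S) F T) ∂μ ≤ ENNReal.ofReal (δ + δ') := by
    refine hint.trans ?_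
    have h1 : ∀ x, W * (∑ c ∈ Reg x, BB Γ r d k j (1 + ∑ u ∈ at' c.1, ((dm u).card : ℝ)) +
        ∑ S ∈ B1 x, cp (DS dm S) (BadS dm viol 𝓖 S) univ (fun _ => ⟨0, hk⟩)) +
        ∑ S ∈ B2 x, cp (DS dm S) (BadS dm viol 𝓖 S) univ (fun _ => ⟨0, hk⟩) ≤ δ + δ' := by
      intro x
      have h2 : ∑ S ∈ B2 x, cp (DS dm S) (BadS dm viol 𝓖 S) univ (fun _ => ⟨0, hk⟩) ≤ δ := by
        rw [hB2]
        split_ifs with h
        · exact (soft_init hk hg (hE2 x) _).trans (hcost x h)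
        · rw [Finset.sum_empty]; exact hδ
      have h3 : ∑ c ∈ Reg x, BB Γ r d k j (1 + ∑ u ∈ at' c.1, ((dm u).card : ℝ)) +
          ∑ S ∈ B1 x, cp (DS dm S) (BadS dm viol 𝓖 S) univ (fun _ => ⟨0, hk⟩) ≤ η + η := by
        rw [hReg, hB1]
        split_ifs with h
        · rw [hX₁'] at h
          refine add_le_add ?_ ?_
          · refine le_trans (le_of_eq (Finset.sum_congr rfl fun c _ => ?_)) h.2
            rw [hwt]
          · refine le_trans ?_ h.1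
            have h4 := ev_init hk hg (ρ := ρ) (x := x) (J := J x)
              (fun v hv hz => (hJ x v).2 ⟨hv, hz⟩) (fun v hv => ((hJ x v).1 hv).1)
              (E1 := E1 x) (fun S hS => ⟨⟨((hE1 x S).1 hS).1.1, ((hE1 x S).1 hS).1.2.1⟩,
                ((hE1 x S).1 hS).2⟩) (fun _ => ⟨0, hk⟩)
            rw [mul_one_div, le_div_iff₀ (by positivity), mul_comm]
            exact h4
        · rw [Finset.sum_empty, Finset.sum_empty]
          linarith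
      have h4 : W * (η + η) = δ' := by
        rw [hη]
        field_simp
        ring
      have h5 := mul_le_mul_of_nonneg_left h3 hW0.le
      linarith
    calc ∫⁻ x, ENNReal.ofReal (W * (∑ c ∈ Reg x,
          BB Γ r d k j (1 + ∑ u ∈ at' c.1, ((dm u).card : ℝ)) +
          ∑ S ∈ B1 x, cp (DS dm S) (BadS dm viol 𝓖 S) univ (fun _ => ⟨0, hk⟩)) +
          ∑ S ∈ B2 x, cp (DS dm S) (BadS dm viol 𝓖 S) univ (fun _ => ⟨0, hk⟩)) ∂μ
        ≤ ∫⁻ _x, ENNReal.ofReal (δ + δ') ∂μ :=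
          lintegral_mono fun x => ENNReal.ofReal_le_ofReal (h1 x)
      _ = ENNReal.ofReal (δ + δ') := by rw [lintegral_const, measure_univ, mul_one]
  obtain ⟨a₁, ha₁⟩ : ∃ a₁ : X → ℝ, ∀ x, a₁ x = ∑ c ∈ Reg x, (if c ∈ F then (1 : ℝ) else 0) :=
    ⟨_, fun _ => rfl⟩
  obtain ⟨a₂, ha₂⟩ : ∃ a₂ : X → ℝ, ∀ x, a₂ x =
      ∑ S ∈ B1 x, cp (DS dm S) (BadS dm viol 𝓖 S) F T := ⟨_, fun _ => rfl⟩
  obtain ⟨a₃, ha₃⟩ : ∃ a₃ : X → ℝ, ∀ x, a₃ x =
      ∑ S ∈ B2 x, cp (DS dm S) (BadS dm viol 𝓖 S) F T := ⟨_, fun _ => rfl⟩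
  have hcpm : Measurable fun S => cp (DS dm S) (BadS dm viol 𝓖 S) F T :=
    cp_meas hk (DS_meas hg.hdm) (badS_loc hg.hloc 𝓖)
      (fun T hT => badS_meas hg.hG hg.hdm hg.hvm T hT) hF hT
  have ha₁m : Measurable a₁ := by
    have e : a₁ = fun x => ∑ c ∈ Reg x, (if c ∈ F then (1 : ℝ) else 0) := funext ha₁
    rw [e]
    exact measurable_fsum Reg hRegm (fun _ c => if c ∈ F then (1 : ℝ) else 0)
      (Measurable.ite (measurable_snd hF) measurable_const measurable_const)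
  have ha₂m : Measurable a₂ := by
    have e : a₂ = fun x => ∑ S ∈ B1 x, cp (DS dm S) (BadS dm viol 𝓖 S) F T := funext ha₂
    rw [e]
    exact measurable_fsum B1 hB1m (fun _ S => cp (DS dm S) (BadS dm viol 𝓖 S) F T)
      (hcpm.comp measurable_snd)
  have ha₃m : Measurable a₃ := by
    have e : a₃ = fun x => ∑ S ∈ B2 x, cp (DS dm S) (BadS dm viol 𝓖 S) F T := funext ha₃
    rw [e]
    exact measurable_fsum B2 hB2m (fun _ S => cp (DS dm S) (BadS dm viol 𝓖 S) F T)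
      (hcpm.comp measurable_snd)
  have ha₁0 : ∀ x, 0 ≤ a₁ x := fun x => by
    rw [ha₁]
    exact Finset.sum_nonneg fun c _ => by split_ifs <;> norm_num
  have ha₂0 : ∀ x, 0 ≤ a₂ x := fun x => by
    rw [ha₂]
    exact Finset.sum_nonneg fun S _ => cp_nonneg _ _ _ _
  have ha₃0 : ∀ x, 0 ≤ a₃ x := fun x => by
    rw [ha₃]
    exact Finset.sum_nonneg fun S _ => cp_nonneg _ _ _ _
  have hIm : Measurable fun x => W * (a₁ x + a₂ x) + a₃ x :=
    ((ha₁m.add ha₂m).const_mul W).add ha₃m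
  have hint3 : ∫⁻ x, ENNReal.ofReal (W * (a₁ x + a₂ x) + a₃ x) ∂μ ≤
      ENNReal.ofReal (δ + δ') := by
    simp only [ha₁, ha₂, ha₃]
    exact hint2
  have hmk1 : μ {x | 1 ≤ W * (a₁ x + a₂ x) + a₃ x} ≤ ENNReal.ofReal (δ + δ') :=
    markov hIm hint3 one_pos (by linarith)
  have hmk2 : μ {x | W * (δ' / 2) ≤ W * (a₁ x + a₂ x) + a₃ x} ≤ ENNReal.ofReal (δ' / 2) := by
    refine markov hIm hint3 (by positivity) ?_
    rw [hW]
    have e : (1 + 4 * (δ + δ') / δ' ^ 2) * (δ' / 2) * (δ' / 2) = δ' ^ 2 / 4 + (δ + δ') := by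
      field_simp
      norm_num
    rw [e]
    have : 0 ≤ δ' ^ 2 / 4 := by positivity
    linarith
  obtain ⟨ts, hts⟩ : ∃ ts, ts = (d + 1) * (N + ρ) := ⟨_, rfl⟩
  have hts1 : (d + 1) * N ≤ ts := by rw [hts]; exact Nat.mul_le_mul_left _ (by omega)
  have hts2 : t ≤ ts := by rw [hts, ht]; exact Nat.mul_le_mul_left _ (by omega)
  obtain ⟨C, hC, hCm, hCf⟩ := cr_exists hg.hB hg.hdm hg.hfin hg.hLam hg.hLamf (N + ts + 1)
  have hz0 : (0 : ℝ) ≤ 1 / Γ ^ j + 1 / Γ ^ (2 * j) := by positivity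
  obtain ⟨hcb, hgood⟩ := residual hk hg hA (Kc := 2 ^ ((N + 1) * (d + 1) ^ N))
    (atoms_card hg hA) hT hF hz0 hj2.le (by rw [hN]; exact hj3) hj4 hM hCm hCf hE1m (by
      intro x S hS
      obtain ⟨⟨h1, h2, h3⟩, h4⟩ := (hE1 x S).1 hS
      have h5 : S.card ≤ 5 * (d + 1) * S.card := Nat.le_mul_of_pos_left _ (by omega)
      refine ⟨h1.2.1, fun c hc => (hC x c).2 ⟨?_, ?_⟩⟩
      · exact yr_mono hg.hne (by omega) (e1_reg hg h1 (show S.card ≤ N by omega) h4 hc)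
      · have := (mem_DS.1 hc).2
        omega)
  have hGx : ∀ x, W * (a₁ x + a₂ x) + a₃ x < 1 → a₁ x < 1 ∧ a₂ x < 1 ∧ a₃ x < 1 := by
    intro x hx
    have h1 := ha₁0 x
    have h2 := ha₂0 x
    have h3 := ha₃0 x
    have h4 : a₁ x + a₂ x ≤ W * (a₁ x + a₂ x) := le_mul_of_one_le_left (by linarith) hW1
    exact ⟨by linarith, by linarith, by linarith⟩
  have hnoF : ∀ x, x ∈ X₁' → a₁ x < 1 → ∀ z r', YR dm 𝓑 (Lam x) (t + 2) z → r' < t + 2 →
      (z, r') ∉ F := by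
    intro x hx h1 z r' hz hr' hzF
    have h2 : (z, r') ∈ Reg x := by
      rw [hReg, if_pos hx]
      exact (hReg₀ x _).2 ⟨hz, hr'⟩
    have h3 := Finset.single_le_sum (f := fun c => if c ∈ F then (1 : ℝ) else 0)
      (fun c _ => by split_ifs <;> norm_num) h2
    rw [← ha₁] at h3
    simp only [hzF, if_true] at h3
    linarith
  refine ⟨T, F, N, 2 ^ ((N + 1) * (d + 1) ^ N), C, E1, c, d + 1, t, ts,
    (X₀ ∩ X₁') ∩ {x | W * (a₁ x + a₂ x) + a₃ x < 1},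
    X₁' ∩ {x | W * (a₁ x + a₂ x) + a₃ x < W * (δ' / 2)}, ⟨hT, hF, hcm⟩, hgood, ⟨?_, ?_, ?_⟩,
    ⟨?_, ?_⟩, ?_, ?_, ?_, ?_⟩
  · exact hX₁'m.inter (measurableSet_lt hIm measurable_const)
  · have e : (X₁' ∩ {x | W * (a₁ x + a₂ x) + a₃ x < W * (δ' / 2)})ᶜ =
        X₁'ᶜ ∪ {x | W * (δ' / 2) ≤ W * (a₁ x + a₂ x) + a₃ x} := by
      ext x
      simp only [mem_compl_iff, mem_inter_iff, mem_ofPred_eq, mem_union, not_and_or, not_lt]
    rw [e]
    refine (measure_union_le _ _).trans ((add_le_add hX₁'μ hmk2).trans ?_)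
    rw [← ENNReal.ofReal_add (by positivity) (by positivity)]
    exact ENNReal.ofReal_le_ofReal (by linarith)
  · rintro x ⟨hx1, hx2⟩
    simp only [mem_ofPred_eq] at hx2
    have h1 : a₂ x ≤ δ' / 2 := by
      have h2 := ha₁0 x
      have h3 := ha₃0 x
      have h4 : W * a₂ x ≤ W * (a₁ x + a₂ x) := mul_le_mul_of_nonneg_left (by linarith) hW0.le
      have h5 : W * a₂ x < W * (δ' / 2) := by linarith
      exact (lt_of_mul_lt_mul_left h5 hW0.le).le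
    calc ∑ S ∈ E1 x, cp (DS dm S) (BadS dm viol 𝓖 S) F T *
          ∏ b ∈ nbf (dmF dm F) (resB dm 𝓑 d N F) S,
            (1 + Γ ^ b.card * cp (DS dm b) (BadS dm viol 𝓖 b) F T)
        ≤ ∑ S ∈ E1 x, 2 * cp (DS dm S) (BadS dm viol 𝓖 S) F T := by
          refine Finset.sum_le_sum fun S hS => ?_
          obtain ⟨⟨h6, h7, h8⟩, -⟩ := (hE1 x S).1 hS
          have h5 : S.card ≤ 5 * (d + 1) * S.card := Nat.le_mul_of_pos_left _ (by omega)
          exact hcb S h6.2.1 (by omega)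
      _ = 2 * a₂ x := by rw [ha₂, hB1, if_pos hx1, Finset.mul_sum]
      _ ≤ δ' := by linarith
  · exact (hX₀.inter hX₁'m).inter (measurableSet_lt hIm measurable_const)
  · have e : ((X₀ ∩ X₁') ∩ {x | W * (a₁ x + a₂ x) + a₃ x < 1})ᶜ =
        (X₀ᶜ ∪ X₁'ᶜ) ∪ {x | 1 ≤ W * (a₁ x + a₂ x) + a₃ x} := by
      ext x
      simp only [mem_compl_iff, mem_inter_iff, mem_ofPred_eq, mem_union, not_and_or, not_lt]
    rw [e]
    refine (measure_union_le _ _).trans ((add_le_add ((measure_union_le _ _).trans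
      (add_le_add hμX₀ hX₁'μ)) hmk1).trans ?_)
    rw [← ENNReal.ofReal_add hδ (by positivity), ← ENNReal.ofReal_add (by positivity)
      (by positivity)]
    exact ENNReal.ofReal_le_ofReal (by linarith)
  · rintro x ⟨⟨hx0, hx1⟩, hx2⟩
    obtain ⟨h1, h2, h3⟩ := hGx x hx2
    rw [ha₂, hB1, if_pos hx1] at h2
    rw [ha₃, hB2, if_pos hx0] at h3
    exact p1 hk hg hN16 hA hj2 hM (Nat.succ_pos d) hcχ hc (by rw [ht]) (hnoF x hx1 h1)
      (E1 := E1 x) (fun S hS hv => (hE1 x S).2 ⟨hS, hv⟩) h2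
      (E2 := E2 x) (fun a ha S hS => (hE2 x S).2 ⟨a, ha, hS⟩) h3
  · rintro x ⟨⟨hx0, hx1⟩, hx2⟩ g hgB hgE
    obtain ⟨h1, h2, h3⟩ := hGx x hx2
    exact p2 hk hg hN16 hA hj2 hM (Nat.succ_pos d) hcχ hc (by rw [ht]) hts2 (hnoF x hx1 h1)
      (hC x) (by omega) (by omega) (E1 := E1 x) (fun S hS hv => (hE1 x S).2 ⟨hS, hv⟩) hgB hgE
  · intro x g hgB
    exact p3 hk hg hN16 hA hj2 hM (Nat.succ_pos d) hcχ hc hts1 (hC x) (by omega) (by omega) hgB
  · intro x g₁ g₂ h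
    exact p4 hg (hC x) (by omega) h

end

end Pool.Agent.Helper105
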