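import Mathlib
import Pool.Agent.Helper105_All.StepG

set_option autoImplicit false

namespace Pool.Agent.Helper105

open MeasureTheory Set Filter
open scoped Classical Topology ENNReal

attribute [-instance] Finset.instMeasurableSpace
attribute [local instance] finsetBorel sb_finset

universe u

/-- A level of the construction. -/
structure Lvl (X : Type u) [MeasurableSpace X] (k : ℕ) : Type (u + 1) where
  Y : Type u
  V : Type u
  mY : MeasurableSpace Y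
  sY : StandardBorelSpace Y
  mV : MeasurableSpace V
  sV : StandardBorelSpace V
  dm : V → Finset Y
  viol : V → (Y → Fin k) → Prop
  𝓑 : Set V
  𝓖 : Set V
  Lam : X → Finset Y
  ev : X → Finset V
  d : ℕ
  P : V → ℝ
  s : V → ℝ
  Γ : ℝ
  r : ℝ
  good : Good dm viol 𝓑 𝓖 Lam ev d P s Γ r

attribute [instance] Lvl.mY Lvl.sY Lvl.mV Lvl.sV

section
variable {X : Type u} [MeasurableSpace X] {k : ℕ}

/-- no event touching the window of `x` is violated. -/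
def AvB (L : Lvl X k) (g : L.Y → Fin k) (x : X) : Prop :=
  ∀ v ∈ L.𝓑, (∃ z ∈ L.dm v, z ∈ L.Lam x) → ¬ L.viol v g

/-- no soft event of `x` is violated. -/
def AvE (L : Lvl X k) (g : L.Y → Fin k) (x : X) : Prop := ∀ a ∈ L.ev x, ¬ L.viol a g

/-- the soft events are cheap. -/
def Cost (μ : Measure X) (L : Lvl X k) (δ : ℝ) : Prop := ∃ X₀ : Set X, MeasurableSet X₀ ∧
  μ X₀ᶜ ≤ ENNReal.ofReal δ ∧
    ∀ x ∈ X₀, ∑ a ∈ L.ev x, L.P a * ∏ b ∈ nbf L.dm L.𝓑 a, (1 + L.s b) ≤ δ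

/-- the relation between consecutive levels. -/
def StepRel (μ : Measure X) (δ δ' : ℝ) (L L' : Lvl X k) : Prop :=
  ∃ (Ψ : (L'.Y → Fin k) → L.Y → Fin k) (h : L.Y → Fin k) (G : Set X),
    (∀ g, Measurable g → Measurable (Ψ g)) ∧ Measurable h ∧ MeasurableSet G ∧
    μ Gᶜ ≤ ENNReal.ofReal (2 * (δ + δ')) ∧ (∀ x ∈ G, AvB L h x ∧ AvE L h x) ∧
    (∀ x ∈ G, ∀ g, AvB L' g x → AvE L' g x → ∀ y ∈ L.Lam x, Ψ g y = h y) ∧
    (∀ x g, AvB L' g x → AvB L (Ψ g) x) ∧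
    ∀ x g₁ g₂, (∀ y ∈ L'.Lam x, g₁ y = g₂ y) → ∀ y ∈ L.Lam x, Ψ g₁ y = Ψ g₂ y

variable [StandardBorelSpace X]

theorem stepL (hk : 0 < k) (μ : Measure X) [IsProbabilityMeasure μ] (L : Lvl X k) {δ : ℝ}
    (hδ : 0 ≤ δ) (hc : Cost μ L δ) {δ' : ℝ} (hδ' : 0 < δ') :
    ∃ L' : Lvl X k, Cost μ L' δ' ∧ StepRel μ δ δ' L L' := by
  obtain ⟨X₀, hX₀, hμ, hcost⟩ := hc
  obtain ⟨T, F, N, Kc, C, ev', c, χ, t, ts, G, X₁, ⟨hT, hF, hcm⟩, hgood, hcost', ⟨hG, hGμ⟩, h1,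
    h2, h3, h4⟩ := step_raw hk μ L.good hδ hX₀ hμ hcost hδ'
  refine ⟨⟨L.Y × ℕ, Finset (ℕ × L.V), inferInstance, inferInstance, finsetBorel _, sb_finset _,
    _, _, _, _, C, ev', _, _, _, _, _, hgood⟩, ⟨X₁, hcost'⟩,
    fun g => PsiF L.dm L.viol L.𝓑 c χ F T ts g, stt L.dm L.viol L.𝓑 c χ T t, G, ?_, ?_, hG, hGμ,
    h1, h2, h3, h4⟩
  · intro g hg
    exact psi_meas L.good hT hF hcm χ ts hg
  · have h5 := psi_meas L.good hT MeasurableSet.empty hcm χ t hT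
    have e : PsiF L.dm L.viol L.𝓑 c χ ∅ T t T = stt L.dm L.viol L.𝓑 c χ T t := by
      have e2 : fillT (∅ : Set (L.Y × ℕ)) T T = T := by
        funext c
        simp [fillT]
      unfold PsiF
      rw [e2]
    rw [e] at h5
    exact h5

/-- The iteration. -/
theorem iterate (hk : 0 < k) (μ : Measure X) [IsProbabilityMeasure μ] (L₀ : Lvl X k)
    (hc₀ : Cost μ L₀ 1) : ∃ (f : L₀.Y → Fin k), Measurable f ∧ ∃ Z₀ : Set X, μ Z₀ = 0 ∧
      ∀ x ∉ Z₀, ∃ g : L₀.Y → Fin k, AvB L₀ g x ∧ ∀ y ∈ L₀.Lam x, f y = g y := by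
  obtain ⟨δ, hδ⟩ : ∃ δ : ℕ → ℝ, ∀ n, δ n = (1 / 2 : ℝ) ^ n := ⟨_, fun _ => rfl⟩
  have hδ0 : ∀ n, 0 < δ n := fun n => by rw [hδ]; positivity
  have hnext : ∀ (n : ℕ) (L : {L : Lvl X k // Cost μ L (δ n)}),
      ∃ L' : {L' : Lvl X k // Cost μ L' (δ (n + 1))},
        StepRel μ (δ n) (δ (n + 1)) L.1 L'.1 := by
    rintro n ⟨L, hL⟩
    obtain ⟨L', h1, h2⟩ := stepL hk μ L (hδ0 n).le hL (hδ0 (n + 1))
    exact ⟨⟨L', h1⟩, h2⟩
  choose nx hnx using hnext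
  obtain ⟨sq, hsq0, hsq⟩ : ∃ sq : ∀ n : ℕ, {L : Lvl X k // Cost μ L (δ n)},
      (sq 0).1 = L₀ ∧ ∀ n, StepRel μ (δ n) (δ (n + 1)) (sq n).1 (sq (n + 1)).1 := by
    refine ⟨fun n => Nat.rec ⟨L₀, by rw [hδ, pow_zero]; exact hc₀⟩ (fun n L => nx n L) n, rfl,
      fun n => hnx n _⟩
  obtain ⟨L, hL⟩ : ∃ L : ℕ → Lvl X k, ∀ n, L n = (sq n).1 := ⟨_, fun _ => rfl⟩
  have hrel : ∀ n, StepRel μ (δ n) (δ (n + 1)) (L n) (L (n + 1)) := by
    intro n
    rw [hL, hL]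
    exact hsq n
  have hL0 : L 0 = L₀ := by rw [hL]; exact hsq0
  clear hL hsq hsq0 sq hnx nx
  subst hL0
  choose Ψ h G hΨm hhm hGm hGμ hP1 hP2 hP3 hP4 using hrel
  -- pull back to the first level
  obtain ⟨dw, hdw0, hdw⟩ : ∃ dw : ∀ n : ℕ, ((L n).Y → Fin k) → (L 0).Y → Fin k,
      (∀ g, dw 0 g = g) ∧ ∀ n g, dw (n + 1) g = dw n (Ψ n g) :=
    ⟨fun n => Nat.rec (motive := fun n => ((L n).Y → Fin k) → (L 0).Y → Fin k) (fun g => g)
      (fun n D g => D (Ψ n g)) n, fun _ => rfl, fun _ _ => rfl⟩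
  have hdwm : ∀ n g, Measurable g → Measurable (dw n g) := by
    intro n
    induction n with
    | zero => intro g hg; rw [hdw0]; exact hg
    | succ n ih => intro g hg; rw [hdw]; exact ih _ (hΨm n g hg)
  have hdwB : ∀ n x g, AvB (L n) g x → AvB (L 0) (dw n g) x := by
    intro n x
    induction n with
    | zero => intro g hg; rw [hdw0]; exact hg
    | succ n ih => intro g hg; rw [hdw]; exact ih _ (hP3 n x g hg)
  have hdwl : ∀ n x g₁ g₂, (∀ y ∈ (L n).Lam x, g₁ y = g₂ y) →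
      ∀ y ∈ (L 0).Lam x, dw n g₁ y = dw n g₂ y := by
    intro n x
    induction n with
    | zero => intro g₁ g₂ hg; rw [hdw0, hdw0]; exact hg
    | succ n ih => intro g₁ g₂ hg; rw [hdw, hdw]; exact ih _ _ (hP4 n x g₁ g₂ hg)
  obtain ⟨Fn, hFn⟩ : ∃ Fn : ℕ → (L 0).Y → Fin k, ∀ n, Fn n = dw n (h n) := ⟨_, fun _ => rfl⟩
  have hFm : ∀ n, Measurable (Fn n) := fun n => by rw [hFn]; exact hdwm n _ (hhm n)
  have hFs : ∀ n x, x ∈ G n → x ∈ G (n + 1) → ∀ y ∈ (L 0).Lam x, Fn (n + 1) y = Fn n y := by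
    intro n x h1 h2 y hy
    rw [hFn, hFn, hdw]
    refine hdwl n x _ _ ?_ y hy
    exact hP2 n x h1 _ (hP1 (n + 1) x h2).1 (hP1 (n + 1) x h2).2
  obtain ⟨Z₀, hZ₀⟩ : ∃ Z₀ : Set X, Z₀ = {x | ∃ᶠ n in atTop, x ∈ (G n)ᶜ} := ⟨_, rfl⟩
  have hZμ : μ Z₀ = 0 := by
    rw [hZ₀]
    refine measure_setOf_frequently_eq_zero ?_
    have h1 : ∀ n, μ (G n)ᶜ ≤ ENNReal.ofReal (4 * (1 / 2 : ℝ) ^ n) := by
      intro n
      refine (hGμ n).trans (ENNReal.ofReal_le_ofReal ?_)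
      rw [hδ, hδ, pow_succ]
      have : (0 : ℝ) < (1 / 2 : ℝ) ^ n := by positivity
      linarith
    refine ne_top_of_le_ne_top ?_ (ENNReal.tsum_le_tsum h1)
    rw [← ENNReal.ofReal_tsum_of_nonneg (fun n => by positivity)
      (Summable.mul_left 4 (summable_geometric_of_lt_one (by norm_num) (by norm_num)))]
    exact ENNReal.ofReal_ne_top
  -- the limit
  have hex : ∀ y : (L 0).Y, ∃ n, (∀ m, n ≤ m → Fn m y = Fn n y) ∨
      ¬ ∃ n', ∀ m, n' ≤ m → Fn m y = Fn n' y := by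
    intro y
    by_cases hy : ∃ n', ∀ m, n' ≤ m → Fn m y = Fn n' y
    · obtain ⟨n, hn⟩ := hy
      exact ⟨n, Or.inl hn⟩
    · exact ⟨0, Or.inr hy⟩
  have hcm : ∀ n, MeasurableSet {y | ∀ m, n ≤ m → Fn m y = Fn n y} := by
    intro n
    have e : {y | ∀ m, n ≤ m → Fn m y = Fn n y} = ⋂ m, ⋂ _ : n ≤ m, {y | Fn m y = Fn n y} := by
      ext y
      simp only [mem_ofPred_eq, mem_iInter]
    rw [e]
    exact MeasurableSet.iInter fun m => MeasurableSet.iInter fun _ =>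
      measurableSet_eq_fun (hFm m) (hFm n)
  have hνm : Measurable fun y => Nat.find (hex y) := by
    refine measurable_find hex fun n => (hcm n).union (MeasurableSet.compl ?_)
    have e : {y | ∃ n', ∀ m, n' ≤ m → Fn m y = Fn n' y} =
        ⋃ n, {y | ∀ m, n ≤ m → Fn m y = Fn n y} := by
      ext y
      simp only [mem_ofPred_eq, mem_iUnion]
    show MeasurableSet {y | ∃ n', ∀ m, n' ≤ m → Fn m y = Fn n' y}
    rw [e]
    exact MeasurableSet.iUnion hcm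
  refine ⟨fun y => Fn (Nat.find (hex y)) y, ?_, Z₀, hZμ, ?_⟩
  · refine measurable_glue (fun n : ℕ => {y | Nat.find (hex y) = n})
      (fun n => measurableSet_eq_fun hνm measurable_const) (fun y => ⟨_, rfl⟩)
      Fn hFm _ ?_
    rintro n y hy
    simp only [mem_ofPred_eq] at hy
    beta_reduce
    rw [hy]
  · intro x hx
    rw [hZ₀, mem_ofPred_eq, not_frequently] at hx
    obtain ⟨n₀, hn₀⟩ := eventually_atTop.1 hx
    simp only [mem_compl_iff, not_not] at hn₀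
    have hconst : ∀ y ∈ (L 0).Lam x, ∀ m, n₀ ≤ m → Fn m y = Fn n₀ y := by
      intro y hy m hm
      induction hm with
      | refl => rfl
      | @step m hm ih =>
        rw [← ih]
        exact hFs m x (hn₀ m hm) (hn₀ (m + 1) (Nat.le_succ_of_le hm)) y hy
    refine ⟨Fn n₀, ?_, ?_⟩
    · rw [hFn]
      exact hdwB n₀ x _ (hP1 n₀ x (hn₀ n₀ le_rfl)).1
    · intro y hy
      have h1 := Nat.find_spec (hex y)
      rcases h1 with h1 | h1
      · have h2 := h1 (max n₀ (Nat.find (hex y))) (le_max_right _ _)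
        have h3 := hconst y hy (max n₀ (Nat.find (hex y))) (le_max_left _ _)
        exact h2.symm.trans h3
      · exact absurd ⟨n₀, hconst y hy⟩ h1

end

end Pool.Agent.Helper105
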