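import Mathlib
import Pool.Agent.Helper105_All.Lvl
import Pool.Agent.Helper105_Sub.Growth2

set_option autoImplicit false

namespace Pool.Agent.Helper105

open MeasureTheory Set
open scoped Classical ENNReal

attribute [-instance] Finset.instMeasurableSpace
attribute [local instance] finsetBorel sb_finset

universe u

/-- The abstract core, without any assumption on the structure of the instance. -/
theorem coreG {X V : Type u} [MeasurableSpace X] [StandardBorelSpace X] [MeasurableSpace V]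
    [StandardBorelSpace V] {k : ℕ} (hk : 0 < k) {dm : V → Finset X}
    {viol : V → (X → Fin k) → Prop} {𝓑 : Set V} (h𝓑 : MeasurableSet 𝓑)
    (hdm : MeasurableSet {p : V × X | p.2 ∈ dm p.1})
    (hfin : ∀ x, {v | v ∈ 𝓑 ∧ x ∈ dm v}.Finite) (hne : ∀ v ∈ 𝓑, (dm v).Nonempty)
    (hvm : ∀ (Z : Type u) [MeasurableSpace Z] [StandardBorelSpace Z] (f : Z → X → Fin k),
      Measurable (fun p : Z × X => f p.1 p.2) →
        MeasurableSet {p : Z × V | p.2 ∈ 𝓑 ∧ viol p.2 (f p.1)})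
    (hloc : ∀ v f g, (∀ x ∈ dm v, f x = g x) → (viol v f ↔ viol v g))
    {d : ℕ} (hdeg : ∀ v ∈ 𝓑, ∃ U : Finset V, U.card ≤ d + 1 ∧ ∀ w ∈ 𝓑, meets dm w v → w ∈ U)
    {p : ℝ} (hp : 0 ≤ p) (hpd : Real.exp 1 * p * (d + 1) < 1)
    (hviol : ∀ w ∈ 𝓑, ∀ f₀, (((Tab (dm w) f₀).filter (viol w)).card : ℝ) ≤
      p * (k : ℝ) ^ (dm w).card)
    (μ : Measure X) [IsProbabilityMeasure μ] :
    ∃ f : X → Fin k, Measurable f ∧ ∃ Z₀ : Set X, μ Z₀ = 0 ∧
      ∀ v ∈ 𝓑, viol v f → ∀ x ∈ dm v, x ∈ Z₀ := by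
  obtain ⟨Γ, -, -, hΓ, hw, -, -, -, -, -⟩ := consts hp hpd
  have hd0 : (0 : ℝ) < (d : ℝ) + 1 := by positivity
  have hs0 : (0 : ℝ) ≤ 1 / ((d : ℝ) + 1) := by positivity
  have hΓ0 : 0 < Γ := by linarith
  -- the windows
  obtain ⟨Lam, hLam⟩ : ∃ Lam : X → Finset X, ∀ x y, y ∈ Lam x ↔
      y = x ∨ ∃ v, (v ∈ 𝓑 ∧ x ∈ dm v) ∧ y ∈ dm v := by
    refine ⟨fun x => insert x ((hfin x).toFinset.biUnion dm), fun x y => ?_⟩
    simp only [Finset.mem_insert, Finset.mem_biUnion, Finite.mem_toFinset, mem_ofPred_eq]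
  have hLamm : MeasurableSet {p : X × X | p.2 ∈ Lam p.1} := by
    have e : {p : X × X | p.2 ∈ Lam p.1} = {p | p.2 = p.1} ∪
        {p | ∃ v, (p, v) ∈ {q : (X × X) × V | (q.2 ∈ 𝓑 ∧ q.1.1 ∈ dm q.2) ∧
          q.1.2 ∈ dm q.2}} := by
      ext p
      simp only [mem_ofPred_eq, hLam, mem_union]
    rw [e]
    refine (measurableSet_eq_fun measurable_snd measurable_fst).union
      (proj (MeasurableSet.inter (MeasurableSet.inter ?_ ?_) ?_) fun p => ?_)
    · exact measurable_snd h𝓑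
    · exact (by fun_prop : Measurable fun q : (X × X) × V => (q.2, q.1.1)) hdm
    · exact (by fun_prop : Measurable fun q : (X × X) × V => (q.2, q.1.2)) hdm
    · exact ((hfin p.1).subset fun v hv => hv.1).countable
  have hLamf : ∀ y, {x | y ∈ Lam x}.Finite := by
    intro y
    refine ((finite_singleton y).union ((hfin y).biUnion (t := fun v => (dm v : Set X))
      fun v _ => (dm v).finite_toSet)).subset ?_
    intro x hx
    rcases (hLam x y).1 hx with rfl | ⟨v, ⟨h1, h2⟩, h3⟩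
    · exact Or.inl rfl
    · refine Or.inr ?_
      simp only [mem_iUnion]
      exact ⟨v, ⟨h1, h3⟩, h2⟩
  have hNc : ∀ a ∈ 𝓑, ((nbf dm 𝓑 a).card : ℝ) ≤ (d : ℝ) + 1 := by
    intro a ha
    obtain ⟨U, hU1, hU2⟩ := hdeg a ha
    have h1 : (nbf dm 𝓑 a).card ≤ d + 1 := by
      refine (Finset.card_le_card fun b hb => ?_).trans hU1
      rw [mem_nbf hfin] at hb
      exact hU2 b hb.1 hb.2
    exact_mod_cast h1
  have hgood : Good dm viol 𝓑 𝓑 Lam (fun _ => (∅ : Finset V)) d (fun _ => p)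
      (fun _ => 1 / ((d : ℝ) + 1)) Γ (((d : ℝ) + 1) / ((d : ℝ) + 2)) := by
    refine ⟨h𝓑, h𝓑, fun _ h => h, hdm, hfin, hne, hvm, hloc, hdeg, fun _ => hp, fun _ => hs0,
      hviol, ?_, hΓ, by positivity, by rw [div_lt_one (by positivity)]; linarith, ?_, ?_, hLamm,
      hLamf, ?_, ?_⟩
    · intro v _
      rw [div_le_one hd0]
      have : (0 : ℝ) ≤ d := Nat.cast_nonneg d
      linarith
    · intro a ha
      rw [Finset.prod_const]
      refine le_trans (mul_le_mul_of_nonneg_left ?_ (by positivity)) hw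
      refine pow_le_pow_right₀ (by linarith) ?_
      exact_mod_cast hNc a ha
    · intro a ha
      rw [Finset.sum_const, nsmul_eq_mul]
      calc ((nbf dm 𝓑 a).card : ℝ) * (1 / ((d : ℝ) + 1)) ≤ ((d : ℝ) + 1) * (1 / ((d : ℝ) + 1)) :=
            mul_le_mul_of_nonneg_right (hNc a ha) hs0
        _ = ((d : ℝ) + 1) / ((d : ℝ) + 2) * (1 + 1 / ((d : ℝ) + 1)) := by field_simp; ring
    · have e : {p : X × V | p.2 ∈ (∅ : Finset V)} = ∅ := by
        ext p
        simp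
      rw [e]
      exact MeasurableSet.empty
    · intro x a ha
      simp at ha
  obtain ⟨L₀, hL₀⟩ : ∃ L₀ : Lvl X k, L₀ = ⟨X, V, inferInstance, inferInstance, inferInstance,
      inferInstance, dm, viol, 𝓑, 𝓑, Lam, fun _ => ∅, d, _, _, _, _, hgood⟩ := ⟨_, rfl⟩
  have key : ∃ f : X → Fin k, Measurable f ∧ ∃ Z₀ : Set X, μ Z₀ = 0 ∧
      ∀ x ∉ Z₀, ∃ g : X → Fin k, (∀ v ∈ 𝓑, (∃ z ∈ dm v, z ∈ Lam x) → ¬ viol v g) ∧
        ∀ y ∈ Lam x, f y = g y := by
    have h1 := iterate hk μ (⟨X, V, inferInstance, inferInstance, inferInstance,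
      inferInstance, dm, viol, 𝓑, 𝓑, Lam, fun _ => ∅, d, _, _, _, _, hgood⟩ : Lvl X k)
      ⟨univ, MeasurableSet.univ, by simp, fun x _ => by simp⟩
    exact h1
  obtain ⟨f, hf, Z₀, hZ₀, hf'⟩ := key
  refine ⟨f, hf, Z₀, hZ₀, ?_⟩
  intro v hv hvi x hx
  by_contra hxZ
  obtain ⟨g, hg1, hg2⟩ := hf' x hxZ
  refine hg1 v hv ⟨x, hx, (hLam x x).2 (Or.inl rfl)⟩ ((hloc v f g fun y hy => ?_).1 hvi)
  exact hg2 y ((hLam x y).2 (Or.inr ⟨v, ⟨hv, hx⟩, hy⟩))

section
variable {X : Type u} [MeasurableSpace X] [StandardBorelSpace X] {k : ℕ}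
  {𝓑 : Set (Finset (Finset (X × Fin k)))}

/-- All instances at the tight criterion. -/
theorem main_all (hk : 0 < k) (h𝓑 : MeasurableSet 𝓑) (hbad : ∀ B ∈ 𝓑, IsBadEvent B)
    (hcor : CorrectSLLL 𝓑) (μ : Measure X) [IsProbabilityMeasure μ] :
    ∃ f : X → Fin k, Measurable f ∧ μ (defect f 𝓑) = 0 := by
  by_cases hne0 : 𝓑.Nonempty
  swap
  · refine ⟨fun _ => ⟨0, hk⟩, measurable_const, ?_⟩
    have : defect (fun _ => (⟨0, hk⟩ : Fin k)) 𝓑 = ∅ := by
      ext x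
      simp only [defect, mem_ofPred_eq, mem_empty_iff_false, iff_false]
      rintro ⟨B, hB, -⟩
      exact hne0 ⟨B, hB⟩
    rw [this, measure_empty]
  obtain ⟨p, d, hp, hd, hp0, hlt, hpB, hdeg⟩ := slll_data hk hbad hcor hne0
  have hne := dom_nonempty hk hbad hlt hpB
  have hfin := events_at (𝓑 := 𝓑) fun B hB => (hdeg B hB).1
  obtain ⟨f, hf, Z₀, hZ₀, hf'⟩ := coreG (dm := dom) (viol := vio) hk h𝓑 dom_meas hfin hne
    (fun Z _ _ f hf => vio_meas h𝓑 Z f hf) vio_loc (d := d)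
    (by
      intro B hB
      have h1 := hdeg B hB
      refine ⟨insert B h1.1.toFinset, ?_, ?_⟩
      · refine (Finset.card_insert_le _ _).trans ?_
        rw [← Set.ncard_eq_toFinset_card _ h1.1]
        exact Nat.add_le_add_right h1.2 1
      · intro B' hB' hm
        rw [Finset.mem_insert]
        by_cases h : B' = B
        · exact Or.inl h
        · refine Or.inr ?_
          rw [Finite.mem_toFinset]
          exact ⟨hB', h, hm⟩)
    (p := p) hp0.le hlt (fun B hB f₀ => vio_prob hk (hbad B hB) (hpB B hB) f₀) μ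
  refine ⟨f, hf, measure_mono_null ?_ hZ₀⟩
  rintro x ⟨B, hB, φ, hφ, hx, hall⟩
  have hxB : x ∈ dom B := by
    rw [Finset.mem_image] at hx
    obtain ⟨q, hq, rfl⟩ := hx
    exact fst_mem_dom hφ hq
  exact hf' B hB ⟨φ, hφ, hall⟩ x hxB

end

end Pool.Agent.Helper105
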